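import Mathlib
import Pool.Agent.R503.N.TrC

/-! The trivial part for arbitrary classes: equal `n` and moduli with a common factor (helper503). -/

open Finset

namespace Pool.Agent.R503.T

open Pool.Agent.Y826.Z Pool.Agent.Y826.Z.OB Pool.Agent.R503.N

/-- the second moment -/
noncomputable def SSt (r M N : ℕ) (h : ℤ) (c : ℕ → ℤ) (T : Finset ℕ) (κ β : ℕ → ℝ) : ℝ :=
  ∑ m ∈ Ioc M (2 * M), (∑ t ∈ T, κ t * ∑ n ∈ Ioc N (2 * N), β n *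
    (Pl r h (m * n) * Dc t (c t) ((m * n : ℕ) : ℤ))) ^ 2

/-- its main part -/
noncomputable def Sof (r M N : ℕ) (h : ℤ) (c : ℕ → ℤ) (T : Finset ℕ) (κ β : ℕ → ℝ) : ℝ :=
  ∑ t1 ∈ T, ∑ t2 ∈ T, ind (t1.Coprime t2) * (κ t1 * κ t2) * ∑ n1 ∈ Ioc N (2 * N), ∑ n2 ∈ Ioc N (2 * N),
    ind (n1 ≠ n2 ∧ n1 ≡ n2 [MOD r]) * (β n1 * β n2 * ∑ m ∈ Ioc M (2 * M), Pl r h (m * n1) *
      Dc t1 (c t1) ((m * n1 : ℕ) : ℤ) * Dc t2 (c t2) ((m * n2 : ℕ) : ℤ))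

lemma SSt_eq (r M N : ℕ) (h : ℤ) (c : ℕ → ℤ) (T : Finset ℕ) (κ β : ℕ → ℝ) :
    SSt r M N h c T κ β = ∑ m ∈ Ioc M (2 * M), ∑ n1 ∈ Ioc N (2 * N), ∑ n2 ∈ Ioc N (2 * N),
      ∑ t1 ∈ T, ∑ t2 ∈ T, (Pl r h (m * n1) * Pl r h (m * n2)) * (κ t1 * κ t2 * (β n1 * β n2) *
        (Dc t1 (c t1) ((m * n1 : ℕ) : ℤ) * Dc t2 (c t2) ((m * n2 : ℕ) : ℤ))) := by
  unfold SSt
  refine sum_congr rfl fun m _ => ?_
  rw [← sum4_comm]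
  rw [pow_two, sum_mul_sum]
  refine sum_congr rfl fun t1 _ => sum_congr rfl fun t2 _ => ?_
  rw [mul_mul_mul_comm, sum_mul_sum, mul_sum]
  refine sum_congr rfl fun n1 _ => ?_
  rw [mul_sum]
  refine sum_congr rfl fun n2 _ => ?_
  ring

lemma Sof_eq (r M N : ℕ) (h : ℤ) (c : ℕ → ℤ) (T : Finset ℕ) (κ β : ℕ → ℝ) :
    Sof r M N h c T κ β = ∑ m ∈ Ioc M (2 * M), ∑ n1 ∈ Ioc N (2 * N), ∑ n2 ∈ Ioc N (2 * N),
      ∑ t1 ∈ T, ∑ t2 ∈ T, (ind (t1.Coprime t2) * ind (n1 ≠ n2 ∧ n1 ≡ n2 [MOD r]) * Pl r h (m * n1)) *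
        (κ t1 * κ t2 * (β n1 * β n2) * (Dc t1 (c t1) ((m * n1 : ℕ) : ℤ) * Dc t2 (c t2) ((m * n2 : ℕ) : ℤ))) := by
  have h1 : ∀ m ∈ Ioc M (2 * M), ∑ n1 ∈ Ioc N (2 * N), ∑ n2 ∈ Ioc N (2 * N),
      ∑ t1 ∈ T, ∑ t2 ∈ T, (ind (t1.Coprime t2) * ind (n1 ≠ n2 ∧ n1 ≡ n2 [MOD r]) * Pl r h (m * n1)) *
        (κ t1 * κ t2 * (β n1 * β n2) * (Dc t1 (c t1) ((m * n1 : ℕ) : ℤ) * Dc t2 (c t2) ((m * n2 : ℕ) : ℤ))) =
      ∑ t1 ∈ T, ∑ t2 ∈ T, ∑ n1 ∈ Ioc N (2 * N), ∑ n2 ∈ Ioc N (2 * N),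
        (ind (t1.Coprime t2) * ind (n1 ≠ n2 ∧ n1 ≡ n2 [MOD r]) * Pl r h (m * n1)) *
        (κ t1 * κ t2 * (β n1 * β n2) * (Dc t1 (c t1) ((m * n1 : ℕ) : ℤ) * Dc t2 (c t2) ((m * n2 : ℕ) : ℤ))) :=
    fun m _ => by rw [sum4_comm]
  rw [sum_congr rfl h1, sum_comm]
  unfold Sof
  refine sum_congr rfl fun t1 _ => ?_
  rw [sum_comm]
  refine sum_congr rfl fun t2 _ => ?_
  rw [mul_sum, sum_comm]
  refine sum_congr rfl fun n1 _ => ?_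
  rw [mul_sum, sum_comm]
  refine sum_congr rfl fun n2 _ => ?_
  rw [mul_sum, mul_sum, mul_sum]
  refine sum_congr rfl fun m _ => ?_
  ring

/-- the sum of the absolute values -/
noncomputable def Bp (T : Finset ℕ) (c : ℕ → ℤ) (p : ℕ) (x : ℕ) : ℝ :=
  ∑ t ∈ T, ind (p ∣ t) * |Dc t (c t) (x : ℤ)|

lemma Bp_nonneg (T : Finset ℕ) (c : ℕ → ℤ) (p x : ℕ) : 0 ≤ Bp T c p x :=
  sum_nonneg fun _ _ => mul_nonneg (ind_nonneg _) (abs_nonneg _)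

lemma Bp_le (T : Finset ℕ) (c : ℕ → ℤ) (p x : ℕ) :
    Bp T c p x ≤ Act (T.filter (fun t => p ∣ t)) c x +
      ∑ t ∈ T.filter (fun t => p ∣ t), (1 / (Nat.totient t : ℝ)) := by
  unfold Bp Act
  rw [← sum_add_distrib, sum_filter]
  refine sum_le_sum fun t _ => ?_
  by_cases h : p ∣ t
  · rw [ind_true h, one_mul, if_pos h]
    exact Dc_abs t (c t) _
  · rw [ind_false h, zero_mul, if_neg h]

/-- the first bound -/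
lemma diff_le (r M N G Q : ℕ) (h : ℤ) (c : ℕ → ℤ) (T : Finset ℕ) (κ β : ℕ → ℝ) (ℓ : ℝ) (hℓ : 0 ≤ ℓ)
    (hh : IsCoprime h (r : ℤ)) (hT : ∀ t ∈ T, 0 < t ∧ t ≤ Q) (hG : ∀ t ∈ T, ∀ p : ℕ, p.Prime → p ∣ t → G < p)
    (hκ : ∀ t, |κ t| ≤ 1) (hβ : ∀ n ∈ Ioc N (2 * N), |β n| ≤ ℓ) :
    |SSt r M N h c T κ β - Sof r M N h c T κ β| ≤
      ℓ ^ 2 * (∑ m ∈ Ioc M (2 * M), ∑ n ∈ Ioc N (2 * N), Pl r h (m * n) * Bp T c 1 (m * n) ^ 2 +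
        ∑ p ∈ (Ioc G Q).filter Nat.Prime, ∑ m ∈ Ioc M (2 * M), ∑ n1 ∈ Ioc N (2 * N), ∑ n2 ∈ Ioc N (2 * N),
          Pl r h (m * n1) * (ind (n1 ≠ n2 ∧ n1 ≡ n2 [MOD r]) * (Bp T c p (m * n1) * Bp T c p (m * n2)))) := by
  classical
  have e1 : ∀ x, Bp T c 1 x = ∑ t ∈ T, |Dc t (c t) (x : ℤ)| := by
    intro x
    unfold Bp
    refine sum_congr rfl fun t _ => ?_
    rw [ind_true (one_dvd t), one_mul]
  have key : ∀ m ∈ Ioc M (2 * M), ∀ n1 ∈ Ioc N (2 * N), ∀ n2 ∈ Ioc N (2 * N),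
      |∑ t1 ∈ T, ∑ t2 ∈ T, (Pl r h (m * n1) * Pl r h (m * n2)) * (κ t1 * κ t2 * (β n1 * β n2) *
        (Dc t1 (c t1) ((m * n1 : ℕ) : ℤ) * Dc t2 (c t2) ((m * n2 : ℕ) : ℤ))) -
       ∑ t1 ∈ T, ∑ t2 ∈ T, (ind (t1.Coprime t2) * ind (n1 ≠ n2 ∧ n1 ≡ n2 [MOD r]) * Pl r h (m * n1)) *
        (κ t1 * κ t2 * (β n1 * β n2) * (Dc t1 (c t1) ((m * n1 : ℕ) : ℤ) * Dc t2 (c t2) ((m * n2 : ℕ) : ℤ)))| ≤
      ℓ ^ 2 * (ind (n1 = n2) * (Pl r h (m * n1) * Bp T c 1 (m * n1) ^ 2) +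
        ∑ p ∈ (Ioc G Q).filter Nat.Prime, Pl r h (m * n1) * (ind (n1 ≠ n2 ∧ n1 ≡ n2 [MOD r]) *
          (Bp T c p (m * n1) * Bp T c p (m * n2)))) := by
    intro m _ n1 hn1 n2 hn2
    rw [← sum_sub_distrib]
    refine (abs_sum_le_sum_abs _ _).trans ?_
    have b1 : ∀ t1 ∈ T, |∑ t2 ∈ T, (Pl r h (m * n1) * Pl r h (m * n2)) * (κ t1 * κ t2 * (β n1 * β n2) *
        (Dc t1 (c t1) ((m * n1 : ℕ) : ℤ) * Dc t2 (c t2) ((m * n2 : ℕ) : ℤ))) -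
       ∑ t2 ∈ T, (ind (t1.Coprime t2) * ind (n1 ≠ n2 ∧ n1 ≡ n2 [MOD r]) * Pl r h (m * n1)) *
        (κ t1 * κ t2 * (β n1 * β n2) * (Dc t1 (c t1) ((m * n1 : ℕ) : ℤ) * Dc t2 (c t2) ((m * n2 : ℕ) : ℤ)))| ≤
        ∑ t2 ∈ T, ℓ ^ 2 * ((Pl r h (m * n1) * (ind (n1 = n2) + ind (n1 ≠ n2 ∧ n1 ≡ n2 [MOD r]) *
        ∑ p ∈ (Ioc G Q).filter Nat.Prime, ind (p ∣ t1) * ind (p ∣ t2))) *
          (|Dc t1 (c t1) ((m * n1 : ℕ) : ℤ)| * |Dc t2 (c t2) ((m * n2 : ℕ) : ℤ)|)) := by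
      intro t1 ht1
      rw [← sum_sub_distrib]
      refine (abs_sum_le_sum_abs _ _).trans (sum_le_sum fun t2 ht2 => ?_)
      rw [← sub_mul, abs_mul]
      have c1 := wt_bd r G Q h hh m n1 n2 t1 t2 (hT t2 ht2).1 (hT t2 ht2).2 (hG t1 ht1)
      have c2 : |κ t1 * κ t2 * (β n1 * β n2) *
          (Dc t1 (c t1) ((m * n1 : ℕ) : ℤ) * Dc t2 (c t2) ((m * n2 : ℕ) : ℤ))| ≤
          ℓ ^ 2 * (|Dc t1 (c t1) ((m * n1 : ℕ) : ℤ)| * |Dc t2 (c t2) ((m * n2 : ℕ) : ℤ)|) := by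
        rw [abs_mul, abs_mul (Dc _ _ _)]
        apply mul_le_mul_of_nonneg_right _ (by positivity)
        rw [abs_mul, abs_mul, abs_mul]
        have d1 : |κ t1| * |κ t2| ≤ 1 := mul_le_one₀ (hκ _) (abs_nonneg _) (hκ _)
        have d2 : |β n1| * |β n2| ≤ ℓ * ℓ := mul_le_mul (hβ _ hn1) (hβ _ hn2) (abs_nonneg _) hℓ
        calc |κ t1| * |κ t2| * (|β n1| * |β n2|) ≤ 1 * (ℓ * ℓ) :=
              mul_le_mul d1 d2 (by positivity) zero_le_one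
          _ = ℓ ^ 2 := by ring
      refine (mul_le_mul c1 c2 (abs_nonneg _) (le_trans (abs_nonneg _) c1)).trans (le_of_eq ?_)
      ring
    refine (sum_le_sum b1).trans (le_of_eq ?_)
    simp only [← mul_sum]
    congr 1
    have e2 : ind (n1 = n2) * (Pl r h (m * n1) * Bp T c 1 (m * n1) ^ 2) =
        ind (n1 = n2) * (Pl r h (m * n1) * (Bp T c 1 (m * n1) * Bp T c 1 (m * n2))) := by
      by_cases e : n1 = n2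
      · subst e; rw [pow_two]
      · rw [ind_false e, zero_mul, zero_mul]
    rw [e2, e1, e1, sum_mul_sum]
    have e3 : ∀ p, Bp T c p (m * n1) * Bp T c p (m * n2) = ∑ t1 ∈ T, ∑ t2 ∈ T,
        (ind (p ∣ t1) * ind (p ∣ t2)) * (|Dc t1 (c t1) ((m * n1 : ℕ) : ℤ)| * |Dc t2 (c t2) ((m * n2 : ℕ) : ℤ)|) := by
      intro p
      unfold Bp
      rw [sum_mul_sum]
      refine sum_congr rfl fun t1 _ => sum_congr rfl fun t2 _ => ?_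
      ring
    simp only [e3]
    have e4 : Pl r h (m * n1) * (ind (n1 ≠ n2 ∧ n1 ≡ n2 [MOD r]) * ∑ p ∈ (Ioc G Q).filter Nat.Prime, 
        ∑ t1 ∈ T, ∑ t2 ∈ T, (ind (p ∣ t1) * ind (p ∣ t2)) *
          (|Dc t1 (c t1) ((m * n1 : ℕ) : ℤ)| * |Dc t2 (c t2) ((m * n2 : ℕ) : ℤ)|)) =
        ∑ t1 ∈ T, ∑ t2 ∈ T, Pl r h (m * n1) * (ind (n1 ≠ n2 ∧ n1 ≡ n2 [MOD r]) *
          ((∑ p ∈ (Ioc G Q).filter Nat.Prime, ind (p ∣ t1) * ind (p ∣ t2)) *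
          (|Dc t1 (c t1) ((m * n1 : ℕ) : ℤ)| * |Dc t2 (c t2) ((m * n2 : ℕ) : ℤ)|))) := by
      simp only [mul_sum, sum_mul]
      rw [sum_comm]
      refine sum_congr rfl fun t1 _ => ?_
      rw [sum_comm]
    rw [e4]
    simp only [mul_sum]
    rw [← sum_add_distrib]
    refine sum_congr rfl fun t1 _ => ?_
    rw [← sum_add_distrib]
    refine sum_congr rfl fun t2 _ => ?_
    simp only [← mul_sum]
    ring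
  rw [SSt_eq, Sof_eq, ← sum_sub_distrib]
  refine (abs_sum_le_sum_abs _ _).trans ?_
  have k1 : ∀ m ∈ Ioc M (2 * M), |∑ n1 ∈ Ioc N (2 * N), ∑ n2 ∈ Ioc N (2 * N),
      ∑ t1 ∈ T, ∑ t2 ∈ T, (Pl r h (m * n1) * Pl r h (m * n2)) * (κ t1 * κ t2 * (β n1 * β n2) *
        (Dc t1 (c t1) ((m * n1 : ℕ) : ℤ) * Dc t2 (c t2) ((m * n2 : ℕ) : ℤ))) -
      ∑ n1 ∈ Ioc N (2 * N), ∑ n2 ∈ Ioc N (2 * N), ∑ t1 ∈ T, ∑ t2 ∈ T,
        (ind (t1.Coprime t2) * ind (n1 ≠ n2 ∧ n1 ≡ n2 [MOD r]) * Pl r h (m * n1)) *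
        (κ t1 * κ t2 * (β n1 * β n2) * (Dc t1 (c t1) ((m * n1 : ℕ) : ℤ) * Dc t2 (c t2) ((m * n2 : ℕ) : ℤ)))| ≤
      ∑ n1 ∈ Ioc N (2 * N), ∑ n2 ∈ Ioc N (2 * N),
        ℓ ^ 2 * (ind (n1 = n2) * (Pl r h (m * n1) * Bp T c 1 (m * n1) ^ 2) +
        ∑ p ∈ (Ioc G Q).filter Nat.Prime, Pl r h (m * n1) * (ind (n1 ≠ n2 ∧ n1 ≡ n2 [MOD r]) *
          (Bp T c p (m * n1) * Bp T c p (m * n2)))) := by
    intro m hm
    rw [← sum_sub_distrib]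
    refine (abs_sum_le_sum_abs _ _).trans (sum_le_sum fun n1 hn1 => ?_)
    rw [← sum_sub_distrib]
    exact (abs_sum_le_sum_abs _ _).trans (sum_le_sum fun n2 hn2 => key m hm n1 hn1 n2 hn2)
  refine (sum_le_sum k1).trans (le_of_eq ?_)
  simp only [← mul_sum, sum_add_distrib]
  congr 1
  congr 1
  · refine sum_congr rfl fun m _ => sum_congr rfl fun n1 hn1 => ?_
    rw [← sum_mul]
    have : ∑ n2 ∈ Ioc N (2 * N), ind (n1 = n2) = 1 := by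
      unfold ind
      rw [sum_eq_single n1]
      · simp
      · intro b _ hb
        rw [if_neg (Ne.symm hb)]
      · intro h; exact absurd hn1 h
    rw [this, one_mul]
  · symm
    rw [sum_comm]
    refine sum_congr rfl fun m _ => ?_
    rw [sum_comm]
    refine sum_congr rfl fun n1 _ => ?_
    simp only [mul_sum]
    exact sum_comm

end Pool.Agent.R503.T
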