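import Mathlib
import Pool.Agent.R503.T.TrB
import Pool.Agent.R503.N.Cut

/-! Counting solutions for two moduli with arbitrary classes (helper503). -/

open Finset

namespace Pool.Agent.R503.T

open Pool.Agent.Y826.Z Pool.Agent.Y826.Z.OB Pool.Agent.R503.N

lemma cop_of_dvd {a : ℕ} {m n c : ℤ} (hc : IsCoprime c (a : ℤ)) (h : (a : ℤ) ∣ m * n - c) :
    IsCoprime m (a : ℤ) ∧ IsCoprime n (a : ℤ) := by
  obtain ⟨k, hk⟩ := h
  have e : c = m * n + (a : ℤ) * (-k) := by linarith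
  rw [e] at hc
  have h1 := IsCoprime.of_add_mul_left_left hc
  exact ⟨IsCoprime.of_mul_left_left h1, IsCoprime.of_mul_left_right h1⟩

lemma dvd_diff {a : ℕ} {m m' n c : ℤ} (hc : IsCoprime c (a : ℤ)) (h : (a : ℤ) ∣ m * n - c)
    (h' : (a : ℤ) ∣ m' * n - c) : (a : ℤ) ∣ m - m' := by
  have h1 := (cop_of_dvd hc h).2
  have h2 := dvd_sub h h'
  have e : m * n - c - (m' * n - c) = n * (m - m') := by ring
  rw [e] at h2
  exact h1.symm.dvd_of_dvd_mul_left h2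

/-- the sum over `m` -/
lemma cnt_m (M r w1 w2 : ℕ) (h c1 c2 : ℤ) (n1 n2 : ℕ) (hr : 0 < r) (hw1 : 0 < w1) (hw2 : 0 < w2)
    (hh : IsCoprime h (r : ℤ)) (hc1 : IsCoprime c1 (w1 : ℤ)) (hc2 : IsCoprime c2 (w2 : ℤ))
    (hr1 : r.Coprime w1) (hr2 : r.Coprime w2) :
    ∑ m ∈ Ioc M (2 * M), Pl r h (m * n1) * (ind ((w1 : ℤ) ∣ ((m * n1 : ℕ) : ℤ) - c1) *
      ind ((w2 : ℤ) ∣ ((m * n2 : ℕ) : ℤ) - c2)) ≤
      ind (((Nat.gcd w1 w2 : ℕ) : ℤ) ∣ c2 * n1 - c1 * n2) * ((M : ℝ) / ((r * Nat.lcm w1 w2 : ℕ) : ℝ) + 1) := by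
  classical
  set F := (Ioc M (2 * M)).filter (fun m : ℕ => (r : ℤ) ∣ (m : ℤ) * n1 - h ∧ (w1 : ℤ) ∣ (m : ℤ) * n1 - c1 ∧
    (w2 : ℤ) ∣ (m : ℤ) * n2 - c2) with hF
  have e : ∑ m ∈ Ioc M (2 * M), Pl r h (m * n1) * (ind ((w1 : ℤ) ∣ ((m * n1 : ℕ) : ℤ) - c1) *
      ind ((w2 : ℤ) ∣ ((m * n2 : ℕ) : ℤ) - c2)) = (F.card : ℝ) := by
    rw [hF, ← sum_boole]
    refine sum_congr rfl fun m _ => ?_
    unfold Pl ind
    push_cast
    by_cases a1 : (r : ℤ) ∣ (m : ℤ) * n1 - h <;> by_cases a2 : (w1 : ℤ) ∣ (m : ℤ) * n1 - c1 <;>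
        by_cases a3 : (w2 : ℤ) ∣ (m : ℤ) * n2 - c2 <;> simp [a1, a2, a3]
  rw [e]
  have hmem : ∀ m ∈ F, (r : ℤ) ∣ (m : ℤ) * n1 - h ∧ (w1 : ℤ) ∣ (m : ℤ) * n1 - c1 ∧
    (w2 : ℤ) ∣ (m : ℤ) * n2 - c2 := fun m hm => (mem_filter.1 hm).2
  by_cases hg : ((Nat.gcd w1 w2 : ℕ) : ℤ) ∣ c2 * n1 - c1 * n2
  · rw [ind_true hg, one_mul]
    have hq : 0 < r * Nat.lcm w1 w2 := Nat.mul_pos hr (Nat.lcm_pos hw1 hw2)
    have h3 := card_cls' M (2 * M) (r * Nat.lcm w1 w2) hq F (filter_subset _ _) (by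
      intro x hx y hy
      obtain ⟨a1, a2, a3⟩ := hmem x hx
      obtain ⟨b1, b2, b3⟩ := hmem y hy
      have k1 := dvd_diff hh a1 b1
      have k2 := dvd_diff hc1 a2 b2
      have k3 := dvd_diff hc2 a3 b3
      have k4 : ((Nat.lcm w1 w2 : ℕ) : ℤ) ∣ (x : ℤ) - y := by
        rw [Int.natCast_dvd] at k2 k3 ⊢
        exact Nat.lcm_dvd k2 k3
      have k5 : IsCoprime (r : ℤ) ((Nat.lcm w1 w2 : ℕ) : ℤ) := by
        rw [Nat.isCoprime_iff_coprime]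
        exact Nat.Coprime.coprime_dvd_right (Nat.lcm_dvd_mul _ _) (Nat.Coprime.mul_right hr1 hr2)
      push_cast
      exact k5.mul_dvd k1 k4)
    have e2 : 2 * M - M = M := by omega
    rw [e2] at h3
    exact h3
  · rw [ind_false hg, zero_mul]
    have : F = ∅ := by
      rw [← not_nonempty_iff_eq_empty]
      rintro ⟨m, hm⟩
      apply hg
      obtain ⟨a1, a2, a3⟩ := hmem m hm
      have d1 : ((Nat.gcd w1 w2 : ℕ) : ℤ) ∣ (w1 : ℤ) := Int.natCast_dvd_natCast.2 (Nat.gcd_dvd_left _ _)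
      have d2 : ((Nat.gcd w1 w2 : ℕ) : ℤ) ∣ (w2 : ℤ) := Int.natCast_dvd_natCast.2 (Nat.gcd_dvd_right _ _)
      have k1 := (cop_of_dvd hc1 a2).1
      have k2 : IsCoprime (m : ℤ) ((Nat.gcd w1 w2 : ℕ) : ℤ) := k1.of_isCoprime_of_dvd_right d1
      have k3 : ((Nat.gcd w1 w2 : ℕ) : ℤ) ∣ (m : ℤ) * (c2 * n1 - c1 * n2) := by
        have e3 : (m : ℤ) * (c2 * n1 - c1 * n2) = c2 * ((m : ℤ) * n1 - c1) - c1 * ((m : ℤ) * n2 - c2) := by ring
        rw [e3]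
        exact dvd_sub (Dvd.dvd.mul_left (d1.trans a2) _) (Dvd.dvd.mul_left (d2.trans a3) _)
      exact k2.symm.dvd_of_dvd_mul_left k3
    rw [this, card_empty, Nat.cast_zero]

/-- the sum over `n1`, `n2` -/
lemma cnt_n (N r g : ℕ) (c1 c2 : ℤ) (hr : 0 < r) (hg : 0 < g) (hgN : g ≤ N) (hc1 : IsCoprime c1 (g : ℤ))
    (hrg : r.Coprime g) :
    ∑ n1 ∈ Ioc N (2 * N), ∑ n2 ∈ Ioc N (2 * N), ind (n1 ≠ n2 ∧ n1 ≡ n2 [MOD r]) *
      ind ((g : ℤ) ∣ c2 * n1 - c1 * n2) ≤ 4 * (N : ℝ) ^ 2 / (r * g) := by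
  classical
  set E := ((Ioc N (2 * N)) ×ˢ (Ioc N (2 * N))).filter (fun x : ℕ × ℕ => (x.1 ≠ x.2 ∧ x.1 ≡ x.2 [MOD r]) ∧
    (g : ℤ) ∣ c2 * x.1 - c1 * x.2) with hE
  have e : ∑ n1 ∈ Ioc N (2 * N), ∑ n2 ∈ Ioc N (2 * N), ind (n1 ≠ n2 ∧ n1 ≡ n2 [MOD r]) *
      ind ((g : ℤ) ∣ c2 * n1 - c1 * n2) = (E.card : ℝ) := by
    rw [hE, ← sum_boole, sum_product]
    refine sum_congr rfl fun n1 _ => sum_congr rfl fun n2 _ => ?_
    rw [ind_mul]
    unfold ind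
    congr
  rw [e]
  set g2 : ℕ := Nat.gcd g (c2 - c1).natAbs with hg2
  have hg20 : 0 < g2 := Nat.gcd_pos_of_pos_left _ hg
  have hg2g : g2 ∣ g := Nat.gcd_dvd_left _ _
  obtain ⟨g1, hg1⟩ := hg2g
  have hg10 : 0 < g1 := Nat.pos_of_ne_zero (by rintro rfl; rw [mul_zero] at hg1; omega)
  have hg2c : (g2 : ℤ) ∣ c2 - c1 := by
    rw [Int.natCast_dvd]
    exact Nat.gcd_dvd_right _ _
  obtain ⟨c', hc'⟩ := hg2c
  have hcop : IsCoprime c' (g1 : ℤ) := by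
    have h1 := Nat.coprime_div_gcd_div_gcd (m := g) (n := (c2 - c1).natAbs) (by rw [← hg2]; exact hg20)
    rw [← hg2] at h1
    have h2 : g / g2 = g1 := by rw [hg1]; exact Nat.mul_div_cancel_left g1 hg20
    have h3 : (c2 - c1).natAbs / g2 = c'.natAbs := by
      rw [hc', Int.natAbs_mul, Int.natAbs_natCast]
      exact Nat.mul_div_cancel_left _ hg20
    rw [h2, h3] at h1
    rw [Int.isCoprime_iff_gcd_eq_one]
    unfold Int.gcd
    rw [Int.natAbs_natCast]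
    exact h1.symm
  have hg1g : g1 ∣ g := ⟨g2, by rw [hg1]; ring⟩
  have hc12 : IsCoprime c1 (g2 : ℤ) := hc1.of_isCoprime_of_dvd_right (Int.natCast_dvd_natCast.2 ⟨g1, hg1⟩)
  have hrg2 : r.Coprime g2 := hrg.coprime_dvd_right ⟨g1, hg1⟩
  have hmem : ∀ x ∈ E, (N < x.1 ∧ x.1 ≤ 2 * N) ∧ (N < x.2 ∧ x.2 ≤ 2 * N) ∧ x.1 ≠ x.2 ∧ x.1 ≡ x.2 [MOD r] ∧
    (g : ℤ) ∣ c2 * x.1 - c1 * x.2 := by
    intro x hx
    rw [hE, mem_filter, mem_product, mem_Ioc, mem_Ioc] at hx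
    exact ⟨hx.1.1, hx.1.2, hx.2.1.1, hx.2.1.2, hx.2.2⟩
  -- the differences
  set φ : ℕ × ℕ → ℤ := fun x => (x.2 : ℤ) - x.1 with hφ
  set q : ℕ := r * g2 with hq
  have hq0 : 0 < q := Nat.mul_pos hr hg20
  have hdiff : ∀ x ∈ E, (q : ℤ) ∣ φ x := by
    intro x hx
    obtain ⟨a1, a2, a3, a4, a5⟩ := hmem x hx
    have h1 : (r : ℤ) ∣ φ x := Nat.modEq_iff_dvd.1 a4
    have h2 : (g2 : ℤ) ∣ c1 * φ x := by
      have e2 : c1 * φ x = (c2 - c1) * x.1 - (c2 * x.1 - c1 * x.2) := by rw [hφ]; ring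
      rw [e2]
      apply dvd_sub
      · exact Dvd.dvd.mul_right ⟨c', hc'⟩ _
      · exact (Int.natCast_dvd_natCast.2 ⟨g1, hg1⟩ : (g2 : ℤ) ∣ (g : ℤ)).trans a5
    have h3 : (g2 : ℤ) ∣ φ x := hc12.symm.dvd_of_dvd_mul_left h2
    rw [hq]
    push_cast
    exact (Nat.isCoprime_iff_coprime.2 hrg2).mul_dvd h1 h3
  set DS : Finset ℤ := ((Icc 1 (N / q)).image (fun k : ℕ => (q : ℤ) * k)) ∪
    ((Icc 1 (N / q)).image (fun k : ℕ => -((q : ℤ) * k))) with hDS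
  have hmaps : ∀ x ∈ E, φ x ∈ DS := by
    intro x hx
    obtain ⟨a1, a2, a3, a4, a5⟩ := hmem x hx
    obtain ⟨k, hk⟩ := hdiff x hx
    have hk0 : k ≠ 0 := by
      rintro rfl
      rw [mul_zero, hφ] at hk
      simp only at hk
      apply a3
      omega
    have hφa : |φ x| ≤ N := by
      rw [hφ, abs_le]
      simp only
      constructor <;> omega
    have hqz : (0 : ℤ) < q := by exact_mod_cast hq0
    have hkN : k.natAbs ≤ N / q := by
      rw [Nat.le_div_iff_mul_le hq0]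
      have h1 : |φ x| = ((q * k.natAbs : ℕ) : ℤ) := by
        rw [hk, abs_mul, abs_of_pos hqz, Int.abs_eq_natAbs]
        push_cast
        ring
      rw [h1] at hφa
      have h2 : q * k.natAbs ≤ N := by exact_mod_cast hφa
      rw [mul_comm]; exact h2
    rw [hDS, mem_union, mem_image, mem_image]
    rcases lt_or_gt_of_ne hk0 with h | h
    · right
      refine ⟨k.natAbs, ?_, ?_⟩
      · rw [mem_Icc]
        refine ⟨by omega, hkN⟩
      · rw [hk]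
        have : ((k.natAbs : ℕ) : ℤ) = -k := by omega
        rw [this]
        ring
    · left
      refine ⟨k.natAbs, ?_, ?_⟩
      · rw [mem_Icc]
        refine ⟨by omega, hkN⟩
      · rw [hk]
        have : ((k.natAbs : ℕ) : ℤ) = k := by omega
        rw [this]
  have hcardD : (DS.card : ℝ) ≤ 2 * ((N : ℝ) / q) := by
    have h1 : DS.card ≤ N / q + N / q := by
      rw [hDS]
      refine (card_union_le _ _).trans ?_
      apply add_le_add
      · exact card_image_le.trans (by rw [Nat.card_Icc, Nat.add_sub_cancel])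
      · exact card_image_le.trans (by rw [Nat.card_Icc, Nat.add_sub_cancel])
    have h2 : (DS.card : ℝ) ≤ ((N / q : ℕ) : ℝ) + ((N / q : ℕ) : ℝ) := by exact_mod_cast h1
    have h3 : ((N / q : ℕ) : ℝ) ≤ (N : ℝ) / q := Nat.cast_div_le
    linarith
  have hfib : ∀ d ∈ DS, ((E.filter (fun x => φ x = d)).card : ℝ) ≤ (N : ℝ) / g1 + 1 := by
    intro d _
    have h1 : ((E.filter (fun x => φ x = d)).card : ℝ) =
        (((E.filter (fun x => φ x = d)).image (fun x => x.1)).card : ℝ) := by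
      rw [card_image_of_injOn]
      intro x hx y hy hxy
      rw [mem_coe, mem_filter] at hx hy
      simp only at hxy
      have h2 := hx.2.trans hy.2.symm
      rw [hφ] at h2
      simp only at h2
      apply Prod.ext hxy
      omega
    rw [h1]
    have h4 := card_cls' N (2 * N) g1 hg10 ((E.filter (fun x => φ x = d)).image (fun x => x.1)) (by
      intro n hn
      rw [mem_image] at hn
      obtain ⟨x, hx, rfl⟩ := hn
      rw [mem_filter] at hx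
      obtain ⟨a1, -⟩ := hmem x hx.1
      rw [mem_Ioc]
      exact a1) (by
      intro n hn n' hn'
      rw [mem_image] at hn hn'
      obtain ⟨x, hx, rfl⟩ := hn
      obtain ⟨y, hy, rfl⟩ := hn'
      rw [mem_filter] at hx hy
      obtain ⟨-, -, -, -, a5⟩ := hmem x hx.1
      obtain ⟨-, -, -, -, b5⟩ := hmem y hy.1
      have e3 : (c2 * x.1 - c1 * x.2) - (c2 * y.1 - c1 * y.2) =
          (c2 - c1) * ((x.1 : ℤ) - y.1) - c1 * (φ x - φ y) := by rw [hφ]; ring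
      have h5 := dvd_sub a5 b5
      rw [e3, hx.2, hy.2, sub_self, mul_zero, sub_zero, hc', hg1] at h5
      push_cast at h5
      have h6 : (g2 : ℤ) ≠ 0 := by exact_mod_cast hg20.ne'
      rw [mul_assoc] at h5
      have h7 := (mul_dvd_mul_iff_left h6).1 h5
      exact hcop.symm.dvd_of_dvd_mul_left h7)
    have e2 : 2 * N - N = N := by omega
    rw [e2] at h4
    exact h4
  have hrr : (0 : ℝ) < r := by exact_mod_cast hr
  have hg1r : (0 : ℝ) < g1 := by exact_mod_cast hg10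
  have hg2r : (0 : ℝ) < g2 := by exact_mod_cast hg20
  have hfin : (E.card : ℝ) ≤ (2 * ((N : ℝ) / q)) * (2 * ((N : ℝ) / g1)) := by
    rw [card_eq_sum_card_fiberwise hmaps]
    push_cast
    refine (sum_le_sum hfib).trans ?_
    rw [sum_const, nsmul_eq_mul]
    have h1 : 1 ≤ (N : ℝ) / g1 := by
      rw [one_le_div hg1r]
      exact_mod_cast (Nat.le_of_dvd hg hg1g).trans hgN
    apply mul_le_mul hcardD (by linarith) (by positivity) (by positivity)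
  refine hfin.trans (le_of_eq ?_)
  rw [hg1, hq]
  push_cast
  field_simp
  ring

end Pool.Agent.R503.T
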