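import Mathlib
import Pool.Agent.R503.T.Cnt

/-! The trivial part for arbitrary classes: estimates (helper503). -/

open Finset

namespace Pool.Agent.R503.T

open Pool.Agent.Y826.Z Pool.Agent.Y826.Z.OB Pool.Agent.R503.N

/-- equal `n` -/
lemma diag_le {r M N Q : ℕ} {ℓ : ℝ} (P : Par r M N Q ℓ) (h : ℤ) (c : ℕ → ℤ) (T : Finset ℕ)
    (hT : ∀ t ∈ T, 0 < t ∧ t ≤ Q) (hcop : ∀ t ∈ T, r.Coprime t) :
    ∑ m ∈ Ioc M (2 * M), ∑ n ∈ Ioc N (2 * N), Pl r h (m * n) * Bp T c 1 (m * n) ^ 2 ≤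
      20 * ℓ ^ 5 * (M * N / r) := by
  classical
  have hr : (0 : ℝ) < r := by exact_mod_cast P.r0
  have hℓ : 0 < ℓ := lt_of_lt_of_le one_pos P.l1
  have hMN : (0 : ℝ) ≤ M * N := by positivity
  set b := ∑ t ∈ T, (1 / (Nat.totient t : ℝ)) with hb
  have hb0 : 0 ≤ b := sum_nonneg fun _ _ => by positivity
  have hS : ∀ t ∈ T, 0 < t ∧ t ≤ Q ∧ 1 ∣ t := fun t ht => ⟨(hT t ht).1, (hT t ht).2, one_dvd _⟩
  have hbl : b ≤ ℓ ^ 2 := by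
    have := sum_phi T 1 Q ℓ one_pos hS P.t1 P.lQ
    rw [Nat.cast_one, div_one] at this
    exact this
  have hfil : T.filter (fun t => 1 ∣ t) = T := by
    apply filter_true_of_mem
    intro t _; exact one_dvd t
  have h1 : ∀ x, Bp T c 1 x ^ 2 ≤ 2 * Act T c x ^ 2 + 2 * b ^ 2 := by
    intro x
    have h2 := Bp_le T c 1 x
    rw [hfil, ← hb] at h2
    have h3 := Bp_nonneg T c 1 x
    calc Bp T c 1 x ^ 2 ≤ (Act T c x + b) ^ 2 := pow_le_pow_left₀ h3 h2 2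
      _ ≤ _ := by nlinarith [sq_nonneg (Act T c x - b)]
  have h2 : ∑ m ∈ Ioc M (2 * M), ∑ n ∈ Ioc N (2 * N), Pl r h (m * n) * Bp T c 1 (m * n) ^ 2 ≤
      2 * ∑ m ∈ Ioc M (2 * M), ∑ n ∈ Ioc N (2 * N), Pl r h (m * n) * Act T c (m * n) ^ 2 +
      2 * b ^ 2 * ∑ m ∈ Ioc M (2 * M), ∑ n ∈ Ioc N (2 * N), Pl r h (m * n) := by
    simp only [mul_sum, ← sum_add_distrib]
    refine sum_le_sum fun m _ => sum_le_sum fun n _ => ?_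
    calc Pl r h (m * n) * Bp T c 1 (m * n) ^ 2
        ≤ Pl r h (m * n) * (2 * Act T c (m * n) ^ 2 + 2 * b ^ 2) :=
          mul_le_mul_of_nonneg_left (h1 _) (Pl_nonneg _ _ _)
      _ = _ := by ring
  refine h2.trans ?_
  have h3 := Z2_le P h c T 1 one_pos hS hcop
  have h4 := Z0_le P h
  have h00 : 0 ≤ ∑ m ∈ Ioc M (2 * M), ∑ n ∈ Ioc N (2 * N), Pl r h (m * n) :=
    sum_nonneg fun _ _ => sum_nonneg fun _ _ => Pl_nonneg _ _ _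
  simp only [Nat.cast_one, mul_one] at h3
  have h5 : ℓ ^ 3 ≤ ℓ ^ 5 := pow_le_pow_right₀ P.l1 (by norm_num)
  calc _ ≤ 2 * (5 * ℓ ^ 3 * (M * N / r)) + 2 * (ℓ ^ 2) ^ 2 * (5 * ℓ * (M * N / r)) := by gcongr
    _ = 10 * ℓ ^ 3 * (M * N / r) + 10 * ℓ ^ 5 * (M * N / r) := by ring
    _ ≤ 10 * ℓ ^ 5 * (M * N / r) + 10 * ℓ ^ 5 * (M * N / r) := by gcongr
    _ = _ := by ring

/-- two moduli with a common factor -/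
lemma aa_le {r M N Q : ℕ} {ℓ : ℝ} (P : Par r M N Q ℓ) (h : ℤ) (c : ℕ → ℤ) (hh : IsCoprime h (r : ℤ))
    (S : Finset ℕ) (p : ℕ) (hp : 0 < p) (hS : ∀ t ∈ S, 0 < t ∧ t ≤ Q ∧ p ∣ t) (hcop : ∀ t ∈ S, r.Coprime t)
    (hc : ∀ t ∈ S, IsCoprime (c t) (t : ℤ)) (hQN : Q ≤ N) :
    ∑ m ∈ Ioc M (2 * M), ∑ n1 ∈ Ioc N (2 * N), ∑ n2 ∈ Ioc N (2 * N),
          Pl r h (m * n1) * (ind (n1 ≠ n2 ∧ n1 ≡ n2 [MOD r]) * (Act S c (m * n1) * Act S c (m * n2))) ≤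
      4 * ℓ ^ 2 * (M * (N : ℝ) ^ 2 / (r : ℝ) ^ 2) * ((p : ℝ) ^ 2)⁻¹ +
        4 * (N : ℝ) ^ 2 * (Q : ℝ) ^ 2 / (r * (p : ℝ) ^ 3) := by
  classical
  have hr : (0 : ℝ) < r := by exact_mod_cast P.r0
  have hpp : (0 : ℝ) < p := by exact_mod_cast hp
  have hℓ : 0 < ℓ := lt_of_lt_of_le one_pos P.l1
  -- exchange of the sums
  have e1 : ∑ m ∈ Ioc M (2 * M), ∑ n1 ∈ Ioc N (2 * N), ∑ n2 ∈ Ioc N (2 * N),
          Pl r h (m * n1) * (ind (n1 ≠ n2 ∧ n1 ≡ n2 [MOD r]) * (Act S c (m * n1) * Act S c (m * n2))) =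
      ∑ w1 ∈ S, ∑ w2 ∈ S, ∑ n1 ∈ Ioc N (2 * N), ∑ n2 ∈ Ioc N (2 * N), ind (n1 ≠ n2 ∧ n1 ≡ n2 [MOD r]) *
        ∑ m ∈ Ioc M (2 * M), Pl r h (m * n1) * (ind ((w1 : ℤ) ∣ ((m * n1 : ℕ) : ℤ) - c w1) *
      ind ((w2 : ℤ) ∣ ((m * n2 : ℕ) : ℤ) - c w2)) := by
    have h1 : ∀ m ∈ Ioc M (2 * M), ∑ n1 ∈ Ioc N (2 * N), ∑ n2 ∈ Ioc N (2 * N),
          Pl r h (m * n1) * (ind (n1 ≠ n2 ∧ n1 ≡ n2 [MOD r]) * (Act S c (m * n1) * Act S c (m * n2))) =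
        ∑ w1 ∈ S, ∑ w2 ∈ S, ∑ n1 ∈ Ioc N (2 * N), ∑ n2 ∈ Ioc N (2 * N), ind (n1 ≠ n2 ∧ n1 ≡ n2 [MOD r]) *
         (Pl r h (m * n1) * (ind ((w1 : ℤ) ∣ ((m * n1 : ℕ) : ℤ) - c w1) *
      ind ((w2 : ℤ) ∣ ((m * n2 : ℕ) : ℤ) - c w2))) := by
      intro m _
      rw [sum4_comm]
      refine sum_congr rfl fun n1 _ => sum_congr rfl fun n2 _ => ?_
      unfold Act
      rw [sum_mul_sum]
      simp only [mul_sum]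
      refine sum_congr rfl fun w1 _ => sum_congr rfl fun w2 _ => ?_
      ring
    rw [sum_congr rfl h1, sum_comm]
    refine sum_congr rfl fun w1 _ => ?_
    rw [sum_comm]
    refine sum_congr rfl fun w2 _ => ?_
    rw [sum_comm]
    refine sum_congr rfl fun n1 _ => ?_
    rw [sum_comm]
    refine sum_congr rfl fun n2 _ => ?_
    rw [mul_sum]
  rw [e1]
  have h2 : ∀ w1 ∈ S, ∀ w2 ∈ S, ∑ n1 ∈ Ioc N (2 * N), ∑ n2 ∈ Ioc N (2 * N), ind (n1 ≠ n2 ∧ n1 ≡ n2 [MOD r]) *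
        ∑ m ∈ Ioc M (2 * M), Pl r h (m * n1) * (ind ((w1 : ℤ) ∣ ((m * n1 : ℕ) : ℤ) - c w1) *
      ind ((w2 : ℤ) ∣ ((m * n2 : ℕ) : ℤ) - c w2)) ≤
      4 * (M * (N : ℝ) ^ 2 / (r : ℝ) ^ 2) * ((1 / (w1 : ℝ)) * (1 / (w2 : ℝ))) + 4 * (N : ℝ) ^ 2 / (r * p) := by
    intro w1 hw1 w2 hw2
    obtain ⟨a1, a2, a3⟩ := hS w1 hw1
    obtain ⟨b1, b2, b3⟩ := hS w2 hw2
    have hw1r : (0 : ℝ) < w1 := by exact_mod_cast a1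
    have hw2r : (0 : ℝ) < w2 := by exact_mod_cast b1
    have hg0 : 0 < Nat.gcd w1 w2 := Nat.gcd_pos_of_pos_left _ a1
    have hL0 : 0 < Nat.lcm w1 w2 := Nat.lcm_pos a1 b1
    have hgr : (0 : ℝ) < Nat.gcd w1 w2 := by exact_mod_cast hg0
    have hLr : (0 : ℝ) < Nat.lcm w1 w2 := by exact_mod_cast hL0
    have hgN : Nat.gcd w1 w2 ≤ N := (Nat.gcd_le_left _ a1).trans (a2.trans hQN)
    have hgL : (Nat.gcd w1 w2 : ℝ) * (Nat.lcm w1 w2 : ℝ) = w1 * w2 := by exact_mod_cast Nat.gcd_mul_lcm w1 w2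
    have hgp : (p : ℝ) ≤ Nat.gcd w1 w2 := by exact_mod_cast Nat.le_of_dvd hg0 (Nat.dvd_gcd a3 b3)
    have k1 : ∑ n1 ∈ Ioc N (2 * N), ∑ n2 ∈ Ioc N (2 * N), ind (n1 ≠ n2 ∧ n1 ≡ n2 [MOD r]) *
        ∑ m ∈ Ioc M (2 * M), Pl r h (m * n1) * (ind ((w1 : ℤ) ∣ ((m * n1 : ℕ) : ℤ) - c w1) *
      ind ((w2 : ℤ) ∣ ((m * n2 : ℕ) : ℤ) - c w2)) ≤
      (∑ n1 ∈ Ioc N (2 * N), ∑ n2 ∈ Ioc N (2 * N), ind (n1 ≠ n2 ∧ n1 ≡ n2 [MOD r]) *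
        ind (((Nat.gcd w1 w2 : ℕ) : ℤ) ∣ c w2 * n1 - c w1 * n2)) *
        ((M : ℝ) / ((r * Nat.lcm w1 w2 : ℕ) : ℝ) + 1) := by
      rw [sum_mul]
      refine sum_le_sum fun n1 _ => ?_
      rw [sum_mul]
      refine sum_le_sum fun n2 _ => ?_
      rw [mul_assoc]
      apply mul_le_mul_of_nonneg_left _ (ind_nonneg _)
      exact cnt_m M r w1 w2 h (c w1) (c w2) n1 n2 P.r0 a1 b1 hh (hc w1 hw1) (hc w2 hw2) (hcop w1 hw1) (hcop w2 hw2)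
    refine k1.trans ?_
    have k2 := cnt_n N r (Nat.gcd w1 w2) (c w1) (c w2) P.r0 hg0 hgN
      ((hc w1 hw1).of_isCoprime_of_dvd_right (Int.natCast_dvd_natCast.2 (Nat.gcd_dvd_left _ _)))
      ((hcop w1 hw1).coprime_dvd_right (Nat.gcd_dvd_left _ _))
    calc _ ≤ (4 * (N : ℝ) ^ 2 / (r * (Nat.gcd w1 w2 : ℝ))) * ((M : ℝ) / ((r * Nat.lcm w1 w2 : ℕ) : ℝ) + 1) :=
          mul_le_mul_of_nonneg_right k2 (by positivity)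
      _ = 4 * (M * (N : ℝ) ^ 2 / (r : ℝ) ^ 2) * (1 / ((Nat.gcd w1 w2 : ℝ) * (Nat.lcm w1 w2 : ℝ))) +
          4 * (N : ℝ) ^ 2 / (r * (Nat.gcd w1 w2 : ℝ)) := by
          push_cast
          field_simp
      _ = 4 * (M * (N : ℝ) ^ 2 / (r : ℝ) ^ 2) * ((1 / (w1 : ℝ)) * (1 / (w2 : ℝ))) +
          4 * (N : ℝ) ^ 2 / (r * (Nat.gcd w1 w2 : ℝ)) := by
          rw [hgL, one_div_mul_one_div]
      _ ≤ _ := by gcongr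
  refine (sum_le_sum fun w1 hw1 => sum_le_sum fun w2 hw2 => h2 w1 hw1 w2 hw2).trans ?_
  have e3 : ∑ w1 ∈ S, ∑ w2 ∈ S, (4 * (M * (N : ℝ) ^ 2 / (r : ℝ) ^ 2) * ((1 / (w1 : ℝ)) * (1 / (w2 : ℝ))) +
      4 * (N : ℝ) ^ 2 / (r * p)) = 4 * (M * (N : ℝ) ^ 2 / (r : ℝ) ^ 2) * (∑ w ∈ S, 1 / (w : ℝ)) ^ 2 +
      (S.card : ℝ) ^ 2 * (4 * (N : ℝ) ^ 2 / (r * p)) := by
    rw [pow_two (∑ w ∈ S, 1 / (w : ℝ)), sum_mul_sum]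
    simp only [sum_add_distrib, mul_sum, sum_const, nsmul_eq_mul]
    ring
  rw [e3]
  have k3 := sum_mult p Q hp S hS
  have k4 := card_mult p Q hp S hS
  have k5 : ∑ w ∈ S, 1 / (w : ℝ) ≤ ℓ / p := k3.trans (div_le_div_of_nonneg_right P.lQ hpp.le)
  have k6 : 0 ≤ ∑ w ∈ S, 1 / (w : ℝ) := sum_nonneg fun w _ => by positivity
  calc _ ≤ 4 * (M * (N : ℝ) ^ 2 / (r : ℝ) ^ 2) * (ℓ / p) ^ 2 + ((Q : ℝ) / p) ^ 2 * (4 * (N : ℝ) ^ 2 / (r * p)) := by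
        gcongr
    _ = _ := by
        field_simp

/-- moduli with a common prime factor -/
lemma pairs_le {r M N Q : ℕ} {ℓ : ℝ} (P : Par r M N Q ℓ) (h : ℤ) (c : ℕ → ℤ) (hh : IsCoprime h (r : ℤ))
    (T : Finset ℕ) (hT : ∀ t ∈ T, 0 < t ∧ t ≤ Q) (hcop : ∀ t ∈ T, r.Coprime t)
    (hc : ∀ t ∈ T, IsCoprime (c t) (t : ℤ)) (hQN : Q ≤ N) (p : ℕ) (hp : p.Prime) :
    ∑ m ∈ Ioc M (2 * M), ∑ n1 ∈ Ioc N (2 * N), ∑ n2 ∈ Ioc N (2 * N),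
          Pl r h (m * n1) * (ind (n1 ≠ n2 ∧ n1 ≡ n2 [MOD r]) * (Bp T c p (m * n1) * Bp T c p (m * n2))) ≤
      19 * ℓ ^ 5 * (M * (N : ℝ) ^ 2 / (r : ℝ) ^ 2) * ((p : ℝ) ^ 2)⁻¹ +
        4 * (N : ℝ) ^ 2 * (Q : ℝ) ^ 2 / (r * (p : ℝ) ^ 3) := by
  classical
  have hr : (0 : ℝ) < r := by exact_mod_cast P.r0
  have hpp : (0 : ℝ) < p := by exact_mod_cast hp.pos
  have hℓ : 0 < ℓ := lt_of_lt_of_le one_pos P.l1
  have hMN : (0 : ℝ) ≤ M * N := by positivity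
  have hN0 : (0 : ℝ) ≤ N := Nat.cast_nonneg N
  set S := T.filter (fun t => p ∣ t) with hSdef
  set b := ∑ t ∈ S, (1 / (Nat.totient t : ℝ)) with hb
  have hb0 : 0 ≤ b := sum_nonneg fun _ _ => by positivity
  have hS : ∀ t ∈ S, 0 < t ∧ t ≤ Q ∧ p ∣ t := by
    intro t ht
    rw [hSdef, mem_filter] at ht
    exact ⟨(hT t ht.1).1, (hT t ht.1).2, ht.2⟩
  have hScop : ∀ t ∈ S, r.Coprime t := by
    intro t ht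
    rw [hSdef, mem_filter] at ht
    exact hcop t ht.1
  have hSc : ∀ t ∈ S, IsCoprime (c t) (t : ℤ) := by
    intro t ht
    rw [hSdef, mem_filter] at ht
    exact hc t ht.1
  have hbl : b ≤ ℓ ^ 2 / p := sum_phi S p Q ℓ hp.pos hS P.t1 P.lQ
  set A := Act S c with hA
  have hA0 : ∀ x, 0 ≤ A x := fun x => Act_nonneg S _ x
  -- pointwise bound
  have hpt : ∀ m n1 n2 : ℕ, Pl r h (m * n1) * (ind (n1 ≠ n2 ∧ n1 ≡ n2 [MOD r]) *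
      (Bp T c p (m * n1) * Bp T c p (m * n2))) ≤
      Pl r h (m * n1) * (ind (n1 ≠ n2 ∧ n1 ≡ n2 [MOD r]) * (A (m * n1) * A (m * n2))) +
      (b * (Pl r h (m * n1) * (ind (n1 ≠ n2 ∧ n1 ≡ n2 [MOD r]) * A (m * n1))) +
       b * (Pl r h (m * n1) * (ind (n1 ≠ n2 ∧ n1 ≡ n2 [MOD r]) * A (m * n2))) +
       b ^ 2 * (Pl r h (m * n1) * (ind (n1 ≠ n2 ∧ n1 ≡ n2 [MOD r]) * 1))) := by
    intro m n1 n2
    have a1 := Bp_le T c p (m * n1)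
    have a2 := Bp_le T c p (m * n2)
    rw [← hSdef, ← hb, ← hA] at a1 a2
    have a3 : Bp T c p (m * n1) * Bp T c p (m * n2) ≤ (A (m * n1) + b) * (A (m * n2) + b) :=
      mul_le_mul a1 a2 (Bp_nonneg _ _ _ _) (by have := hA0 (m * n1); positivity)
    have hP0 := Pl_nonneg r h (m * n1)
    have hi0 := ind_nonneg (n1 ≠ n2 ∧ n1 ≡ n2 [MOD r])
    calc Pl r h (m * n1) * (ind (n1 ≠ n2 ∧ n1 ≡ n2 [MOD r]) * (Bp T c p (m * n1) * Bp T c p (m * n2)))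
        ≤ Pl r h (m * n1) * (ind (n1 ≠ n2 ∧ n1 ≡ n2 [MOD r]) * ((A (m * n1) + b) * (A (m * n2) + b))) := by
          gcongr
      _ = _ := by ring
  -- symmetry
  have hsymE : ∀ q a b' : ℕ, ind (a ≠ b' ∧ a ≡ b' [MOD q]) = ind (b' ≠ a ∧ b' ≡ a [MOD q]) := by
    intro q a b'
    congr 1
    rw [eq_iff_iff]
    constructor
    · rintro ⟨h1, h2⟩; exact ⟨h1.symm, h2.symm⟩
    · rintro ⟨h1, h2⟩; exact ⟨h1.symm, h2.symm⟩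
  have hPE : ∀ m n1 n2 : ℕ, ind (n1 ≠ n2 ∧ n1 ≡ n2 [MOD r]) * Pl r h (m * n1) =
      ind (n1 ≠ n2 ∧ n1 ≡ n2 [MOD r]) * Pl r h (m * n2) := by
    intro m n1 n2
    by_cases e : n1 ≠ n2 ∧ n1 ≡ n2 [MOD r]
    · have e2 : n1 ≡ n2 [MOD r] := e.2
      congr 1
      unfold Pl
      congr 1
      rw [eq_iff_iff]
      constructor
      · intro h1; exact (cls_iff r h hh m n1 n2 h1).2 e2
      · intro h1; exact (cls_iff r h hh m n2 n1 h1).2 e2.symm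
    · rw [ind_false e, zero_mul, zero_mul]
  have hs : ∀ m : ℕ, ∀ f : ℕ → ℝ, (∀ n, 0 ≤ f n) →
      (∑ n1 ∈ Ioc N (2 * N), ∑ n2 ∈ Ioc N (2 * N), Pl r h (m * n1) *
        (ind (n1 ≠ n2 ∧ n1 ≡ n2 [MOD r]) * f n1) ≤ (N / r) * ∑ n ∈ Ioc N (2 * N), Pl r h (m * n) * f n) ∧
      (∑ n1 ∈ Ioc N (2 * N), ∑ n2 ∈ Ioc N (2 * N), Pl r h (m * n1) *
        (ind (n1 ≠ n2 ∧ n1 ≡ n2 [MOD r]) * f n2) ≤ (N / r) * ∑ n ∈ Ioc N (2 * N), Pl r h (m * n) * f n) := by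
    intro m f hf
    have h1 : ∑ n1 ∈ Ioc N (2 * N), ∑ n2 ∈ Ioc N (2 * N), Pl r h (m * n1) *
        (ind (n1 ≠ n2 ∧ n1 ≡ n2 [MOD r]) * f n1) ≤ (N / r) * ∑ n ∈ Ioc N (2 * N), Pl r h (m * n) * f n := by
      rw [mul_sum]
      refine sum_le_sum fun n1 hn1 => ?_
      have h2 : ∑ n2 ∈ Ioc N (2 * N), Pl r h (m * n1) * (ind (n1 ≠ n2 ∧ n1 ≡ n2 [MOD r]) * f n1) =
          (∑ n2 ∈ Ioc N (2 * N), ind (n1 ≠ n2 ∧ n1 ≡ n2 [MOD r])) * (Pl r h (m * n1) * f n1) := by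
        rw [sum_mul]
        refine sum_congr rfl fun n2 _ => ?_
        ring
      rw [h2]
      exact mul_le_mul_of_nonneg_right (sum_ne N r P.r0 n1 hn1) (mul_nonneg (Pl_nonneg _ _ _) (hf _))
    refine ⟨h1, ?_⟩
    rw [sym_sum (Ioc N (2 * N)) (fun a b' => ind (a ≠ b' ∧ a ≡ b' [MOD r])) (fun n => Pl r h (m * n)) f
      (hsymE r) (fun a _ b' _ => hPE m a b')]
    exact h1
  refine (sum_le_sum fun m _ => sum_le_sum fun n1 _ => sum_le_sum fun n2 _ => hpt m n1 n2).trans ?_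
  have hsplit : ∑ m ∈ Ioc M (2 * M), ∑ n1 ∈ Ioc N (2 * N), ∑ n2 ∈ Ioc N (2 * N),
      (Pl r h (m * n1) * (ind (n1 ≠ n2 ∧ n1 ≡ n2 [MOD r]) * (A (m * n1) * A (m * n2))) +
      (b * (Pl r h (m * n1) * (ind (n1 ≠ n2 ∧ n1 ≡ n2 [MOD r]) * A (m * n1))) +
       b * (Pl r h (m * n1) * (ind (n1 ≠ n2 ∧ n1 ≡ n2 [MOD r]) * A (m * n2))) +
       b ^ 2 * (Pl r h (m * n1) * (ind (n1 ≠ n2 ∧ n1 ≡ n2 [MOD r]) * 1)))) ≤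
      ∑ m ∈ Ioc M (2 * M), ∑ n1 ∈ Ioc N (2 * N), ∑ n2 ∈ Ioc N (2 * N),
      Pl r h (m * n1) * (ind (n1 ≠ n2 ∧ n1 ≡ n2 [MOD r]) * (A (m * n1) * A (m * n2))) +
      (N / r) * (2 * b * (∑ m ∈ Ioc M (2 * M), ∑ n ∈ Ioc N (2 * N), Pl r h (m * n) * A (m * n)) +
        b ^ 2 * (∑ m ∈ Ioc M (2 * M), ∑ n ∈ Ioc N (2 * N), Pl r h (m * n))) := by
    have e5 : (N / r : ℝ) * (2 * b * (∑ m ∈ Ioc M (2 * M), ∑ n ∈ Ioc N (2 * N), Pl r h (m * n) * A (m * n)) +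
        b ^ 2 * (∑ m ∈ Ioc M (2 * M), ∑ n ∈ Ioc N (2 * N), Pl r h (m * n))) =
        ∑ m ∈ Ioc M (2 * M), (N / r) * (2 * b * (∑ n ∈ Ioc N (2 * N), Pl r h (m * n) * A (m * n)) +
        b ^ 2 * (∑ n ∈ Ioc N (2 * N), Pl r h (m * n))) := by
      simp only [mul_add, mul_sum, sum_add_distrib]
    rw [e5, ← sum_add_distrib]
    refine sum_le_sum fun m _ => ?_
    simp only [sum_add_distrib, ← mul_sum]
    have g2 := hs m (fun n => A (m * n)) (fun _ => hA0 _)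
    have g3 := (hs m (fun _ => 1) (fun _ => zero_le_one)).1
    simp only [← mul_sum] at g2 g3
    simp only [mul_one] at g3 ⊢
    have g4 := mul_le_mul_of_nonneg_left g2.1 hb0
    have g5 := mul_le_mul_of_nonneg_left g2.2 hb0
    have g6 := mul_le_mul_of_nonneg_left g3 (sq_nonneg b)
    linarith [g4, g5, g6]
  refine hsplit.trans ?_
  have kk := aa_le P h c hh S p hp.pos hS hScop hSc hQN
  rw [← hA] at kk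
  have k2 := Z2_le P h c S p hp.pos hS hScop
  have k1 := (Z1_le_Z2 r M N h c S).trans k2
  have k0 := Z0_le P h
  have h00 : 0 ≤ ∑ m ∈ Ioc M (2 * M), ∑ n ∈ Ioc N (2 * N), Pl r h (m * n) :=
    sum_nonneg fun _ _ => sum_nonneg fun _ _ => Pl_nonneg _ _ _
  have h01 : 0 ≤ ∑ m ∈ Ioc M (2 * M), ∑ n ∈ Ioc N (2 * N), Pl r h (m * n) * A (m * n) :=
    sum_nonneg fun _ _ => sum_nonneg fun _ _ => mul_nonneg (Pl_nonneg _ _ _) (hA0 _)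
  rw [← hA] at k1
  have h5 : ℓ ^ 2 ≤ ℓ ^ 5 := pow_le_pow_right₀ P.l1 (by norm_num)
  calc _ ≤ (4 * ℓ ^ 2 * (M * (N : ℝ) ^ 2 / (r : ℝ) ^ 2) * ((p : ℝ) ^ 2)⁻¹ +
        4 * (N : ℝ) ^ 2 * (Q : ℝ) ^ 2 / (r * (p : ℝ) ^ 3)) +
      (N / r) * (2 * (ℓ ^ 2 / p) * (5 * ℓ ^ 3 * (M * N / (r * p))) + (ℓ ^ 2 / p) ^ 2 * (5 * ℓ * (M * N / r))) := by
        gcongr
    _ = (4 * ℓ ^ 2 + 15 * ℓ ^ 5) * (M * (N : ℝ) ^ 2 / (r : ℝ) ^ 2) * ((p : ℝ) ^ 2)⁻¹ +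
        4 * (N : ℝ) ^ 2 * (Q : ℝ) ^ 2 / (r * (p : ℝ) ^ 3) := by
        field_simp
        ring
    _ ≤ (4 * ℓ ^ 5 + 15 * ℓ ^ 5) * (M * (N : ℝ) ^ 2 / (r : ℝ) ^ 2) * ((p : ℝ) ^ 2)⁻¹ +
        4 * (N : ℝ) ^ 2 * (Q : ℝ) ^ 2 / (r * (p : ℝ) ^ 3) := by gcongr
    _ = _ := by ring

/-- the trivial part -/
theorem triv {r M N Q G : ℕ} {ℓ K H : ℝ} (P : Par r M N Q ℓ) (h : ℤ) (c : ℕ → ℤ) (hh : IsCoprime h (r : ℤ))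
    (T : Finset ℕ) (κ β : ℕ → ℝ) (hT : ∀ t ∈ T, 0 < t ∧ t ≤ Q) (hcop : ∀ t ∈ T, r.Coprime t)
    (hc : ∀ t ∈ T, IsCoprime (c t) (t : ℤ)) (hG0 : 0 < G) (hG : ∀ t ∈ T, ∀ p : ℕ, p.Prime → p ∣ t → G < p)
    (hQN : Q ≤ N) (hK0 : 0 < K) (hrK : (r : ℝ) * K ≤ N) (hKG : K ≤ G) (hHK : H * K ≤ (G : ℝ) ^ 2)
    (hQH : (r : ℝ) * Q ^ 2 ≤ H * M)
    (hκ : ∀ t, |κ t| ≤ 1) (hβ : ∀ n ∈ Ioc N (2 * N), |β n| ≤ ℓ) :
    |SSt r M N h c T κ β - Sof r M N h c T κ β| ≤ 43 * ℓ ^ 7 * (M * (N : ℝ) ^ 2 / (r : ℝ) ^ 2) / K := by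
  have hr : (0 : ℝ) < r := by exact_mod_cast P.r0
  have hM : (0 : ℝ) < M := by exact_mod_cast P.M0
  have hN : (0 : ℝ) < N := by exact_mod_cast P.N0
  have hℓ : 0 < ℓ := lt_of_lt_of_le one_pos P.l1
  have hGr : (0 : ℝ) < G := by exact_mod_cast hG0
  have h1 := diff_le r M N G Q h c T κ β ℓ hℓ.le hh hT hG hκ hβ
  refine h1.trans ?_
  have h2 := diag_le P h c T hT hcop
  set Y : ℝ := M * (N : ℝ) ^ 2 / (r : ℝ) ^ 2 with hY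
  have hY0 : 0 ≤ Y := by positivity
  have h3 : ∑ p ∈ (Ioc G Q).filter Nat.Prime, ∑ m ∈ Ioc M (2 * M), ∑ n1 ∈ Ioc N (2 * N), ∑ n2 ∈ Ioc N (2 * N),
          Pl r h (m * n1) * (ind (n1 ≠ n2 ∧ n1 ≡ n2 [MOD r]) * (Bp T c p (m * n1) * Bp T c p (m * n2))) ≤
      ∑ p ∈ (Ioc G Q).filter Nat.Prime, (19 * ℓ ^ 5 * Y + 4 * (N : ℝ) ^ 2 * (Q : ℝ) ^ 2 / (r * G)) * ((p : ℝ) ^ 2)⁻¹ := by
    refine sum_le_sum fun p hp => ?_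
    have hp2 := mem_filter.1 hp
    have hGp : (G : ℝ) ≤ p := by exact_mod_cast (mem_Ioc.1 hp2.1).1.le
    have hpr : (0 : ℝ) < p := by linarith
    refine (pairs_le P h c hh T hT hcop hc hQN p hp2.2).trans ?_
    rw [add_mul]
    apply add_le_add le_rfl
    calc 4 * (N : ℝ) ^ 2 * (Q : ℝ) ^ 2 / (r * (p : ℝ) ^ 3) = (4 * (N : ℝ) ^ 2 * (Q : ℝ) ^ 2 / (r * p)) * ((p : ℝ) ^ 2)⁻¹ := by
          field_simp
      _ ≤ _ := by gcongr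
  have h4 : ∑ p ∈ (Ioc G Q).filter Nat.Prime, ((p : ℝ) ^ 2)⁻¹ ≤ (G : ℝ)⁻¹ := by
    refine (sum_le_sum_of_subset_of_nonneg (filter_subset _ _) (fun _ _ _ => by positivity)).trans ?_
    by_cases hGQ : G ≤ Q
    · refine (sum_Ioc_inv_sq_le_sub hG0.ne' hGQ).trans ?_
      have : (0 : ℝ) ≤ (Q : ℝ)⁻¹ := by positivity
      linarith
    · rw [Ioc_eq_empty (by omega), sum_empty]
      positivity
  rw [← mul_sum] at h3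
  have h5 : (M * N / r : ℝ) ≤ Y / K := by
    rw [hY, div_div, div_le_div_iff₀ hr (by positivity)]
    calc (M : ℝ) * N * ((r : ℝ) ^ 2 * K) = (M * N * r) * (r * K) := by ring
      _ ≤ (M * N * r) * N := by gcongr
      _ = _ := by ring
  have h6 : 4 * (N : ℝ) ^ 2 * (Q : ℝ) ^ 2 / (r * G) * (G : ℝ)⁻¹ ≤ 4 * (Y / K) := by
    have e : 4 * (N : ℝ) ^ 2 * (Q : ℝ) ^ 2 / (r * G) * (G : ℝ)⁻¹ =
        4 * (N : ℝ) ^ 2 * (r * (Q : ℝ) ^ 2) / ((r : ℝ) ^ 2 * (G : ℝ) ^ 2) := by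
      field_simp
    have e2 : 4 * (Y / K) = 4 * (M * (N : ℝ) ^ 2) / ((r : ℝ) ^ 2 * K) := by
      rw [hY]
      field_simp
    rw [e, e2, div_le_div_iff₀ (by positivity) (by positivity)]
    calc 4 * (N : ℝ) ^ 2 * (r * (Q : ℝ) ^ 2) * ((r : ℝ) ^ 2 * K) ≤ 4 * (N : ℝ) ^ 2 * (H * M) * ((r : ℝ) ^ 2 * K) := by
          gcongr
      _ = 4 * (N : ℝ) ^ 2 * M * (r : ℝ) ^ 2 * (H * K) := by ring
      _ ≤ 4 * (N : ℝ) ^ 2 * M * (r : ℝ) ^ 2 * (G : ℝ) ^ 2 := by gcongr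
      _ = _ := by ring
  have h7 : (19 * ℓ ^ 5 * Y) * (G : ℝ)⁻¹ ≤ 19 * ℓ ^ 5 * (Y / K) := by
    rw [mul_assoc, ← div_eq_mul_inv]
    apply mul_le_mul_of_nonneg_left _ (by positivity)
    exact div_le_div_of_nonneg_left hY0 hK0 hKG
  have h8 : 1 ≤ ℓ ^ 5 := one_le_pow₀ P.l1
  have hYK : 0 ≤ Y / K := by positivity
  calc _ ≤ ℓ ^ 2 * (20 * ℓ ^ 5 * (Y / K) +
        (19 * ℓ ^ 5 * Y + 4 * (N : ℝ) ^ 2 * (Q : ℝ) ^ 2 / (r * G)) * (G : ℝ)⁻¹) := by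
        apply mul_le_mul_of_nonneg_left _ (by positivity)
        apply add_le_add
        · exact h2.trans (mul_le_mul_of_nonneg_left h5 (by positivity))
        · exact h3.trans (mul_le_mul_of_nonneg_left h4 (by positivity))
    _ ≤ ℓ ^ 2 * (20 * ℓ ^ 5 * (Y / K) + (19 * ℓ ^ 5 * (Y / K) + 4 * (Y / K))) := by
        apply mul_le_mul_of_nonneg_left _ (by positivity)
        rw [add_mul]
        linarith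
    _ ≤ ℓ ^ 2 * (20 * ℓ ^ 5 * (Y / K) + (19 * ℓ ^ 5 * (Y / K) + 4 * ℓ ^ 5 * (Y / K))) := by
        apply mul_le_mul_of_nonneg_left _ (by positivity)
        have := mul_le_mul_of_nonneg_right h8 hYK
        linarith
    _ = _ := by ring

end Pool.Agent.R503.T
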