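import Mathlib
import Pool.Agent.R503.T.TrC
import Pool.Agent.R503.N.BlkB

/-! The bilinear sums for one left modulus and arbitrary classes: connection of the two forms (helper503). -/

open Finset

namespace Pool.Agent.R503.T

open Pool.Agent.Y826.Z Pool.Agent.Y826.Z.OB Pool.Agent.R503.N

lemma dvd_sub_trans {a : ℤ} {c c1 : ℤ} (h : a ∣ c - c1) (x : ℤ) : a ∣ x - c ↔ a ∣ x - c1 := by
  constructor
  · intro h1
    have := dvd_add h1 h
    rwa [sub_add_sub_cancel] at this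
  · intro h1
    have := dvd_sub h1 h
    rwa [sub_sub_sub_cancel_right] at this

lemma Dr_gen (u w : ℕ) (c c1 c2 x : ℤ) (huw : u.Coprime w) (h1 : (u : ℤ) ∣ c - c1) (h2 : (w : ℤ) ∣ c - c2) :
    Dr u w c1 c2 x = Dc (u * w) c x := by
  unfold Dr Dc
  have h1 : ((x : ZMod u) = (c1 : ZMod u) ∧ (x : ZMod w) = (c2 : ZMod w)) ↔ ((u * w : ℕ) : ℤ) ∣ x - c := by
    rw [zmod_iff, zmod_iff, ← dvd_sub_trans h1, ← dvd_sub_trans h2]
    constructor
    · rintro ⟨h1, h2⟩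
      push_cast
      exact (Nat.isCoprime_iff_coprime.2 huw).mul_dvd h1 h2
    · intro h
      push_cast at h
      exact ⟨(Dvd.intro _ rfl).trans h, (Dvd.intro_left _ rfl).trans h⟩
  rw [propext h1]

lemma Soff_eq_Sof (r M N : ℕ) (h : ℤ) (c cu : ℕ → ℤ) (T : Finset ℕ) (e u v : ℕ → ℕ) (κ β : ℕ → ℝ)
    (hdec : ∀ t ∈ T, e t * u t * v t = t) (hsf : ∀ t ∈ T, Squarefree t)
    (hcu : ∀ t ∈ T, (u t : ℤ) ∣ c t - cu (u t)) :
    Pool.Agent.R503.N.Soff 1 r M N h (T.image (fun t => (e t, u t))) (T.image (fun t => tp (v t))) (kq T e u v κ)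
      (fun o => cu o.2) (fun o w => c (o.1 * o.2 * Pr w)) β = Sof r M N h c T κ β := by
  classical
  set SO := T.image (fun t => (e t, u t)) with hSO
  set SV := T.image (fun t => tp (v t)) with hSV
  set cu' : ℕ × ℕ → ℤ := fun o => cu o.2 with hcu'
  set dv : ℕ × ℕ → Tp → ℤ := fun o w => c (o.1 * o.2 * Pr w) with hdv
  set Φ : ℕ × ℕ → ℕ × ℕ → Tp → Tp → ℝ := fun o1 o2 v1 v2 =>
    ind ((o1.1 * o1.2 * Pr v1).Coprime (o2.1 * o2.2 * Pr v2)) *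
    ∑ n1 ∈ Ioc N (2 * N), ∑ n2 ∈ Ioc N (2 * N), ind (n1 ≠ n2 ∧ n1 ≡ n2 [MOD (1 * r)]) *
      (β n1 * β n2 * inn 1 r M h cu' dv o1 o2 v1 v2 n1 n2) with hΦ
  have e1 : Pool.Agent.R503.N.Soff 1 r M N h SO SV (kq T e u v κ) cu' dv β =
      ∑ o1 ∈ SO, ∑ v1 ∈ SV, kq T e u v κ o1 v1 * ∑ o2 ∈ SO, ∑ v2 ∈ SV, kq T e u v κ o2 v2 *
        Φ o1 o2 v1 v2 := by
    unfold Pool.Agent.R503.N.Soff
    refine sum_congr rfl fun o1 _ => ?_
    rw [sum_comm]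
    refine sum_congr rfl fun v1 _ => ?_
    rw [mul_sum]
    refine sum_congr rfl fun o2 _ => ?_
    rw [mul_sum]
    refine sum_congr rfl fun v2 _ => ?_
    rw [hΦ]
    simp only [Pool.Agent.R503.N.kap]
    ring
  rw [e1, sum_dec T e u v κ hdec (fun o1 v1 => ∑ o2 ∈ SO, ∑ v2 ∈ SV, kq T e u v κ o2 v2 * Φ o1 o2 v1 v2)]
  unfold Sof
  refine sum_congr rfl fun t1 ht1 => ?_
  rw [sum_dec T e u v κ hdec (fun o2 v2 => Φ (e t1, u t1) o2 (tp (v t1)) v2), mul_sum]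
  refine sum_congr rfl fun t2 ht2 => ?_
  rw [hΦ]
  simp only [Pr_tp, hdec t1 ht1, hdec t2 ht2, one_mul]
  have hD : ∀ t ∈ T, ∀ x : ℤ, Dr (u t) (e t * v t) (cu (u t)) (c t) x = Dc t (c t) x := by
    intro t ht x
    have h1 : t = u t * (e t * v t) := by
      calc t = e t * u t * v t := (hdec t ht).symm
        _ = _ := by ring
    have h2 := hsf t ht
    rw [h1, Nat.squarefree_mul_iff] at h2
    have h3 := Dr_gen (u t) (e t * v t) (c t) (cu (u t)) (c t) x h2.1 (hcu t ht) (by simp)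
    rw [h3, ← h1]
  have hin : ∀ n1 n2, inn 1 r M h cu' dv (e t1, u t1) (e t2, u t2) (tp (v t1)) (tp (v t2))
      n1 n2 = ∑ m ∈ Ioc M (2 * M), Pl r h (m * n1) *
      Dc t1 (c t1) ((m * n1 : ℕ) : ℤ) * Dc t2 (c t2) ((m * n2 : ℕ) : ℤ) := by
    intro n1 n2
    unfold inn
    refine sum_congr rfl fun m _ => ?_
    simp only [hcu', hdv, Pr_tp, hdec t1 ht1, hdec t2 ht2]
    rw [hD t1 ht1, hD t2 ht2, propext (Lr_one r h _)]
    rfl
  simp only [hin]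
  ring

end Pool.Agent.R503.T
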