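import Mathlib
import Pool.Agent.R503.T.BlkA

/-! The bilinear sums for one left modulus and arbitrary classes (helper503). -/

open Finset

namespace Pool.Agent.R503.T

open Pool.Agent.Y826.Z Pool.Agent.Y826.Z.OB Pool.Agent.R503.N

/-- the second moment, with windows -/
theorem SSt_le {X Λ ℓ C : ℝ} (E : EnvX X Λ ℓ C) (r M N G Q : ℕ) (h : ℤ) (c cu : ℕ → ℤ) (T : Finset ℕ)
    (e u v : ℕ → ℕ)
    (W U V H Hq : ℝ) (κ β : ℕ → ℝ) (hM : 0 < M) (hN : 0 < N) (hMN : (M : ℝ) * N ≤ 16 * X) (hr : 0 < r)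
    (hW : 0 < W) (hU : 0 < U) (hV : 0 < V) (hdec : ∀ t ∈ T, e t * u t * v t = t)
    (hsf : ∀ t ∈ T, Squarefree (r * t)) (hh : IsCoprime h (r : ℤ)) (hct : ∀ t ∈ T, IsCoprime (c t) (t : ℤ))
    (hcu : ∀ t ∈ T, (u t : ℤ) ∣ c t - cu (u t))
    (hG0 : 0 < G) (hG : ∀ t ∈ T, ∀ p : ℕ, p.Prime → p ∣ t → G < p)
    (hrΛ : (r : ℝ) * Λ ≤ N) (hΛG : Λ ≤ G) (hHG : Hq * Λ ≤ (G : ℝ) ^ 2) (hQH : (r : ℝ) * Q ^ 2 ≤ Hq * M)
    (hQN : Q ≤ N) (hH1 : 1 ≤ H) (hH : r * W ^ 2 * U ^ 2 * V ^ 2 / M ≤ H)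
    (we : ∀ t ∈ T, W / Λ ≤ e t ∧ (e t : ℝ) ≤ W * Λ) (wu : ∀ t ∈ T, U / Λ ≤ u t ∧ (u t : ℝ) ≤ U * Λ)
    (wv : ∀ t ∈ T, V / Λ ≤ v t ∧ (v t : ℝ) ≤ V * Λ)
    (s2 : r * W ^ 2 * U ^ 2 * Λ ^ 1000 ≤ M) (s3 : W ^ 2 * V ^ 4 * H ^ 4 * Λ ^ 1000 ≤ N)
    (s4 : r * U ^ 2 * H ^ 8 * Λ ^ 1000 ≤ (N : ℝ) ^ 2) (s5 : H ^ 8 * Λ ^ 1000 ≤ r * U ^ 2)
    (hQ : 0 < Q) (hTQ : ∀ t ∈ T, t ≤ Q) (hrQ : (r : ℝ) * Q ^ 2 ≤ M * N)
    (hκ : ∀ t, |κ t| ≤ 1) (hβ : ∀ n ∈ Ioc N (2 * N), |β n| ≤ ℓ) :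
    SSt r M N h c T κ β ≤ 44 * ℓ ^ 7 * Λ⁻¹ * (M * (N : ℝ) ^ 2 / (r : ℝ) ^ 2) := by
  classical
  have P := E.par r M N Q hr hM hN hQ hMN hrQ
  have hΛ1 : 1 ≤ Λ := by linarith [E.hΛ]
  have hΛ0 : 0 < Λ := by linarith
  have hX := E.hX
  have hX1 : 1 ≤ X := by linarith
  have hMr : (0 : ℝ) < M := by exact_mod_cast hM
  have hNr : (0 : ℝ) < N := by exact_mod_cast hN
  have hrr : (0 : ℝ) < r := by exact_mod_cast hr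
  have hM1 : (1 : ℝ) ≤ M := by exact_mod_cast hM
  have hN1 : (1 : ℝ) ≤ N := by exact_mod_cast hN
  have hT0 : ∀ t ∈ T, 0 < t ∧ t ≤ Q := fun t ht =>
    ⟨Nat.pos_of_ne_zero (fun h0 => by
      have := (hsf t ht).ne_zero
      rw [h0, mul_zero] at this
      exact this rfl), hTQ t ht⟩
  have hcop : ∀ t ∈ T, r.Coprime t := fun t ht => (Nat.squarefree_mul_iff.1 (hsf t ht)).1
  have hst : ∀ t ∈ T, Squarefree t := fun t ht => (Nat.squarefree_mul_iff.1 (hsf t ht)).2.2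
  have h1 := triv (G := G) P h c hh T κ β hT0 hcop hct hG0 hG hQN hΛ0 hrΛ hΛG hHG hQH hκ hβ
  have hN3 : (N : ℝ) ≤ X ^ 3 := by
    have : (N : ℝ) ≤ M * N := le_mul_of_one_le_left hNr.le hM1
    nlinarith [sq_nonneg X]
  have hM3 : (M : ℝ) ≤ X ^ 3 := by
    have : (M : ℝ) ≤ M * N := le_mul_of_one_le_right hMr.le hN1
    nlinarith [sq_nonneg X]
  have h2 : |Pool.Agent.R503.N.Soff 1 r M N h (T.image (fun t => (e t, u t))) (T.image (fun t => tp (v t))) (kq T e u v κ)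
      (fun o => cu o.2) (fun o w => c (o.1 * o.2 * Pr w)) β| ≤ Λ⁻¹ * (M * (N : ℝ) ^ 2 / (((1 : ℕ) : ℝ) * r) ^ 2) := by
    apply Pool.Agent.R503.N.off_det 1 r M N h _ _ _ _ _ β Λ X C W U V H hX E.hΛ E.hΛX E.hC1 E.hCΛ E.hI
      E.t2 hMN hM hN one_pos hr hW hU hV hH1
    · rw [Nat.cast_one, one_mul]; exact hH
    · rw [Nat.cast_one, one_mul]; exact s2
    · rw [Nat.cast_one, one_mul]; exact s3
    · exact s4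
    · exact s5
    · intro o w
      unfold kq
      rw [abs_mul, abs_of_nonneg (ind_nonneg _)]
      exact mul_le_one₀ (ind_le_one _) (abs_nonneg _) (hκ _)
    · intro o w hk
      have hmem : o.1 * o.2 * Pr w ∈ T ∧ e (o.1 * o.2 * Pr w) = o.1 ∧ u (o.1 * o.2 * Pr w) = o.2 ∧
          v (o.1 * o.2 * Pr w) = Pr w := by
        by_contra hcon
        apply hk
        unfold kq
        rw [ind_false hcon, zero_mul]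
      have hmt := hmem.1
      have hcc := hct _ hmt
      refine ⟨?_, ?_, ?_⟩
      · rw [one_mul]; exact hsf _ hmt
      · have hd := hcu _ hmt
        rw [hmem.2.2.1] at hd
        have h5 : IsCoprime (c (o.1 * o.2 * Pr w)) (o.2 : ℤ) :=
          hcc.of_isCoprime_of_dvd_right (Int.natCast_dvd_natCast.2 ⟨o.1 * Pr w, by ring⟩)
        obtain ⟨k, hk2⟩ := hd
        have e1 : cu o.2 = c (o.1 * o.2 * Pr w) + (o.2 : ℤ) * (-k) := by linarith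
        rw [e1]
        exact h5.add_mul_left_left _
      · exact hcc.of_isCoprime_of_dvd_right (Int.natCast_dvd_natCast.2 ⟨o.2, by ring⟩)
    · intro o ho
      rw [mem_image] at ho
      obtain ⟨t, ht, rfl⟩ := ho
      exact (we t ht).2
    · intro o ho
      rw [mem_image] at ho
      obtain ⟨t, ht, rfl⟩ := ho
      exact (we t ht).1
    · intro o ho
      rw [mem_image] at ho
      obtain ⟨t, ht, rfl⟩ := ho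
      exact (wu t ht).2
    · intro o ho
      rw [mem_image] at ho
      obtain ⟨t, ht, rfl⟩ := ho
      exact (wu t ht).1
    · intro w hw
      rw [mem_image] at hw
      obtain ⟨t, ht, rfl⟩ := hw
      rw [Pr_tp]
      exact (wv t ht).2
    · intro w hw
      rw [mem_image] at hw
      obtain ⟨t, ht, rfl⟩ := hw
      rw [Pr_tp]
      exact (wv t ht).1
    · intro n hn
      exact (hβ n hn).trans E.hℓΛ
    · exact E.hoa r M N h _ β hN hN3 hM3 hh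
  rw [Soff_eq_Sof r M N h c cu T e u v κ β hdec hst hcu, Nat.cast_one, one_mul] at h2
  have h3 := abs_le.1 h1
  have h4 := abs_le.1 h2
  have h7 : 1 ≤ ℓ ^ 7 := one_le_pow₀ E.l1
  have hY : 0 ≤ Λ⁻¹ * (M * (N : ℝ) ^ 2 / (r : ℝ) ^ 2) := by positivity
  calc SSt r M N h c T κ β = (SSt r M N h c T κ β - Sof r M N h c T κ β) + Sof r M N h c T κ β := by ring
    _ ≤ 43 * ℓ ^ 7 * (M * (N : ℝ) ^ 2 / (r : ℝ) ^ 2) / Λ + Λ⁻¹ * (M * (N : ℝ) ^ 2 / (r : ℝ) ^ 2) :=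
        add_le_add h3.2 h4.2
    _ = 43 * ℓ ^ 7 * (Λ⁻¹ * (M * (N : ℝ) ^ 2 / (r : ℝ) ^ 2)) + 1 * (Λ⁻¹ * (M * (N : ℝ) ^ 2 / (r : ℝ) ^ 2)) := by
        rw [div_eq_mul_inv _ Λ]; ring
    _ ≤ 43 * ℓ ^ 7 * (Λ⁻¹ * (M * (N : ℝ) ^ 2 / (r : ℝ) ^ 2)) + ℓ ^ 7 * (Λ⁻¹ * (M * (N : ℝ) ^ 2 / (r : ℝ) ^ 2)) := by
        gcongr
    _ = _ := by ring

/-- the bilinear sums for one left modulus, with windows -/
theorem blk1 {X Λ ℓ C : ℝ} (E : EnvX X Λ ℓ C) (r M N G Q : ℕ) (h : ℤ) (c cu : ℕ → ℤ) (T : Finset ℕ)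
    (e u v : ℕ → ℕ)
    (W U V H Hq : ℝ) (α β : ℕ → ℝ) (hM : 0 < M) (hN : 0 < N) (hMN : (M : ℝ) * N ≤ 16 * X) (hr : 0 < r)
    (hW : 0 < W) (hU : 0 < U) (hV : 0 < V) (hdec : ∀ t ∈ T, e t * u t * v t = t)
    (hsf : ∀ t ∈ T, Squarefree (r * t)) (hh : IsCoprime h (r : ℤ)) (hct : ∀ t ∈ T, IsCoprime (c t) (t : ℤ))
    (hcu : ∀ t ∈ T, (u t : ℤ) ∣ c t - cu (u t))
    (hG0 : 0 < G) (hG : ∀ t ∈ T, ∀ p : ℕ, p.Prime → p ∣ t → G < p)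
    (hrΛ : (r : ℝ) * Λ ≤ N) (hΛG : Λ ≤ G) (hHG : Hq * Λ ≤ (G : ℝ) ^ 2) (hQH : (r : ℝ) * Q ^ 2 ≤ Hq * M)
    (hQN : Q ≤ N) (hH1 : 1 ≤ H) (hH : r * W ^ 2 * U ^ 2 * V ^ 2 / M ≤ H)
    (we : ∀ t ∈ T, W / Λ ≤ e t ∧ (e t : ℝ) ≤ W * Λ) (wu : ∀ t ∈ T, U / Λ ≤ u t ∧ (u t : ℝ) ≤ U * Λ)
    (wv : ∀ t ∈ T, V / Λ ≤ v t ∧ (v t : ℝ) ≤ V * Λ)
    (s2 : r * W ^ 2 * U ^ 2 * Λ ^ 1000 ≤ M) (s3 : W ^ 2 * V ^ 4 * H ^ 4 * Λ ^ 1000 ≤ N)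
    (s4 : r * U ^ 2 * H ^ 8 * Λ ^ 1000 ≤ (N : ℝ) ^ 2) (s5 : H ^ 8 * Λ ^ 1000 ≤ r * U ^ 2)
    (hQ : 0 < Q) (hTQ : ∀ t ∈ T, t ≤ Q) (hrQ : (r : ℝ) * Q ^ 2 ≤ M * N)
    (hα : ∀ m ∈ Ioc M (2 * M), |α m| ≤ ℓ) (hβ : ∀ n ∈ Ioc N (2 * N), |β n| ≤ ℓ) :
    ∑ t ∈ T, |∑ m ∈ Ioc M (2 * M), ∑ n ∈ Ioc N (2 * N), α m * β n *
      (Pl r h (m * n) * Dc t (c t) ((m * n : ℕ) : ℤ))| ≤
      ℓ * Real.sqrt (44 * ℓ ^ 7 * Λ⁻¹) * (M * N / r) := by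
  classical
  have hℓ0 : 0 ≤ ℓ := le_trans zero_le_one E.l1
  have hMr : (0 : ℝ) < M := by exact_mod_cast hM
  have hNr : (0 : ℝ) < N := by exact_mod_cast hN
  have hrr : (0 : ℝ) < r := by exact_mod_cast hr
  have hΛ0 : 0 < Λ := by linarith [E.hΛ]
  set Bt : ℕ → ℝ := fun t => ∑ m ∈ Ioc M (2 * M), ∑ n ∈ Ioc N (2 * N), α m * β n *
      (Pl r h (m * n) * Dc t (c t) ((m * n : ℕ) : ℤ)) with hB
  set κ : ℕ → ℝ := fun t => if 0 ≤ Bt t then 1 else -1 with hκ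
  have hκ1 : ∀ t, |κ t| ≤ 1 := by
    intro t
    simp only [hκ]
    split_ifs <;> simp
  have hBk : ∀ t, |Bt t| = κ t * Bt t := by
    intro t
    simp only [hκ]
    split_ifs with h
    · rw [one_mul, abs_of_nonneg h]
    · rw [neg_one_mul, abs_of_neg (not_le.1 h)]
  have e1 : ∑ t ∈ T, |Bt t| = ∑ m ∈ Ioc M (2 * M), α m * (∑ t ∈ T, κ t * ∑ n ∈ Ioc N (2 * N), β n *
      (Pl r h (m * n) * Dc t (c t) ((m * n : ℕ) : ℤ))) := by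
    rw [sum_congr rfl (fun t _ => hBk t)]
    simp only [hB, mul_sum]
    rw [sum_comm]
    refine sum_congr rfl fun m _ => sum_congr rfl fun t _ => sum_congr rfl fun n _ => ?_
    ring
  have hS := SSt_le E r M N G Q h c cu T e u v W U V H Hq κ β hM hN hMN hr hW hU hV hdec hsf hh hct hcu hG0 hG
    hrΛ hΛG hHG hQH hQN hH1 hH we wu wv s2 s3 s4 s5 hQ hTQ hrQ hκ1 hβ
  change ∑ t ∈ T, |Bt t| ≤ _
  rw [e1]
  have h1 : (∑ m ∈ Ioc M (2 * M), α m * (∑ t ∈ T, κ t * ∑ n ∈ Ioc N (2 * N), β n *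
      (Pl r h (m * n) * Dc t (c t) ((m * n : ℕ) : ℤ)))) ^ 2 ≤
      (∑ m ∈ Ioc M (2 * M), α m ^ 2) * SSt r M N h c T κ β := sum_mul_sq_le_sq_mul_sq _ _ _
  have h2 : ∑ m ∈ Ioc M (2 * M), α m ^ 2 ≤ ℓ ^ 2 * M := by
    have : ∀ m ∈ Ioc M (2 * M), α m ^ 2 ≤ ℓ ^ 2 := fun m hm => by
      rw [← sq_abs]
      exact pow_le_pow_left₀ (abs_nonneg _) (hα m hm) 2
    refine (sum_le_sum this).trans ?_
    rw [sum_const, nsmul_eq_mul, Nat.card_Ioc, mul_comm]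
    have e : 2 * M - M = M := by omega
    rw [e]
  have hR : 0 ≤ 44 * ℓ ^ 7 * Λ⁻¹ := by positivity
  have h3 : (∑ m ∈ Ioc M (2 * M), α m * (∑ t ∈ T, κ t * ∑ n ∈ Ioc N (2 * N), β n *
      (Pl r h (m * n) * Dc t (c t) ((m * n : ℕ) : ℤ)))) ^ 2 ≤
      (ℓ * Real.sqrt (44 * ℓ ^ 7 * Λ⁻¹) * (M * N / r)) ^ 2 := by
    refine h1.trans ?_
    calc (∑ m ∈ Ioc M (2 * M), α m ^ 2) * SSt r M N h c T κ β
        ≤ (ℓ ^ 2 * M) * (44 * ℓ ^ 7 * Λ⁻¹ * (M * (N : ℝ) ^ 2 / (r : ℝ) ^ 2)) := by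
          apply mul_le_mul h2 hS _ (by positivity)
          exact sum_nonneg fun _ _ => sq_nonneg _
      _ = _ := by
          rw [mul_pow, mul_pow, Real.sq_sqrt hR]
          field_simp
  exact abs_le_of_sq_le_sq' h3 (by positivity) |>.2

end Pool.Agent.R503.T
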