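import Mathlib
import Pool.Agent.R503.T.Tel

/-! Factorisations along a tree of moduli (helper503). -/

open Finset

namespace Pool.Agent.R503.T

open Pool.Agent.Y826.Z Pool.Agent.Y826.Z.OB Pool.Agent.R503.N

/-- ancestors -/
inductive Ch (par : ℕ → ℕ) (D : Set ℕ) (s : ℕ) : ℕ → Prop
  | refl (h : s ∈ D) : Ch par D s s
  | step (t : ℕ) (h : t ∈ D) (h1 : t ≠ 1) (hs : Ch par D s (par t)) : Ch par D s t

/-- a tree of moduli with a coherent system of classes -/
structure Sys (q0 G : ℕ) (z P Θ Y : ℝ) (par : ℕ → ℕ) (A : ℕ → ℤ) (D : Set ℕ) : Prop where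
  q0p : 0 < q0
  sf : ∀ t ∈ D, Squarefree (q0 * t)
  cc : ∀ t ∈ D, IsCoprime (A t) ((q0 * t : ℕ) : ℤ)
  pr : ∀ t ∈ D, ∀ p : ℕ, p.Prime → p ∣ t → G < p ∧ (p : ℝ) ≤ z
  bd : ∀ t ∈ D, (q0 : ℝ) * t ≤ P
  tr : ∀ t ∈ D, t ≠ 1 → par t ∈ D ∧ ∃ p : ℕ, p.Prime ∧ par t * p = t
  an : ∀ s t, Ch par D s t → s ≠ 1 → ∀ p p' : ℕ, par s * p = s → par t * p' = t → Θ * p ≤ (p' : ℝ) ^ 2
  co : ∀ s t, Ch par D s t → (q0 : ℝ) * s ≤ Y → ((q0 * s : ℕ) : ℤ) ∣ A t - A s

section
variable {q0 G : ℕ} {z P Θ Y : ℝ} {par : ℕ → ℕ} {A : ℕ → ℤ} {D : Set ℕ}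

lemma Ch.mem {s t : ℕ} (h : Ch par D s t) : s ∈ D ∧ t ∈ D := by
  induction h with
  | refl h => exact ⟨h, h⟩
  | step t h h1 hs ih => exact ⟨ih.1, h⟩

lemma Ch.trans {s d t : ℕ} (h1 : Ch par D s d) (h2 : Ch par D d t) : Ch par D s t := by
  induction h2 with
  | refl h => exact h1
  | step t h hne hs ih => exact Ch.step t h hne ih

lemma Ch.dvd (S : Sys q0 G z P Θ Y par A D) {s t : ℕ} (h : Ch par D s t) : s ∣ t := by
  induction h with
  | refl h => exact dvd_rfl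
  | step t h h1 hs ih =>
    obtain ⟨-, p, -, hp⟩ := S.tr t h h1
    exact ih.trans ⟨p, hp.symm⟩

lemma Sys.pos (S : Sys q0 G z P Θ Y par A D) {t : ℕ} (ht : t ∈ D) : 0 < t := by
  refine Nat.pos_of_ne_zero fun h0 => ?_
  have := (S.sf t ht).ne_zero
  rw [h0, mul_zero] at this
  exact this rfl

lemma Ch.root (S : Sys q0 G z P Θ Y par A D) : ∀ t ∈ D, Ch par D 1 t := by
  intro t
  induction t using Nat.strong_induction_on with
  | _ t ih =>
    intro ht
    by_cases h1 : t = 1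
    · subst h1
      exact Ch.refl ht
    · obtain ⟨h2, p, hp, hpt⟩ := S.tr t ht h1
      have h3 := S.pos h2
      have h4 : par t < t := by
        conv_rhs => rw [← hpt]
        exact lt_mul_of_one_lt_right h3 hp.one_lt
      exact Ch.step t ht h1 (ih _ h4 h2)

/-- the primes of the cofactor -/
lemma Ch.prs (S : Sys q0 G z P Θ Y par A D) {s t : ℕ} (h : Ch par D s t) : ∀ w, s * w = t → ∀ p : ℕ, p.Prime →
    p ∣ w → ∃ s', Ch par D s s' ∧ Ch par D s' t ∧ par s' * p = s' := by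
  induction h with
  | refl h =>
    intro w hw p hp hpw
    have hs := S.pos h
    have : w = 1 := Nat.eq_of_mul_eq_mul_left hs (by rw [hw, mul_one])
    rw [this] at hpw
    exact absurd (Nat.dvd_one.1 hpw) hp.one_lt.ne'
  | step t h h1 hs ih =>
    intro w hw p hp hpw
    obtain ⟨h2, p0, hp0, hpt⟩ := S.tr t h h1
    obtain ⟨w', hw'⟩ := hs.dvd S
    have hs0 := S.pos hs.mem.1
    have e1 : w = w' * p0 := by
      apply Nat.eq_of_mul_eq_mul_left hs0
      rw [hw, ← mul_assoc, ← hw', hpt]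
    rw [e1] at hpw
    rcases hp.dvd_mul.1 hpw with h3 | h3
    · obtain ⟨s', k1, k2, k3⟩ := ih w' hw'.symm p hp h3
      exact ⟨s', k1, Ch.step t h h1 k2, k3⟩
    · have h4 : p = p0 := (Nat.prime_dvd_prime_iff_eq hp hp0).1 h3
      exact ⟨t, Ch.step t h h1 hs, Ch.refl h, by rw [h4]; exact hpt⟩

/-- greedy ancestors -/
lemma greedyT (S : Sys q0 G z P Θ Y par A D) {s t : ℕ} (h : Ch par D s t) (Z : ℝ) (hZ : (s : ℝ) ≤ Z) :
    ∃ d, Ch par D s d ∧ Ch par D d t ∧ (d : ℝ) ≤ Z ∧ (d = t ∨ (Z < d * z ∧ ∃ p s1 : ℕ, p.Prime ∧ (p : ℝ) ≤ z ∧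
      Ch par D s1 t ∧ s1 ≠ 1 ∧ par s1 = d ∧ par s1 * p = s1 ∧ Z < d * p)) := by
  induction h with
  | refl h => exact ⟨s, Ch.refl h, Ch.refl h, hZ, Or.inl rfl⟩
  | step t h h1 hs ih =>
    by_cases htZ : (t : ℝ) ≤ Z
    · exact ⟨t, Ch.step t h h1 hs, Ch.refl h, htZ, Or.inl rfl⟩
    · rw [not_le] at htZ
      obtain ⟨d, k1, k2, k3, k4⟩ := ih
      refine ⟨d, k1, Ch.step t h h1 k2, k3, Or.inr ?_⟩
      rcases k4 with k4 | ⟨k4, p, s1, a1, a2, a3, a4, a5, a6, a7⟩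
      · obtain ⟨-, p, hp, hpt⟩ := S.tr t h h1
        have hpz := (S.pr t h p hp ⟨par t, by rw [mul_comm]; exact hpt.symm⟩).2
        have ht' : (t : ℝ) = (par t : ℝ) * p := by exact_mod_cast hpt.symm
        have h5 : Z < (par t : ℝ) * p := by rw [← ht']; exact htZ
        rw [k4]
        refine ⟨h5.trans_le (mul_le_mul_of_nonneg_left hpz (Nat.cast_nonneg _)), p, t, hp, hpz, Ch.refl h, h1, rfl,
          hpt, h5⟩
      · exact ⟨k4, p, s1, a1, a2, Ch.step t h h1 a3, a4, a5, a6, a7⟩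

theorem fam_mk (X Λ Hm Δ : ℝ) (M N : ℕ) (S : Sys q0 G z P Θ Y par A D) (hΛ : 1 ≤ Λ) (hz : 1 ≤ z)
    (hzH : z ≤ Hm) (hΛG : Λ ^ 6 ≤ G) (hG : Λ ^ 1002 ≤ (G : ℝ) ^ 2) (hM : 0 < M) (hN : 0 < N)
    (hNM : N ≤ M) (hΔ : Λ ^ 1000 ≤ Δ) (hqN : q0 * Δ ≤ N) (hMX : (M : ℝ) * N ≤ X) (hY0 : 0 ≤ Y)
    (hY : X ≤ (Y * Δ) ^ 2)
    (C0 : P ^ 2 * Δ * Λ ^ 6 ≤ Θ * (M * N))
    (C1 : P ^ 2 * z * Δ ≤ Hm * (M * N)) (C2 : Hm ^ 6 * z ^ 4 * Δ ^ 2 * Λ ^ 1000 ≤ N)
    (C3 : M * z ^ 6 * Hm ^ 14 * Δ * Λ ^ 2000 ≤ (N : ℝ) ^ 3) (C4 : Hm ^ 8 * Λ ^ 1002 * Δ * z ≤ N)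
    (C5 : P * z * Δ ≤ (N : ℝ) ^ 2) (hPX : P ≤ X ^ 10) :
    Fam X Λ q0 M N G A D := by
  have hz0 : 0 < z := by linarith
  have hΛ0 : 0 < Λ := by linarith
  have hpw : ∀ n : ℕ, 1 ≤ Λ ^ n := fun n => one_le_pow₀ hΛ
  have hΔ1 : 1 ≤ Δ := (hpw 1000).trans hΔ
  have hΔ0 : 0 < Δ := by linarith
  have hHm1 : 1 ≤ Hm := hz.trans hzH
  have hHm0 : 0 < Hm := by linarith
  have hMr : (0 : ℝ) < M := by exact_mod_cast hM
  have hNr : (0 : ℝ) < N := by exact_mod_cast hN
  have hN1 : (1 : ℝ) ≤ N := by exact_mod_cast hN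
  have hNMr : (N : ℝ) ≤ M := by exact_mod_cast hNM
  have hq := S.q0p
  have hqr : (1 : ℝ) ≤ q0 := by exact_mod_cast hq
  have hqr0 : (0 : ℝ) < q0 := by linarith
  have hΔ2 : (Λ ^ 1000) ^ 2 ≤ Δ ^ 2 := pow_le_pow_left₀ (by positivity) hΔ 2
  have hz10 : z ^ 10 * Λ ^ 3000 ≤ N := by
    calc z ^ 10 * Λ ^ 3000 = z ^ 6 * z ^ 4 * (Λ ^ 1000) ^ 2 * Λ ^ 1000 := by ring
      _ ≤ Hm ^ 6 * z ^ 4 * Δ ^ 2 * Λ ^ 1000 := by gcongr
      _ ≤ N := C2
  have hzN : z ≤ N := by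
    calc z ≤ z ^ 10 := le_self_pow₀ hz (by norm_num)
      _ = z ^ 10 * 1 := (mul_one _).symm
      _ ≤ z ^ 10 * Λ ^ 3000 := by have := hpw 3000; gcongr
      _ ≤ N := hz10
  have hLN : Λ ^ 1000 ≤ N := by
    calc Λ ^ 1000 ≤ Λ ^ 3000 := pow_le_pow_right₀ hΛ (by norm_num)
      _ = 1 * Λ ^ 3000 := (one_mul _).symm
      _ ≤ z ^ 10 * Λ ^ 3000 := by have : 1 ≤ z ^ 10 := one_le_pow₀ hz; gcongr
      _ ≤ N := hz10
  -- small ancestors
  have hYs : ∀ s : ℕ, ((q0 : ℝ) * s * Δ) ^ 2 ≤ X → (q0 : ℝ) * s ≤ Y := by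
    intro s hs
    have h1 := hs.trans hY
    have h2 : (q0 : ℝ) * s * Δ ≤ Y * Δ :=
      (abs_le_of_sq_le_sq' h1 (by positivity)).2
    exact le_of_mul_le_mul_right h2 hΔ0
  refine ⟨hq, S.sf, S.cc, fun t ht p hp hd => (S.pr t ht p hp hd).1, ?_, ?_⟩
  · intro t ht
    refine le_trans ?_ hPX
    refine le_trans ?_ (S.bd t ht)
    exact le_mul_of_one_le_left (Nat.cast_nonneg t) hqr
  · -- factorisations
    intro t ht ht1
    have ht0 := S.pos ht
    have htr : (0 : ℝ) < t := by exact_mod_cast ht0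
    by_cases hcase : (q0 : ℝ) * t * Δ ≤ N
    · -- small moduli: the last prime factor
      obtain ⟨hpD, p, hpp, hpt⟩ := S.tr t ht ht1
      have hpd : p ∣ t := ⟨par t, by rw [mul_comm]; exact hpt.symm⟩
      obtain ⟨hGp, hpz⟩ := S.pr t ht p hpp hpd
      have hGpr : (G : ℝ) ≤ p := by exact_mod_cast hGp.le
      have hp1 : (1 : ℝ) ≤ p := by exact_mod_cast hpp.one_lt.le
      have hp0 : (0 : ℝ) < p := by linarith
      have hΛp : Λ ^ 6 ≤ p := hΛG.trans hGpr
      have hmf : p.minFac = p := Nat.Prime.minFac_eq hpp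
      have hr1 : 0 < par t := S.pos hpD
      set r : ℝ := ((q0 * par t : ℕ) : ℝ) with hr
      have hr3 : (1 : ℝ) ≤ r := by
        rw [hr]
        exact_mod_cast Nat.mul_pos hq hr1
      have hr0 : 0 < r := by linarith
      have hrpΔ : r * p * Δ ≤ N := by
        refine le_trans (le_of_eq ?_) hcase
        have ht' : (t : ℝ) = (par t : ℝ) * p := by exact_mod_cast hpt.symm
        rw [hr, ht']
        push_cast
        ring
      have hrp : r * p * Λ ^ 1000 ≤ N := by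
        calc r * p * Λ ^ 1000 ≤ r * p * Δ := by gcongr
          _ ≤ N := hrpΔ
      have hcoh : ((q0 * par t : ℕ) : ℤ) ∣ A t - A (par t) := by
        apply S.co (par t) t (Ch.step t ht ht1 (Ch.refl hpD))
        apply hYs
        have h1 : (q0 : ℝ) * (par t : ℕ) * Δ ≤ N := by
          calc (q0 : ℝ) * (par t : ℕ) * Δ = r * 1 * Δ := by rw [hr]; push_cast; ring
            _ ≤ r * p * Δ := by gcongr
            _ ≤ N := hrpΔ
        calc ((q0 : ℝ) * (par t : ℕ) * Δ) ^ 2 ≤ (N : ℝ) ^ 2 := by gcongr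
          _ = (N : ℝ) * N := by ring
          _ ≤ (M : ℝ) * N := by gcongr
          _ ≤ X := hMX
      have hr2 : r ≤ N := by
        calc r = r * 1 * 1 := by ring
          _ ≤ r * p * Λ ^ 1000 := by have := hpw 1000; gcongr
          _ ≤ N := hrp
      have hrΛ : r * Λ ≤ N := by
        calc r * Λ = r * 1 * Λ := by ring
          _ ≤ r * p * Λ ^ 1000 := by
              have : Λ ≤ Λ ^ 1000 := le_self_pow₀ hΛ (by norm_num)
              gcongr
          _ ≤ N := hrp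
      have hpN : p ≤ N := by
        have : (p : ℝ) ≤ N := hpz.trans hzN
        exact_mod_cast this
      by_cases hc2 : r * (p : ℝ) ^ 2 * Λ ^ 1000 ≤ M
      · refine ⟨par t, 1, p, 1, hpD, ?_, ?_, ⟨rfl, ?_, ?_, 1, le_rfl, ?_, ?_, ?_, ?_, ?_, ?_⟩, hrΛ, hcoh, ?_⟩
        · simpa using hpt
        · simpa using hpp.one_lt.ne'
        · simpa using hpN
        · simpa using hpp.one_lt.ne'
        · rw [one_mul, mul_one, one_mul]
          calc r * (p : ℝ) ^ 2 = r * (p : ℝ) ^ 2 * 1 := (mul_one _).symm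
            _ ≤ r * (p : ℝ) ^ 2 * Λ ^ 1000 := by have := hpw 1000; gcongr
            _ ≤ M := hc2
        · rw [one_mul, mul_one, one_mul, hmf]
          calc Λ ^ 6 ≤ p := hΛp
            _ ≤ (p : ℝ) ^ 2 := le_self_pow₀ hp1 (by norm_num)
        · rw [Nat.cast_one, one_mul]; exact hc2
        · simp only [Nat.cast_one, one_pow, one_mul]; exact hLN
        · rw [one_pow, mul_one]
          calc r * (p : ℝ) ^ 2 * Λ ^ 1000 = (r * p * Λ ^ 1000) * p := by ring
            _ ≤ (N : ℝ) * N := by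
                have := hpz.trans hzN
                gcongr
            _ = (N : ℝ) ^ 2 := by ring
        · rw [one_pow, one_mul]
          calc Λ ^ 1002 ≤ (G : ℝ) ^ 2 := hG
            _ ≤ (p : ℝ) ^ 2 := by gcongr
            _ = 1 * (p : ℝ) ^ 2 := (one_mul _).symm
            _ ≤ r * (p : ℝ) ^ 2 := by gcongr
        · rw [hpt, sub_self]; exact dvd_zero _
      · rw [not_le] at hc2
        refine ⟨par t, 1, 1, p, hpD, ?_, ?_, ⟨rfl, ?_, ?_, p, hp1, ?_, ?_, ?_, ?_, ?_, ?_⟩, hrΛ, hcoh, ?_⟩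
        · simpa using hpt
        · simpa using hpp.one_lt.ne'
        · simpa using hpN
        · simpa using hpp.one_lt.ne'
        · rw [one_mul, one_mul]
          calc r * (p : ℝ) ^ 2 = (r * p * 1) * p := by ring
            _ ≤ (r * p * Λ ^ 1000) * p := by have := hpw 1000; gcongr
            _ ≤ (N : ℝ) * p := by gcongr
            _ ≤ M * p := by gcongr
            _ = p * M := mul_comm _ _
        · rw [one_mul, one_mul, hmf]
          calc (p : ℝ) * Λ ^ 6 ≤ p * p := by gcongr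
            _ = (p : ℝ) ^ 2 := by ring
        · simp only [Nat.cast_one, one_mul, one_pow, mul_one]
          calc r * Λ ^ 1000 = r * 1 * Λ ^ 1000 := by ring
            _ ≤ r * p * Λ ^ 1000 := by gcongr
            _ ≤ N := hrp
            _ ≤ M := hNMr
        · rw [Nat.cast_one, one_pow, one_mul]
          calc (p : ℝ) ^ 4 * (p : ℝ) ^ 4 * Λ ^ 1000 ≤ z ^ 4 * z ^ 4 * Λ ^ 1000 := by gcongr
            _ = z ^ 8 * Λ ^ 1000 := by ring
            _ ≤ z ^ 10 * Λ ^ 3000 := by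
                have h1 : z ^ 8 ≤ z ^ 10 := pow_le_pow_right₀ hz (by norm_num)
                have h2 : Λ ^ 1000 ≤ Λ ^ 3000 := pow_le_pow_right₀ hΛ (by norm_num)
                gcongr
            _ ≤ N := hz10
        · rw [Nat.cast_one, one_pow, mul_one]
          calc r * (p : ℝ) ^ 8 * Λ ^ 1000 ≤ r * z ^ 8 * Λ ^ 1000 := by gcongr
            _ = r * (z ^ 8 * Λ ^ 1000) := by ring
            _ ≤ N * (z ^ 10 * Λ ^ 3000) := by
                have h1 : z ^ 8 ≤ z ^ 10 := pow_le_pow_right₀ hz (by norm_num)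
                have h2 : Λ ^ 1000 ≤ Λ ^ 3000 := pow_le_pow_right₀ hΛ (by norm_num)
                gcongr
            _ ≤ N * N := by gcongr
            _ = (N : ℝ) ^ 2 := by ring
        · rw [Nat.cast_one, one_pow, mul_one]
          have h1 : ((p : ℝ) ^ 8 * Λ ^ 1002) * (z ^ 2 * Λ ^ 1000) ≤ r * (z ^ 2 * Λ ^ 1000) := by
            calc ((p : ℝ) ^ 8 * Λ ^ 1002) * (z ^ 2 * Λ ^ 1000) ≤ (z ^ 8 * Λ ^ 1002) * (z ^ 2 * Λ ^ 1000) := by gcongr
              _ = z ^ 10 * Λ ^ 2002 := by ring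
              _ ≤ z ^ 10 * Λ ^ 3000 := by
                  have h2 : Λ ^ 2002 ≤ Λ ^ 3000 := pow_le_pow_right₀ hΛ (by norm_num)
                  gcongr
              _ ≤ (N : ℝ) := hz10
              _ ≤ M := hNMr
              _ ≤ r * (p : ℝ) ^ 2 * Λ ^ 1000 := hc2.le
              _ ≤ r * z ^ 2 * Λ ^ 1000 := by gcongr
              _ = r * (z ^ 2 * Λ ^ 1000) := by ring
          exact le_of_mul_le_mul_right h1 (by positivity)
        · simp
    · -- large moduli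
      rw [not_le] at hcase
      have hY1 : ((1 : ℕ) : ℝ) ≤ N / (Δ * q0) := by
        rw [Nat.cast_one, one_le_div (by positivity)]
        linarith [hqN, mul_comm (q0 : ℝ) Δ]
      obtain ⟨t1, -, ht1c, ht1Y, ht1z⟩ := greedyT S (Ch.root S t ht) (N / (Δ * q0)) hY1
      have ht1D := ht1c.mem.1
      obtain ⟨w, hw⟩ := ht1c.dvd S
      rw [le_div_iff₀ (by positivity)] at ht1Y
      have ht1ne : t1 ≠ t := by
        rintro h
        rw [h] at ht1Y
        have : (t : ℝ) * (Δ * q0) = q0 * t * Δ := by ring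
        linarith
      obtain ⟨hz1, p1, s1, hp1p, hp1z, hs1t, hs1ne, hs1par, hs1p, hp1Y⟩ := ht1z.resolve_left ht1ne
      have ht1z' : (N : ℝ) < t1 * z * (Δ * q0) := by
        rwa [div_lt_iff₀ (by positivity)] at hz1
      have ht1p' : (N : ℝ) < t1 * p1 * (Δ * q0) := by
        rwa [div_lt_iff₀ (by positivity)] at hp1Y
      have ht10 : 0 < t1 := S.pos ht1D
      have ht1r : (0 : ℝ) < t1 := by exact_mod_cast ht10
      have hp1r : (0 : ℝ) < p1 := by exact_mod_cast hp1p.pos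
      have hw0 : 0 < w := Nat.pos_of_ne_zero (by rintro rfl; rw [mul_zero] at hw; omega)
      have hwr : (0 : ℝ) < w := by exact_mod_cast hw0
      have hw1 : w ≠ 1 := by
        rintro rfl
        rw [mul_one] at hw
        exact ht1ne hw.symm
      set r : ℝ := ((q0 * t1 : ℕ) : ℝ) with hr
      have hre : r = q0 * t1 := by rw [hr]; push_cast; ring
      have hr0 : 0 < r := by rw [hr]; exact_mod_cast Nat.mul_pos hq ht10
      have hrΔ : r * Δ ≤ N := by
        rw [hre]; linarith [ht1Y, (by ring : (t1 : ℝ) * (Δ * q0) = q0 * t1 * Δ)]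
      have hrN : r * Λ ^ 1000 ≤ N := by
        calc r * Λ ^ 1000 ≤ r * Δ := by gcongr
          _ ≤ N := hrΔ
      have hrz : (N : ℝ) < r * z * Δ := by
        rw [hre]
        have : (t1 : ℝ) * z * (Δ * q0) = q0 * t1 * z * Δ := by ring
        linarith
      have hrp1 : (N : ℝ) < r * p1 * Δ := by
        rw [hre]
        have : (t1 : ℝ) * p1 * (Δ * q0) = q0 * t1 * p1 * Δ := by ring
        linarith
      have hrw : r * w ≤ P := by
        refine le_trans (le_of_eq ?_) (S.bd t ht)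
        rw [hre, hw]
        push_cast
        ring
      -- the parameter `H`
      set H : ℝ := max 1 (r * (w : ℝ) ^ 2 / M) with hH
      have hH1 : 1 ≤ H := le_max_left _ _
      have hH0 : 0 < H := by linarith
      have hHw : r * (w : ℝ) ^ 2 ≤ H * M := by
        have := le_max_right 1 (r * (w : ℝ) ^ 2 / M)
        rwa [div_le_iff₀ hMr] at this
      have hHm : H ≤ Hm := by
        rw [hH]
        apply max_le hHm1
        rw [div_le_iff₀ hMr]
        have h1 : (r * (w : ℝ) ^ 2) * N ≤ (Hm * M) * N := by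
          calc (r * (w : ℝ) ^ 2) * N ≤ (r * (w : ℝ) ^ 2) * (r * z * Δ) := by gcongr
            _ = (r * w) ^ 2 * z * Δ := by ring
            _ ≤ P ^ 2 * z * Δ := by gcongr
            _ ≤ Hm * (M * N) := C1
            _ = _ := by ring
        exact le_of_mul_le_mul_right h1 hNr
      have hHΘ : H * Λ ^ 6 ≤ max (Λ ^ 6) (Θ * p1) := by
        rw [hH, max_mul_of_nonneg _ _ (by positivity), one_mul]
        apply max_le_max le_rfl
        have h1 : (r * (w : ℝ) ^ 2 / M * Λ ^ 6) * (M * N) ≤ (Θ * p1) * (M * N) := by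
          calc (r * (w : ℝ) ^ 2 / M * Λ ^ 6) * (M * N) = (r * (w : ℝ) ^ 2 * Λ ^ 6) * N := by field_simp
            _ ≤ (r * (w : ℝ) ^ 2 * Λ ^ 6) * (r * p1 * Δ) := by gcongr
            _ = (r * w) ^ 2 * Δ * Λ ^ 6 * p1 := by ring
            _ ≤ P ^ 2 * Δ * Λ ^ 6 * p1 := by gcongr
            _ ≤ Θ * (M * N) * p1 := by gcongr
            _ = _ := by ring
        exact le_of_mul_le_mul_right h1 (by positivity)
      have hmin : H * Λ ^ 6 ≤ (w.minFac : ℝ) ^ 2 := by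
        have hp' : (w.minFac).Prime := Nat.minFac_prime hw1
        have hpw' : w.minFac ∣ w := Nat.minFac_dvd w
        have hpt' : w.minFac ∣ t := hpw'.trans ⟨t1, by rw [hw]; ring⟩
        have hGm := (S.pr t ht _ hp' hpt').1
        have hGmr : (G : ℝ) ≤ w.minFac := by exact_mod_cast hGm.le
        have hm1 : (1 : ℝ) ≤ w.minFac := by exact_mod_cast hp'.one_lt.le
        refine hHΘ.trans (max_le ?_ ?_)
        · calc Λ ^ 6 ≤ (w.minFac : ℝ) := hΛG.trans hGmr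
            _ ≤ (w.minFac : ℝ) ^ 2 := le_self_pow₀ hm1 (by norm_num)
        · -- the ancestor with last prime factor `w.minFac`
          obtain ⟨w1, hw1e⟩ := hs1t.dvd S
          have e1 : w = p1 * w1 := by
            apply Nat.eq_of_mul_eq_mul_left ht10
            rw [← hw, hw1e, ← mul_assoc, ← hs1par, hs1p]
          rcases (hp'.dvd_mul).1 (show w.minFac ∣ p1 * w1 by rw [← e1]; exact hpw') with h3 | h3
          · have h4 : w.minFac = p1 := (Nat.prime_dvd_prime_iff_eq hp' hp1p).1 h3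
            rw [h4]
            exact S.an s1 s1 (Ch.refl hs1t.mem.1) hs1ne p1 p1 hs1p hs1p
          · obtain ⟨s', k1, k2, k3⟩ := hs1t.prs S w1 hw1e.symm _ hp' h3
            exact S.an s1 s' k1 hs1ne p1 _ hs1p k3
      have hwN : w ≤ N := by
        have h1 : (w : ℝ) * N ≤ N * N := by
          calc (w : ℝ) * N ≤ w * (r * z * Δ) := by gcongr
            _ = (r * w) * z * Δ := by ring
            _ ≤ P * z * Δ := by gcongr
            _ ≤ (N : ℝ) ^ 2 := C5
            _ = N * N := by ring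
        exact_mod_cast le_of_mul_le_mul_right h1 hNr
      -- the factor `e u`
      have hrM : r * Δ ≤ M := hrΔ.trans hNMr
      have hZ1 : 1 ≤ Real.sqrt (M / (r * Δ)) := by
        rw [Real.one_le_sqrt, one_le_div (by positivity)]
        exact hrM
      obtain ⟨d2, h1d2, hd2t, hd2Y, hd2z⟩ := greedyT S ht1c (t1 * Real.sqrt (M / (r * Δ)))
        (le_mul_of_one_le_right ht1r.le hZ1)
      obtain ⟨b, hb⟩ := h1d2.dvd S
      obtain ⟨v, hv⟩ := hd2t.dvd S
      have hd20 : 0 < d2 := S.pos hd2t.mem.1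
      have hb0 : 0 < b := Nat.pos_of_ne_zero (by rintro rfl; rw [mul_zero] at hb; omega)
      have hv0 : 0 < v := Nat.pos_of_ne_zero (by rintro rfl; rw [mul_zero] at hv; omega)
      have hbr : (0 : ℝ) < b := by exact_mod_cast hb0
      have hvr : (0 : ℝ) < v := by exact_mod_cast hv0
      have hv1 : (1 : ℝ) ≤ v := by exact_mod_cast hv0
      have hwbv : w = b * v := by
        have h1 : t1 * w = t1 * (b * v) := by rw [← hw, hv, hb]; ring
        exact Nat.eq_of_mul_eq_mul_left ht10 h1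
      have hbY : (b : ℝ) ≤ Real.sqrt (M / (r * Δ)) := by
        have h1 : (t1 : ℝ) * b ≤ t1 * Real.sqrt (M / (r * Δ)) := by
          refine le_trans (le_of_eq ?_) hd2Y
          rw [hb]; push_cast; ring
        exact le_of_mul_le_mul_left h1 ht1r
      have hb2Δ : r * (b : ℝ) ^ 2 * Δ ≤ M := by
        have h1 : (b : ℝ) ^ 2 ≤ M / (r * Δ) := by
          calc (b : ℝ) ^ 2 ≤ (Real.sqrt (M / (r * Δ))) ^ 2 := pow_le_pow_left₀ hbr.le hbY 2
            _ = M / (r * Δ) := Real.sq_sqrt (by positivity)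
        rw [le_div_iff₀ (by positivity)] at h1
        calc r * (b : ℝ) ^ 2 * Δ = (b : ℝ) ^ 2 * (r * Δ) := by ring
          _ ≤ (M : ℝ) := h1
      have hb2 : r * (b : ℝ) ^ 2 * Λ ^ 1000 ≤ M := by
        have h1 : r * (b : ℝ) ^ 2 * Λ ^ 1000 ≤ r * (b : ℝ) ^ 2 * Δ := by gcongr
        exact h1.trans hb2Δ
      have hvV : (v : ℝ) ^ 2 ≤ H * z ^ 2 * Δ := by
        rcases hd2z with h | ⟨h, -⟩
        · have : v = 1 := by
            rw [h] at hv
            exact Nat.eq_of_mul_eq_mul_left ht0 (by rw [mul_one]; exact hv.symm)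
          rw [this, Nat.cast_one, one_pow]
          exact one_le_mul_of_one_le_of_one_le (one_le_mul_of_one_le_of_one_le hH1 (one_le_pow₀ hz)) hΔ1
        · have h0 : Real.sqrt (M / (r * Δ)) < b * z := by
            have h1 : t1 * Real.sqrt (M / (r * Δ)) < t1 * (b * z) := by
              refine lt_of_lt_of_eq h ?_
              rw [hb]; push_cast; ring
            exact lt_of_mul_lt_mul_left h1 ht1r.le
          have h1 : M / (r * Δ) < (b * z) ^ 2 := by
            have := Real.sqrt_lt' (x := M / (r * Δ)) (by positivity : (0 : ℝ) < b * z)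
            exact this.1 h0
          rw [div_lt_iff₀ (by positivity)] at h1
          have h3 : (v : ℝ) ^ 2 * M ≤ (H * z ^ 2 * Δ) * M := by
            calc (v : ℝ) ^ 2 * M ≤ (v : ℝ) ^ 2 * ((b * z) ^ 2 * (r * Δ)) := by gcongr
              _ = (r * ((b * v : ℕ) : ℝ) ^ 2) * z ^ 2 * Δ := by push_cast; ring
              _ = (r * (w : ℝ) ^ 2) * z ^ 2 * Δ := by rw [hwbv]
              _ ≤ (H * M) * z ^ 2 * Δ := by gcongr
              _ = _ := by ring
          exact le_of_mul_le_mul_right h3 hMr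
      -- the factor `u`
      have hY2 : 1 ≤ Real.sqrt ((N : ℝ) ^ 2 / (r * H ^ 8 * Λ ^ 1000)) := by
        rw [Real.one_le_sqrt, one_le_div (by positivity)]
        have h1 : r ≤ N := (le_mul_of_one_le_right hr0.le (hpw 1000)).trans hrN
        have h2 : H ^ 8 * Λ ^ 1000 ≤ N := by
          calc H ^ 8 * Λ ^ 1000 ≤ Hm ^ 8 * Λ ^ 1002 := by
                have : Λ ^ 1000 ≤ Λ ^ 1002 := pow_le_pow_right₀ hΛ (by norm_num)
                gcongr
            _ = Hm ^ 8 * Λ ^ 1002 * 1 * 1 := by ring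
            _ ≤ Hm ^ 8 * Λ ^ 1002 * Δ * z := by gcongr
            _ ≤ N := C4
        calc r * H ^ 8 * Λ ^ 1000 = r * (H ^ 8 * Λ ^ 1000) := by ring
          _ ≤ (N : ℝ) * N := by gcongr
          _ = (N : ℝ) ^ 2 := by ring
      obtain ⟨d3, h1d3, hd3d2, hd3Y, hd3z⟩ := greedyT S h1d2 (t1 * Real.sqrt ((N : ℝ) ^ 2 / (r * H ^ 8 * Λ ^ 1000)))
        (le_mul_of_one_le_right ht1r.le hY2)
      obtain ⟨u, hu⟩ := h1d3.dvd S
      obtain ⟨e, he⟩ := hd3d2.dvd S
      have hd30 : 0 < d3 := S.pos hd3d2.mem.1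
      have hu0 : 0 < u := Nat.pos_of_ne_zero (by rintro rfl; rw [mul_zero] at hu; omega)
      have he0 : 0 < e := Nat.pos_of_ne_zero (by rintro rfl; rw [mul_zero] at he; omega)
      have hur : (0 : ℝ) < u := by exact_mod_cast hu0
      have hu1 : (1 : ℝ) ≤ u := by exact_mod_cast hu0
      have her : (0 : ℝ) < e := by exact_mod_cast he0
      have he1 : (1 : ℝ) ≤ e := by exact_mod_cast he0
      have hbue : b = u * e := by
        have h1 : t1 * b = t1 * (u * e) := by rw [← hb, he, hu]; ring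
        exact Nat.eq_of_mul_eq_mul_left ht10 h1
      have huY : (u : ℝ) ≤ Real.sqrt ((N : ℝ) ^ 2 / (r * H ^ 8 * Λ ^ 1000)) := by
        have h1 : (t1 : ℝ) * u ≤ t1 * Real.sqrt ((N : ℝ) ^ 2 / (r * H ^ 8 * Λ ^ 1000)) := by
          refine le_trans (le_of_eq ?_) hd3Y
          rw [hu]; push_cast; ring
        exact le_of_mul_le_mul_left h1 ht1r
      have hu2 : r * (u : ℝ) ^ 2 * H ^ 8 * Λ ^ 1000 ≤ (N : ℝ) ^ 2 := by
        have h1 : (u : ℝ) ^ 2 ≤ (N : ℝ) ^ 2 / (r * H ^ 8 * Λ ^ 1000) := by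
          calc (u : ℝ) ^ 2 ≤ (Real.sqrt ((N : ℝ) ^ 2 / (r * H ^ 8 * Λ ^ 1000))) ^ 2 := pow_le_pow_left₀ hur.le huY 2
            _ = _ := Real.sq_sqrt (by positivity)
        rw [le_div_iff₀ (by positivity)] at h1
        calc r * (u : ℝ) ^ 2 * H ^ 8 * Λ ^ 1000 = (u : ℝ) ^ 2 * (r * H ^ 8 * Λ ^ 1000) := by ring
          _ ≤ _ := h1
      have hbe : (b : ℝ) = u * e := by rw [hbue]; push_cast; ring
      have hweuv : e * u * v = w := by rw [hwbv, hbue]; ring
      have hv4 : (v : ℝ) ^ 4 ≤ (H * z ^ 2 * Δ) ^ 2 := by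
        calc (v : ℝ) ^ 4 = ((v : ℝ) ^ 2) ^ 2 := by ring
          _ ≤ _ := by gcongr
      -- coherence
      have hco1 : ((q0 * t1 : ℕ) : ℤ) ∣ A t - A t1 := by
        apply S.co t1 t ht1c
        apply hYs
        have h1 : (q0 : ℝ) * t1 * Δ ≤ N := by rw [← hre]; exact hrΔ
        calc ((q0 : ℝ) * t1 * Δ) ^ 2 ≤ (N : ℝ) ^ 2 := by gcongr
          _ = (N : ℝ) * N := by ring
          _ ≤ (M : ℝ) * N := by gcongr
          _ ≤ X := hMX
      have hco3 : ((q0 * d3 : ℕ) : ℤ) ∣ A t - A d3 := by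
        apply S.co d3 t (hd3d2.trans hd2t)
        apply hYs
        have h1 : (q0 : ℝ) * d3 * Δ = r * u * Δ := by
          rw [hre, hu]; push_cast; ring
        rw [h1]
        calc (r * u * Δ) ^ 2 = (r * ((u : ℝ) * 1) ^ 2 * Δ) * (r * Δ) := by ring
          _ ≤ (r * ((u : ℝ) * e) ^ 2 * Δ) * (r * Δ) := by gcongr
          _ = (r * (b : ℝ) ^ 2 * Δ) * (r * Δ) := by rw [hbe]
          _ ≤ (M : ℝ) * N := by gcongr
          _ ≤ X := hMX
      refine ⟨t1, e, u, v, ht1D, ?_, ?_, ⟨rfl, ?_, ?_, H, hH1, ?_, ?_, ?_, ?_, hu2, ?_⟩, ?_, hco1, ?_⟩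
      · rw [hweuv, hw]
      · rw [hweuv]; exact hw1
      · rw [hweuv]; exact hwN
      · rw [hweuv]; exact hw1
      · rw [hweuv]; exact hHw
      · rw [hweuv]; exact hmin
      · refine le_trans (le_of_eq ?_) hb2
        rw [hbe]
        ring
      · -- p2
        rcases hd3z with h | ⟨h, -⟩
        · have : e = 1 := by
            rw [h] at he
            exact Nat.eq_of_mul_eq_mul_left hd20 (by rw [mul_one]; exact he.symm)
          rw [this, Nat.cast_one, one_pow, one_mul]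
          calc (v : ℝ) ^ 4 * H ^ 4 * Λ ^ 1000 ≤ (H * z ^ 2 * Δ) ^ 2 * H ^ 4 * Λ ^ 1000 := by gcongr
            _ = H ^ 6 * z ^ 4 * Δ ^ 2 * Λ ^ 1000 := by ring
            _ ≤ Hm ^ 6 * z ^ 4 * Δ ^ 2 * Λ ^ 1000 := by gcongr
            _ ≤ N := C2
        · have h0 : Real.sqrt ((N : ℝ) ^ 2 / (r * H ^ 8 * Λ ^ 1000)) < u * z := by
            have h1 : t1 * Real.sqrt ((N : ℝ) ^ 2 / (r * H ^ 8 * Λ ^ 1000)) < t1 * (u * z) := by
              refine lt_of_lt_of_eq h ?_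
              rw [hu]; push_cast; ring
            exact lt_of_mul_lt_mul_left h1 ht1r.le
          have h1 : (N : ℝ) ^ 2 / (r * H ^ 8 * Λ ^ 1000) < (u * z) ^ 2 := by
            have := Real.sqrt_lt' (x := (N : ℝ) ^ 2 / (r * H ^ 8 * Λ ^ 1000)) (by positivity : (0 : ℝ) < u * z)
            exact this.1 h0
          rw [div_lt_iff₀ (by positivity)] at h1
          have h2 : r * ((u : ℝ) * e) ^ 2 * Δ ≤ M := by rw [← hbe]; exact hb2Δ
          have h3 : ((e : ℝ) ^ 2 * v ^ 4 * H ^ 4 * Λ ^ 1000) * ((N : ℝ) ^ 2 * Δ) ≤ N * ((N : ℝ) ^ 2 * Δ) := by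
            calc ((e : ℝ) ^ 2 * v ^ 4 * H ^ 4 * Λ ^ 1000) * ((N : ℝ) ^ 2 * Δ)
                ≤ ((e : ℝ) ^ 2 * v ^ 4 * H ^ 4 * Λ ^ 1000) * (((u * z) ^ 2 * (r * H ^ 8 * Λ ^ 1000)) * Δ) := by gcongr
              _ = (r * ((u : ℝ) * e) ^ 2 * Δ) * z ^ 2 * H ^ 12 * Λ ^ 2000 * (v : ℝ) ^ 4 := by ring
              _ ≤ (M : ℝ) * z ^ 2 * H ^ 12 * Λ ^ 2000 * (H * z ^ 2 * Δ) ^ 2 := by gcongr
              _ = ((M : ℝ) * z ^ 6 * H ^ 14 * Δ * Λ ^ 2000) * Δ := by ring
              _ ≤ ((M : ℝ) * z ^ 6 * Hm ^ 14 * Δ * Λ ^ 2000) * Δ := by gcongr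
              _ ≤ (N : ℝ) ^ 3 * Δ := by gcongr
              _ = N * ((N : ℝ) ^ 2 * Δ) := by ring
          exact le_of_mul_le_mul_right h3 (by positivity)
      · -- p4
        have h1 : (H ^ 8 * Λ ^ 1002) * (z * Δ) ≤ r * (z * Δ) := by
          calc (H ^ 8 * Λ ^ 1002) * (z * Δ) = H ^ 8 * Λ ^ 1002 * Δ * z := by ring
            _ ≤ Hm ^ 8 * Λ ^ 1002 * Δ * z := by gcongr
            _ ≤ (N : ℝ) := C4
            _ ≤ r * z * Δ := hrz.le
            _ = r * (z * Δ) := by ring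
        have h2 : H ^ 8 * Λ ^ 1002 ≤ r := le_of_mul_le_mul_right h1 (by positivity)
        refine h2.trans ?_
        exact le_mul_of_one_le_right hr0.le (one_le_pow₀ hu1)
      · calc r * Λ ≤ r * Λ ^ 1000 := by
              have : Λ ≤ Λ ^ 1000 := le_self_pow₀ hΛ (by norm_num)
              gcongr
          _ ≤ N := hrN
      · rw [← hu]
        have h1 : (u : ℤ) ∣ ((q0 * d3 : ℕ) : ℤ) := Int.natCast_dvd_natCast.2 ⟨q0 * t1, by rw [hu]; ring⟩
        exact h1.trans hco3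

end

end Pool.Agent.R503.T
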