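import Mathlib
import Pool.Agent.R503.T.Cut
import Pool.Agent.R503.N.Blo

/-! Blocks for systems of classes (helper503). -/

open Finset

namespace Pool.Agent.R503.T

open Pool.Agent.Y826.Z Pool.Agent.Y826.Z.OB Pool.Agent.R503.N

/-- parameters -/
structure Env2 (x : ℕ) (Λ ℓ C Qm z P Θ Y Δ Hm W : ℝ) (G R R0 U k L B1 : ℕ) : Prop where
  E : EnvX x Λ ℓ C
  hz : 1 ≤ z
  hzH : z ≤ Hm
  hΛG6 : Λ ^ 6 ≤ G
  hG : Λ ^ 1002 ≤ (G : ℝ) ^ 2
  hG2 : 2 ≤ G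
  hΛG : Λ ≤ G
  hU : 0 < U
  hΔ : Λ ^ 1000 ≤ Δ
  hQU : Qm * Δ ≤ U
  hY0 : 0 ≤ Y
  hY : (x : ℝ) ≤ (Y * Δ) ^ 2
  hΘ0 : 0 ≤ Θ
  C0 : P ^ 2 * Δ * Λ ^ 6 ≤ Θ * (B1 / 4)
  C1 : P ^ 2 * z * Δ ≤ Hm * (B1 / 4)
  C2 : Hm ^ 6 * z ^ 4 * Δ ^ 2 * Λ ^ 1000 ≤ U
  C3 : x * z ^ 6 * Hm ^ 14 * Δ * Λ ^ 2000 ≤ (U : ℝ) ^ 4
  C4 : Hm ^ 8 * Λ ^ 1002 * Δ * z ≤ U
  C5 : P * z * Δ ≤ (U : ℝ) ^ 2
  hP0 : 0 ≤ P
  hPX : P ≤ (x : ℝ) ^ 10
  hR : 16 * (x : ℝ) < Λ ^ R
  hR0 : 0 < R0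
  hk : P < (G : ℝ) ^ (k + 1)
  hW1 : ((x - x * R0 / (R0 + 1) : ℕ) : ℝ) ≤ W
  hW2 : (B1 : ℝ) ≤ W
  hW3 : ((U * U * U : ℕ) : ℝ) ≤ W
  hU3 : U * U * U ≤ x
  hL : x ≤ U * 2 ^ L
  hL2 : (L : ℝ) ≤ ℓ

/-- the constant of the bilinear bound -/
noncomputable def KT (Λ ℓ : ℝ) (R : ℕ) : ℝ := (R : ℝ) ^ 4 * (ℓ * Real.sqrt (44 * ℓ ^ 7 * Λ⁻¹))

/-- the bound for a block -/
noncomputable def BT (x : ℕ) (Λ ℓ P W : ℝ) (R R0 k q0 : ℕ) : ℝ :=
  R0 * (k * (ℓ ^ 2) ^ k * KT Λ ℓ R * (x / q0)) + ℓ ^ 3 * (2 * ℓ ^ 2 * (W / q0 + 1) + P / q0)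

section
variable {x : ℕ} {Λ ℓ C Qm z P Θ Y Δ Hm W : ℝ} {G R R0 U k L B1 : ℕ} {q0 : ℕ} {par : ℕ → ℕ} {A : ℕ → ℤ} {D : Set ℕ}

lemma card_T' (S : Sys q0 G z P Θ Y par A D) (hP : 0 ≤ P) (T : Finset ℕ) (hT : ∀ t ∈ T, t ∈ D) :
    (T.card : ℝ) ≤ P / q0 := by
  have hq := S.q0p
  have hqr : (0 : ℝ) < q0 := by exact_mod_cast hq
  have h1 : T ⊆ Icc 1 ⌊P / q0⌋₊ := by
    intro t ht
    rw [mem_Icc]
    refine ⟨S.pos (hT t ht), Nat.le_floor ?_⟩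
    rw [le_div_iff₀ hqr, mul_comm]
    exact S.bd t (hT t ht)
  have h2 := card_le_card h1
  rw [Nat.card_Icc, Nat.add_sub_cancel] at h2
  calc (T.card : ℝ) ≤ (⌊P / q0⌋₊ : ℝ) := by exact_mod_cast h2
    _ ≤ _ := Nat.floor_le (by positivity)

variable (h : Env2 x Λ ℓ C Qm z P Θ Y Δ Hm W G R R0 U k L B1)
include h

lemma KT_nonneg : 0 ≤ KT Λ ℓ R := by
  unfold KT
  have := h.E.l1
  positivity

lemma W_nonneg : 0 ≤ W := le_trans (Nat.cast_nonneg _) h.hW3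

lemma card_pf (S : Sys q0 G z P Θ Y par A D) {t : ℕ} (ht : t ∈ D) : t.primeFactors.card ≤ k := by
  have hq := S.q0p
  have h0 := S.pos ht
  have hsf : Squarefree t := (Nat.squarefree_mul_iff.1 (S.sf t ht)).2.2
  have h1 : G ^ t.primeFactors.card ≤ t := by
    calc G ^ t.primeFactors.card ≤ ∏ p ∈ t.primeFactors, p :=
          pow_card_le_prod _ _ _ (fun p hp => (S.pr t ht p (Nat.prime_of_mem_primeFactors hp)
            (Nat.dvd_of_mem_primeFactors hp)).1.le)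
      _ = t := Nat.prod_primeFactors_of_squarefree hsf
  have hqr : (1 : ℝ) ≤ q0 := by exact_mod_cast hq
  have h2 : (G : ℝ) ^ t.primeFactors.card < (G : ℝ) ^ (k + 1) := by
    calc (G : ℝ) ^ t.primeFactors.card ≤ t := by exact_mod_cast h1
      _ ≤ q0 * t := le_mul_of_one_le_left (Nat.cast_nonneg t) hqr
      _ ≤ P := S.bd t ht
      _ < _ := h.hk
  have h3 : (1 : ℝ) < G := by
    have := h.hG2
    exact_mod_cast (by omega : 1 < G)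
  have := (pow_lt_pow_iff_right₀ h3).1 h2
  omega

/-- the trivial bound -/
lemma tb2 (S : Sys q0 G z P Θ Y par A D) (T : Finset ℕ) (hT : ∀ t ∈ T, t ∈ D) (A' B : ℕ)
    (hAB : ((B - A' : ℕ) : ℝ) ≤ W) :
    ∑ t ∈ T, ∑ n ∈ Ioc A' B, |ww q0 (A t) t n| ≤ 2 * ℓ ^ 2 * (W / q0 + 1) + P / q0 := by
  have hq := S.q0p
  have hE := h.E
  have hX := hE.hX
  have hqr : (1 : ℝ) ≤ q0 := by exact_mod_cast hq
  have hY : 1 ≤ ⌊(x : ℝ) ^ 10⌋₊ := Nat.floor_pos.2 (one_le_pow₀ (by linarith))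
  have hYr : ((⌊(x : ℝ) ^ 10⌋₊ : ℕ) : ℝ) ≤ (x : ℝ) ^ 10 := Nat.floor_le (by positivity)
  have h1 := tbT q0 A ℓ ⌊(x : ℝ) ^ 10⌋₊ T A' B hq hE.l1 (fun t ht => ⟨S.pos (hT t ht), Nat.le_floor (by
    refine le_trans ?_ h.hPX
    exact (le_mul_of_one_le_left (Nat.cast_nonneg t) hqr).trans (S.bd t (hT t ht))),
    (Nat.squarefree_mul_iff.1 (S.sf t (hT t ht))).1⟩)
    (fun n hn hnY => by
      have h1 := hE.ht n hn ((Nat.cast_le.2 hnY).trans hYr)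
      calc tau n = tau n ^ 1 := (pow_one _).symm
        _ ≤ tau n ^ 3 := pow_le_pow_right₀ (tau_ge_one hn) (by norm_num)
        _ ≤ ℓ := h1)
    (by
      refine le_trans ?_ hE.hl
      have := Real.log_le_log (by exact_mod_cast hY : (0 : ℝ) < (⌊(x : ℝ) ^ 10⌋₊ : ℕ)) hYr
      linarith)
  refine h1.trans ?_
  have h2 := card_T' S h.hP0 T hT
  have hq0 : (0 : ℝ) < q0 := by linarith
  have hℓ := hE.l1
  gcongr

/-- a block with the longer variable first -/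
lemma blk_main (S : Sys q0 G z P Θ Y par A D) (hqQ : (q0 : ℝ) ≤ Qm) (T : Finset ℕ)
    (hT : ∀ t ∈ T, t ∈ D) (M N : ℕ) (hUN : U ≤ N) (hNM : N ≤ M) (hMN : M * N ≤ x)
    (hB : B1 ≤ 4 * (M * N)) (α β : ℕ → ℝ)
    (hα : ∀ m ∈ Ioc M (2 * M), |α m| ≤ ℓ) (hβ : ∀ n ∈ Ioc N (2 * N), |β n| ≤ ℓ) :
    ∑ t ∈ T, |cb x M N α β (A t) q0 t| ≤ BT x Λ ℓ P W R R0 k q0 := by
  have hq := S.q0p
  have hE := h.E
  have hN0 : 0 < N := lt_of_lt_of_le h.hU hUN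
  have hM0 : 0 < M := lt_of_lt_of_le hN0 hNM
  have hNr : (0 : ℝ) < N := by exact_mod_cast hN0
  have hMr : (0 : ℝ) < M := by exact_mod_cast hM0
  have hMNr : (M : ℝ) * N ≤ x := by exact_mod_cast hMN
  have hUNr : (U : ℝ) ≤ N := by exact_mod_cast hUN
  have hX := hE.hX
  have hx0 : (0 : ℝ) < x := by linarith
  have hΛ1 : 1 ≤ Λ := by linarith [hE.hΛ]
  have hz0 : 0 ≤ z := by linarith [h.hz]
  have hH0 : 0 ≤ Hm := hz0.trans h.hzH
  have hℓ1 := hE.l1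
  have hq0 : (0 : ℝ) < q0 := by exact_mod_cast hq
  have hΔ0 : 0 < Δ := lt_of_lt_of_le (by positivity) h.hΔ
  have hB1 : (B1 : ℝ) / 4 ≤ M * N := by
    rw [div_le_iff₀ (by norm_num)]
    have : (B1 : ℝ) ≤ ((4 * (M * N) : ℕ) : ℝ) := by exact_mod_cast hB
    push_cast at this
    linarith
  have F := fam_mk x Λ Hm Δ M N S hΛ1 h.hz h.hzH h.hΛG6 h.hG hM0 hN0 hNM h.hΔ
    (by
      have h1 : (q0 : ℝ) * Δ ≤ Qm * Δ := by gcongr
      exact (h1.trans h.hQU).trans hUNr)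
    hMNr h.hY0 h.hY
    (h.C0.trans (mul_le_mul_of_nonneg_left hB1 h.hΘ0))
    (h.C1.trans (mul_le_mul_of_nonneg_left hB1 hH0))
    (h.C2.trans hUNr)
    (by
      have h1 : (M * z ^ 6 * Hm ^ 14 * Δ * Λ ^ 2000) * N ≤ (N : ℝ) ^ 3 * N := by
        calc (M * z ^ 6 * Hm ^ 14 * Δ * Λ ^ 2000) * N = (M * N) * z ^ 6 * Hm ^ 14 * Δ * Λ ^ 2000 := by ring
          _ ≤ x * z ^ 6 * Hm ^ 14 * Δ * Λ ^ 2000 := by gcongr
          _ ≤ (U : ℝ) ^ 4 := h.C3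
          _ ≤ (N : ℝ) ^ 4 := by gcongr
          _ = (N : ℝ) ^ 3 * N := by ring
      exact le_of_mul_le_mul_right h1 hNr)
    (h.C4.trans hUNr)
    (h.C5.trans (by gcongr))
    h.hPX
  have hK : (R : ℝ) ^ 4 * (ℓ * Real.sqrt (44 * ℓ ^ 7 * Λ⁻¹)) ≤ KT Λ ℓ R := le_rfl
  have hK0 := KT_nonneg h
  have htel := tel hE q0 M N G R A D hM0 hN0 (by linarith) F (by have := h.hG2; omega) h.hΛG
    h.hR (KT Λ ℓ R) hK k
  have hcut := cutT x M N R0 α β A q0 ℓ (k * (ℓ ^ 2) ^ k * KT Λ ℓ R * (x / q0)) T hN0 h.hR0 (by linarith) hα hβ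
    (fun α' β' hα' hβ' => by
      refine (htel T α' β' hT (fun t ht => card_pf h S (hT t ht)) hα' hβ').trans ?_
      gcongr)
    (fun n hn hle => hE.ht n hn (by
      have h1 : (n : ℝ) ≤ ((4 * M * N : ℕ) : ℝ) := by exact_mod_cast hle
      push_cast at h1
      have := hE.bigX
      linarith))
  refine hcut.trans ?_
  unfold BT
  have h2 := tb2 h S T hT (x * R0 / (R0 + 1)) x h.hW1
  gcongr

/-- a block -/
lemma blk_le (S : Sys q0 G z P Θ Y par A D) (hqQ : (q0 : ℝ) ≤ Qm) (T : Finset ℕ)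
    (hT : ∀ t ∈ T, t ∈ D) (y : ℕ) (hy : y = x ∨ y = U * U * U) (M N : ℕ) (hUM : U ≤ M) (hUN : U ≤ N)
    (α β : ℕ → ℝ)
    (hα : ∀ m ∈ Ioc M (2 * M), |α m| ≤ ℓ) (hβ : ∀ n ∈ Ioc N (2 * N), |β n| ≤ ℓ) :
    ∑ t ∈ T, |cb y M N α β (A t) q0 t| ≤ BT x Λ ℓ P W R R0 k q0 := by
  have hq := S.q0p
  have hE := h.E
  have hℓ1 := hE.l1
  have hq0 : (0 : ℝ) < q0 := by exact_mod_cast hq
  have hX := hE.hX
  have hK0 := KT_nonneg h
  have hW0 := W_nonneg h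
  have hP0 := h.hP0
  have hBB : ℓ ^ 3 * (2 * ℓ ^ 2 * (W / q0 + 1) + P / q0) ≤ BT x Λ ℓ P W R R0 k q0 := by
    unfold BT
    have : 0 ≤ (R0 : ℝ) * (k * (ℓ ^ 2) ^ k * KT Λ ℓ R * (x / q0)) := by positivity
    linarith
  by_cases hz : y ≤ M * N
  · have : ∑ t ∈ T, |cb y M N α β (A t) q0 t| = 0 :=
      sum_eq_zero fun t _ => by rw [cb_zero y M N α β (A t) q0 t hz, abs_zero]
    rw [this]
    exact le_trans (by positivity) hBB
  rw [not_le] at hz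
  have hyx : y ≤ x := by
    rcases hy with h1 | h1
    · exact h1.le
    · rw [h1]; exact h.hU3
  have hτ : ∀ n : ℕ, n ≠ 0 → n ≤ 4 * M * N → tau n ^ 3 ≤ ℓ := fun n hn hle => hE.ht n hn (by
      have h1 : (n : ℝ) ≤ ((4 * M * N : ℕ) : ℝ) := by exact_mod_cast hle
      have h2 : (4 * M * N : ℕ) ≤ 4 * x := by
        calc 4 * M * N = 4 * (M * N) := by ring
          _ ≤ 4 * x := Nat.mul_le_mul_left 4 (hz.le.trans hyx)
      have h3 : ((4 * M * N : ℕ) : ℝ) ≤ ((4 * x : ℕ) : ℝ) := by exact_mod_cast h2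
      push_cast at h1 h3
      have := hE.bigX
      linarith)
  rcases hy with hy | hy
  · subst hy
    by_cases hB : B1 ≤ 4 * (M * N)
    · rcases le_total N M with hNM | hNM
      · exact blk_main h S hqQ T hT M N hUN hNM hz.le hB α β hα hβ
      · simp only [cb_swap _ M N]
        exact blk_main h S hqQ T hT N M hUM hNM (by rw [mul_comm]; exact hz.le) (by rw [mul_comm N M]; exact hB)
          β α hβ hα
    · refine (cb_trivT y M N α β A q0 ℓ T (by linarith) hα hβ hτ B1 (Or.inr (by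
        rw [mul_assoc]; omega))).trans ?_
      refine le_trans ?_ hBB
      have := tb2 h S T hT 0 B1 (by rw [Nat.sub_zero]; exact h.hW2)
      gcongr
  · subst hy
    refine (cb_trivT (U * U * U) M N α β A q0 ℓ T (by linarith) hα hβ hτ (U * U * U) (Or.inl le_rfl)).trans ?_
    refine le_trans ?_ hBB
    have := tb2 h S T hT 0 (U * U * U) (by rw [Nat.sub_zero]; exact h.hW3)
    gcongr

/-- all blocks -/
lemma blks (S : Sys q0 G z P Θ Y par A D) (hqQ : (q0 : ℝ) ≤ Qm) (T : Finset ℕ)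
    (hT : ∀ t ∈ T, t ∈ D) (y : ℕ) (hy : y = x ∨ y = U * U * U) (α β : ℕ → ℝ)
    (hα : ∀ m : ℕ, 0 < m → (m : ℝ) ≤ (x : ℝ) ^ 10 → |α m| ≤ ℓ)
    (hβ : ∀ m : ℕ, 0 < m → (m : ℝ) ≤ (x : ℝ) ^ 10 → |β m| ≤ ℓ) :
    ∑ t ∈ T, |∑ m ∈ Ioc U x, ∑ n ∈ Ioc U x, ind (m * n ≤ y) * (α m * β n * ww q0 (A t) t (m * n))| ≤
      L ^ 2 * BT x Λ ℓ P W R R0 k q0 := by
  have hq := S.q0p
  have hE := h.E
  have hX := hE.hX
  have hyx : y ≤ x := by
    rcases hy with h1 | h1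
    · exact h1.le
    · rw [h1]; exact h.hU3
  have hU := h.hU
  have e1 : ∀ t, ∑ m ∈ Ioc U x, ∑ n ∈ Ioc U x, ind (m * n ≤ y) * (α m * β n * ww q0 (A t) t (m * n)) =
      ∑ i ∈ range L, ∑ j ∈ range L, cb y (U * 2 ^ i) (U * 2 ^ j) α β (A t) q0 t := by
    intro t
    have hsub : Ioc U x ⊆ Ioc U (U * 2 ^ L) := Ioc_subset_Ioc_right h.hL
    have e2 : ∀ m, 0 < m → ∑ n ∈ Ioc U x, ind (m * n ≤ y) * (α m * β n * ww q0 (A t) t (m * n)) =
        ∑ n ∈ Ioc U (U * 2 ^ L), ind (m * n ≤ y) * (α m * β n * ww q0 (A t) t (m * n)) := by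
      intro m hm
      apply sum_subset hsub
      intro n hn hn'
      have h1 : ¬ (m * n ≤ y) := by
        rw [mem_Ioc] at hn hn'
        have h2 : n ≤ m * n := Nat.le_mul_of_pos_left n hm
        omega
      rw [ind_false h1, zero_mul]
    have e3 : ∑ m ∈ Ioc U x, ∑ n ∈ Ioc U x, ind (m * n ≤ y) * (α m * β n * ww q0 (A t) t (m * n)) =
        ∑ m ∈ Ioc U (U * 2 ^ L), ∑ n ∈ Ioc U (U * 2 ^ L), ind (m * n ≤ y) * (α m * β n * ww q0 (A t) t (m * n)) := by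
      rw [sum_congr rfl (fun m hm => e2 m (by rw [mem_Ioc] at hm; omega))]
      apply sum_subset hsub
      intro m hm hm'
      apply sum_eq_zero
      intro n hn
      have h1 : ¬ (m * n ≤ y) := by
        rw [mem_Ioc] at hn hm hm'
        have h2 : m ≤ m * n := Nat.le_mul_of_pos_right m (by omega)
        omega
      rw [ind_false h1, zero_mul]
    rw [e3, dyad]
    refine sum_congr rfl fun i _ => ?_
    have e4 : ∀ m ∈ Ioc (U * 2 ^ i) (2 * (U * 2 ^ i)),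
        ∑ n ∈ Ioc U (U * 2 ^ L), ind (m * n ≤ y) * (α m * β n * ww q0 (A t) t (m * n)) =
        ∑ j ∈ range L, ∑ n ∈ Ioc (U * 2 ^ j) (2 * (U * 2 ^ j)), ind (m * n ≤ y) * (α m * β n * ww q0 (A t) t (m * n)) :=
      fun m _ => dyad U L _
    rw [sum_congr rfl e4, sum_comm]
    rfl
  simp only [e1]
  calc ∑ t ∈ T, |∑ i ∈ range L, ∑ j ∈ range L, cb y (U * 2 ^ i) (U * 2 ^ j) α β (A t) q0 t|
      ≤ ∑ t ∈ T, ∑ i ∈ range L, ∑ j ∈ range L, |cb y (U * 2 ^ i) (U * 2 ^ j) α β (A t) q0 t| :=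
        sum_le_sum fun t _ => (abs_sum_le_sum_abs _ _).trans (sum_le_sum fun i _ => abs_sum_le_sum_abs _ _)
    _ = ∑ i ∈ range L, ∑ j ∈ range L, ∑ t ∈ T, |cb y (U * 2 ^ i) (U * 2 ^ j) α β (A t) q0 t| := by
        rw [sum_comm]
        refine sum_congr rfl fun i _ => ?_
        rw [sum_comm]
    _ ≤ ∑ i ∈ range L, ∑ j ∈ range L, BT x Λ ℓ P W R R0 k q0 := by
        refine sum_le_sum fun i _ => sum_le_sum fun j _ => ?_
        have hUi : ∀ i : ℕ, U ≤ U * 2 ^ i := fun i => Nat.le_mul_of_pos_right U (by positivity)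
        -- blocks beyond `x` vanish
        by_cases hbig : U * 2 ^ i ≤ x ∧ U * 2 ^ j ≤ x
        · have hr : ∀ i : ℕ, U * 2 ^ i ≤ x → ∀ m ∈ Ioc (U * 2 ^ i) (2 * (U * 2 ^ i)),
              0 < m ∧ (m : ℝ) ≤ (x : ℝ) ^ 10 := by
            intro i hi m hm
            rw [mem_Ioc] at hm
            refine ⟨by omega, ?_⟩
            have h1 : (m : ℝ) ≤ ((2 * x : ℕ) : ℝ) := by exact_mod_cast (by omega : m ≤ 2 * x)
            push_cast at h1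
            have := hE.bigX
            linarith
          exact blk_le h S hqQ T hT y hy _ _ (hUi i) (hUi j) α β
            (fun m hm => hα m (hr i hbig.1 m hm).1 (hr i hbig.1 m hm).2)
            (fun m hm => hβ m (hr j hbig.2 m hm).1 (hr j hbig.2 m hm).2)
        · have hz : y ≤ U * 2 ^ i * (U * 2 ^ j) := by
            rw [not_and_or, not_le, not_le] at hbig
            have h1 : 0 < U * 2 ^ i := by positivity
            have h2 : 0 < U * 2 ^ j := by positivity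
            rcases hbig with hb | hb
            · calc y ≤ U * 2 ^ i := by omega
                _ ≤ U * 2 ^ i * (U * 2 ^ j) := Nat.le_mul_of_pos_right _ h2
            · calc y ≤ U * 2 ^ j := by omega
                _ ≤ U * 2 ^ i * (U * 2 ^ j) := Nat.le_mul_of_pos_left _ h1
          have h0 : ∑ t ∈ T, |cb y (U * 2 ^ i) (U * 2 ^ j) α β (A t) q0 t| = 0 :=
            sum_eq_zero fun t _ => by rw [cb_zero y _ _ α β (A t) q0 t hz, abs_zero]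
          rw [h0]
          unfold BT
          have hℓ1 := hE.l1
          have hq0 : (0 : ℝ) < q0 := by exact_mod_cast hq
          have hK0 := KT_nonneg h
          have hW0 := W_nonneg h
          have hP0 := h.hP0
          positivity
    _ = _ := by
        rw [sum_const, sum_const, card_range, nsmul_eq_mul, nsmul_eq_mul]
        ring

end

end Pool.Agent.R503.T
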