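import Mathlib
import Pool.Agent.R503.T.Vau
import Pool.Agent.R503.N.PiD

/-! Choice of the parameters (helper503). -/

open Finset Filter

namespace Pool.Agent.R503.T

open Pool.Agent.Y826.Z Pool.Agent.Y826.Z.OB Pool.Agent.R503.N

theorem env2T (θ η ρ σ κ δ lam l' : ℝ) (hθ1 : 1 / 2 ≤ θ) (hδ : 0 < δ) (hδ1 : δ ≤ 1 / 1000) (hη : 0 < η) (hσ : 0 ≤ σ)
    (hC3 : 28 * (θ - 1 / 2) + 20 * η + 15 * σ + 40 * δ ≤ 1 / 3) (hHG : 2 * (θ - 1 / 2) + σ + 2 * δ ≤ ρ)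
    (hκ0 : 0 ≤ κ) (hκ : κ + σ + 3 * δ ≤ 1 / 3) (hlam : lam = δ / 10000) (hl0 : 0 < l') (hl : l' ≤ lam) :
    ∃ (C : ℝ) (R k : ℕ), (R : ℝ) ≤ 2 / lam + 1 ∧ (k : ℝ) ≤ 4 / ρ + 1 ∧ ∀ᶠ x : ℕ in atTop,
      Env2 x ((x : ℝ) ^ lam) ((x : ℝ) ^ l') C ((x : ℝ) ^ κ) ((x : ℝ) ^ η) ((x : ℝ) ^ θ) ((x : ℝ) ^ ρ)
        ((x : ℝ) ^ (1 / 2 - σ)) ((x : ℝ) ^ (σ + δ / 10))
        ((x : ℝ) ^ (2 * (θ - 1 / 2) + η + σ + 2 * δ)) (2 * (x : ℝ) ^ (1 - lam / 4)) ⌊(x : ℝ) ^ (ρ / 2)⌋₊ R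
        ⌈(x : ℝ) ^ (lam / 4)⌉₊ ⌊(x : ℝ) ^ (1 / 3 - δ)⌋₊ k (Nat.log 2 x + 1) ⌊(x : ℝ) ^ (1 - δ)⌋₊ := by
  have hρ : 0 < ρ := by linarith
  have hρδ : 2 * δ ≤ ρ := by linarith
  have hlam0 : 0 < lam := by rw [hlam]; positivity
  have hlam1 : lam ≤ 1 / 2 := by rw [hlam]; linarith
  obtain ⟨C, hC⟩ := env1 lam l' hlam0 hlam1 hl0 hl
  refine ⟨C, ⌈2 / lam⌉₊, ⌈4 / ρ⌉₊, (Nat.ceil_lt_add_one (by positivity)).le, (Nat.ceil_lt_add_one (by positivity)).le, ?_⟩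
  have hev : ∀ᶠ X : ℝ in atTop, EnvX X (X ^ lam) (X ^ l') C ∧
      1 * X ^ (1 / 3 - 3 / 2 * δ) ≤ (⌊X ^ (1 / 3 - δ)⌋₊ : ℝ) ∧
      4 * X ^ (1 - 3 / 2 * δ) ≤ (⌊X ^ (1 - δ)⌋₊ : ℝ) ∧
      2 * X ^ (ρ / 2 - δ / 2) ≤ (⌊X ^ (ρ / 2)⌋₊ : ℝ) ∧ 256 ≤ X := by
    filter_upwards [hC, ev_fl 1 zero_le_one (by linarith : 0 ≤ 1 / 3 - 3 / 2 * δ) (by linarith : 1 / 3 - 3 / 2 * δ < 1 / 3 - δ),
      ev_fl 4 (by norm_num) (by linarith : 0 ≤ 1 - 3 / 2 * δ) (by linarith : 1 - 3 / 2 * δ < 1 - δ),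
      ev_fl 2 (by norm_num) (by linarith : 0 ≤ ρ / 2 - δ / 2) (by linarith : ρ / 2 - δ / 2 < ρ / 2), eventually_ge_atTop 256]
      with X h1 h2 h3 h4 h5
    exact ⟨h1, h2, h3, h4, h5⟩
  have hev2 : ∀ᶠ x : ℕ in atTop, EnvX (x : ℝ) ((x : ℝ) ^ lam) ((x : ℝ) ^ l') C ∧
      1 * (x : ℝ) ^ (1 / 3 - 3 / 2 * δ) ≤ (⌊(x : ℝ) ^ (1 / 3 - δ)⌋₊ : ℝ) ∧
      4 * (x : ℝ) ^ (1 - 3 / 2 * δ) ≤ (⌊(x : ℝ) ^ (1 - δ)⌋₊ : ℝ) ∧
      2 * (x : ℝ) ^ (ρ / 2 - δ / 2) ≤ (⌊(x : ℝ) ^ (ρ / 2)⌋₊ : ℝ) ∧ (256 : ℝ) ≤ x := tendsto_natCast_atTop_atTop.eventually hev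
  filter_upwards [hev2] with x hx
  obtain ⟨hE, hU, hB, hG, hX⟩ := hx
  set X : ℝ := (x : ℝ) with hXdef
  have hX0 : 0 < X := by linarith
  have hX1 : 1 ≤ X := by linarith
  have hX1' : 1 < X := by linarith
  have rle : ∀ {a b : ℝ}, a ≤ b → X ^ a ≤ X ^ b := fun h => Real.rpow_le_rpow_of_exponent_le hX1 h
  have radd : ∀ a b : ℝ, X ^ a * X ^ b = X ^ (a + b) := fun a b => (Real.rpow_add hX0 a b).symm
  have rpos : ∀ a : ℝ, 0 < X ^ a := fun a => Real.rpow_pos_of_pos hX0 a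
  have r1 : ∀ {a : ℝ}, 0 ≤ a → 1 ≤ X ^ a := fun h => Real.one_le_rpow hX1 h
  have hBle : (⌊X ^ (1 - δ)⌋₊ : ℝ) ≤ X ^ (1 - δ) := Nat.floor_le (rpos _).le
  have hGge : X ^ (ρ / 2 - δ / 2) ≤ (⌊X ^ (ρ / 2)⌋₊ : ℝ) := by linarith [rpos (ρ / 2 - δ / 2)]
  have hGge2 : X ^ ((ρ / 2 - δ / 2) * ((2 : ℕ) : ℝ)) ≤ (⌊X ^ (ρ / 2)⌋₊ : ℝ) ^ 2 := by
    rw [← pw hX0]
    exact pow_le_pow_left₀ (rpos _).le hGge 2
  rw [one_mul] at hU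
  have hU3r : ((⌊X ^ (1 / 3 - δ)⌋₊ * ⌊X ^ (1 / 3 - δ)⌋₊ * ⌊X ^ (1 / 3 - δ)⌋₊ : ℕ) : ℝ) ≤ X ^ (1 - 3 * δ) := by
    push_cast
    have hUle : (⌊X ^ (1 / 3 - δ)⌋₊ : ℝ) ≤ X ^ (1 / 3 - δ) := Nat.floor_le (rpos _).le
    calc (⌊X ^ (1 / 3 - δ)⌋₊ : ℝ) * ⌊X ^ (1 / 3 - δ)⌋₊ * ⌊X ^ (1 / 3 - δ)⌋₊
        ≤ X ^ (1 / 3 - δ) * X ^ (1 / 3 - δ) * X ^ (1 / 3 - δ) := by
          have := (rpos (1 / 3 - δ)).le
          gcongr
      _ = X ^ (1 - 3 * δ) := by rw [radd, radd]; congr 1; ring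
  have hR0pos : 0 < ⌈X ^ (lam / 4)⌉₊ := Nat.ceil_pos.2 (rpos _)
  have hUpos : (0 : ℝ) < (⌊X ^ (1 / 3 - δ)⌋₊ : ℝ) := lt_of_lt_of_le (rpos _) hU
  have hUposN : 0 < ⌊X ^ (1 / 3 - δ)⌋₊ := by exact_mod_cast hUpos
  have hle41 : X ^ (1 - δ) ≤ X ^ (1 - lam / 4) := rle (by rw [hlam]; linarith)
  have hle43 : X ^ (1 - 3 * δ) ≤ X ^ (1 - lam / 4) := rle (by rw [hlam]; linarith)
  refine
    { E := hE
      hz := r1 hη.le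
      hzH := rle (by linarith)
      hΛG6 := ?_
      hG := ?_
      hG2 := ?_
      hΛG := ?_
      hU := hUposN
      hΔ := ?_
      hQU := ?_
      hY0 := (rpos _).le
      hY := ?_
      hΘ0 := (rpos _).le
      C0 := ?_
      C1 := ?_
      C2 := ?_
      C3 := ?_
      C4 := ?_
      C5 := ?_
      hP0 := (rpos _).le
      hPX := ?_
      hR := ?_
      hR0 := hR0pos
      hk := ?_
      hW1 := ?_
      hW2 := ?_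
      hW3 := ?_
      hU3 := ?_
      hL := ?_
      hL2 := ?_ }
  · rw [pw hX0]
    exact (rle (by push_cast; rw [hlam]; linarith)).trans hGge
  · rw [pw hX0]
    exact (rle (by push_cast; rw [hlam]; linarith)).trans hGge2
  · have h1 : (2 : ℝ) ≤ (⌊X ^ (ρ / 2)⌋₊ : ℝ) := by
      have := r1 (by linarith : 0 ≤ ρ / 2 - δ / 2)
      linarith
    exact_mod_cast h1
  · exact (rle (by rw [hlam]; linarith)).trans hGge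
  · rw [pw hX0]
    exact rle (by push_cast; rw [hlam]; linarith)
  · rw [radd]
    exact (rle (by linarith)).trans hU
  · rw [radd, pw hX0]
    calc X = X ^ (1 : ℝ) := (Real.rpow_one X).symm
      _ ≤ _ := rle (by push_cast; linarith)
  · have h1 : X ^ (1 - 3 / 2 * δ) ≤ (⌊X ^ (1 - δ)⌋₊ : ℝ) / 4 := by linarith
    rw [pw hX0, pw hX0, radd, radd]
    calc X ^ (θ * ((2 : ℕ) : ℝ) + (σ + δ / 10) + lam * ((6 : ℕ) : ℝ))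
        ≤ X ^ (ρ + (1 - 3 / 2 * δ)) := by
          apply rle; push_cast; rw [hlam]; linarith
      _ = X ^ ρ * X ^ (1 - 3 / 2 * δ) := (radd _ _).symm
      _ ≤ _ := mul_le_mul_of_nonneg_left h1 (rpos _).le
  · have h1 : X ^ (1 - 3 / 2 * δ) ≤ (⌊X ^ (1 - δ)⌋₊ : ℝ) / 4 := by linarith
    rw [pw hX0, radd, radd]
    calc X ^ (θ * ((2 : ℕ) : ℝ) + η + (σ + δ / 10))
        ≤ X ^ ((2 * (θ - 1 / 2) + η + σ + 2 * δ) + (1 - 3 / 2 * δ)) := by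
          apply rle; push_cast; linarith
      _ = X ^ (2 * (θ - 1 / 2) + η + σ + 2 * δ) * X ^ (1 - 3 / 2 * δ) := (radd _ _).symm
      _ ≤ _ := mul_le_mul_of_nonneg_left h1 (rpos _).le
  · rw [pw hX0, pw hX0, pw hX0, pw hX0, radd, radd, radd]
    refine le_trans (rle ?_) hU
    push_cast; rw [hlam]; linarith
  · rw [pw hX0, pw hX0, pw hX0]
    have e1 : X * X ^ (η * ((6 : ℕ) : ℝ)) * X ^ ((2 * (θ - 1 / 2) + η + σ + 2 * δ) * ((14 : ℕ) : ℝ)) *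
        X ^ (σ + δ / 10) * X ^ (lam * ((2000 : ℕ) : ℝ)) =
        X ^ (1 + η * ((6 : ℕ) : ℝ) + (2 * (θ - 1 / 2) + η + σ + 2 * δ) * ((14 : ℕ) : ℝ) + (σ + δ / 10) +
          lam * ((2000 : ℕ) : ℝ)) := by
      calc X * X ^ (η * ((6 : ℕ) : ℝ)) * X ^ ((2 * (θ - 1 / 2) + η + σ + 2 * δ) * ((14 : ℕ) : ℝ)) *
          X ^ (σ + δ / 10) * X ^ (lam * ((2000 : ℕ) : ℝ)) = X ^ (1 : ℝ) * X ^ (η * ((6 : ℕ) : ℝ)) *
          X ^ ((2 * (θ - 1 / 2) + η + σ + 2 * δ) * ((14 : ℕ) : ℝ)) *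
          X ^ (σ + δ / 10) * X ^ (lam * ((2000 : ℕ) : ℝ)) := by rw [Real.rpow_one]
        _ = _ := by rw [radd, radd, radd, radd]
    rw [e1]
    calc X ^ (1 + η * ((6 : ℕ) : ℝ) + (2 * (θ - 1 / 2) + η + σ + 2 * δ) * ((14 : ℕ) : ℝ) + (σ + δ / 10) +
          lam * ((2000 : ℕ) : ℝ))
        ≤ X ^ ((1 / 3 - 3 / 2 * δ) * ((4 : ℕ) : ℝ)) := by
          apply rle; push_cast; rw [hlam]; linarith
      _ = (X ^ (1 / 3 - 3 / 2 * δ)) ^ 4 := (pw hX0 _ _).symm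
      _ ≤ _ := pow_le_pow_left₀ (rpos _).le hU 4
  · rw [pw hX0, pw hX0, radd, radd, radd]
    refine le_trans (rle ?_) hU
    push_cast; rw [hlam]; linarith
  · rw [radd, radd]
    calc X ^ (θ + η + (σ + δ / 10)) ≤ X ^ ((1 / 3 - 3 / 2 * δ) * ((2 : ℕ) : ℝ)) := by
          apply rle; push_cast; linarith
      _ = (X ^ (1 / 3 - 3 / 2 * δ)) ^ 2 := (pw hX0 _ _).symm
      _ ≤ _ := pow_le_pow_left₀ (rpos _).le hU 2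
  · rw [← Real.rpow_natCast X 10]
    apply rle
    push_cast
    linarith
  · rw [pw hX0]
    have h1 : 2 ≤ lam * (⌈2 / lam⌉₊ : ℝ) := by
      have := Nat.le_ceil (2 / lam)
      calc (2 : ℝ) = lam * (2 / lam) := by field_simp
        _ ≤ _ := mul_le_mul_of_nonneg_left this hlam0.le
    calc 16 * X < X * X := by nlinarith
      _ = X ^ (2 : ℝ) := by rw [Real.rpow_two]; ring
      _ ≤ _ := rle h1
  · have h2 : 4 / ρ ≤ (⌈4 / ρ⌉₊ : ℝ) := Nat.le_ceil (4 / ρ)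
    have h3 : 1 < (ρ / 2 - δ / 2) * ((⌈4 / ρ⌉₊ + 1 : ℕ) : ℝ) := by
      push_cast
      have h4 : 1 / 4 * ρ * (4 / ρ) = 1 := by field_simp
      have h5 : 1 / 4 * ρ * (4 / ρ) ≤ (ρ / 2 - δ / 2) * (⌈4 / ρ⌉₊ : ℝ) :=
        mul_le_mul (by linarith) h2 (by positivity) (by linarith)
      nlinarith
    calc X ^ θ ≤ X ^ (1 : ℝ) := rle (by linarith)
      _ < X ^ ((ρ / 2 - δ / 2) * ((⌈4 / ρ⌉₊ + 1 : ℕ) : ℝ)) := Real.rpow_lt_rpow_of_exponent_lt hX1' h3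
      _ = (X ^ (ρ / 2 - δ / 2)) ^ (⌈4 / ρ⌉₊ + 1) := (pw hX0 _ _).symm
      _ ≤ _ := pow_le_pow_left₀ (rpos _).le hGge _
  · -- hW1
    set r0 := ⌈X ^ (lam / 4)⌉₊ with hr0
    have h1 : X ^ (lam / 4) ≤ r0 := Nat.le_ceil _
    have h2 : x * r0 / (r0 + 1) ≤ x := by
      apply Nat.div_le_of_le_mul
      calc x * r0 ≤ x * (r0 + 1) := Nat.mul_le_mul_left x (Nat.le_succ _)
        _ = (r0 + 1) * x := mul_comm _ _
    rw [Nat.cast_sub h2]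
    have h3 : (X * r0) / (r0 + 1) - 1 ≤ ((x * r0 / (r0 + 1) : ℕ) : ℝ) := by
      have h4 := Nat.lt_div_mul_add (a := x * r0) (b := r0 + 1) (Nat.succ_pos _)
      have h5 : (X * r0) < ((x * r0 / (r0 + 1) : ℕ) : ℝ) * (r0 + 1) + (r0 + 1) := by
        have : ((x * r0 : ℕ) : ℝ) < ((x * r0 / (r0 + 1) * (r0 + 1) + (r0 + 1) : ℕ) : ℝ) := by exact_mod_cast h4
        push_cast at this
        linarith
      have h6 : (0 : ℝ) < (r0 : ℝ) + 1 := by positivity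
      rw [sub_le_iff_le_add, div_le_iff₀ h6]
      nlinarith
    have h7 : X - (X * r0) / (r0 + 1) ≤ X ^ (1 - lam / 4) := by
      have h6 : (0 : ℝ) < (r0 : ℝ) + 1 := by positivity
      have e1 : X - (X * r0) / (r0 + 1) = X / (r0 + 1) := by field_simp; ring
      rw [e1, div_le_iff₀ h6]
      calc X = X ^ (1 - lam / 4) * X ^ (lam / 4) := by rw [radd]; simp
        _ ≤ X ^ (1 - lam / 4) * (r0 + 1) := by
            apply mul_le_mul_of_nonneg_left _ (rpos _).le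
            linarith
    have h8 : 1 ≤ X ^ (1 - lam / 4) := r1 (by linarith)
    linarith
  · have := (rpos (1 - lam / 4)).le
    linarith
  · have := (rpos (1 - lam / 4)).le
    linarith
  · have h1 : X ^ (1 - 3 * δ) ≤ X := by
      calc X ^ (1 - 3 * δ) ≤ X ^ (1 : ℝ) := rle (by linarith)
        _ = X := Real.rpow_one X
    exact (Nat.cast_le (α := ℝ)).1 (hU3r.trans h1)
  · have h1 : x < 2 ^ (Nat.log 2 x + 1) := Nat.lt_pow_succ_log_self (by norm_num) x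
    calc x ≤ 2 ^ (Nat.log 2 x + 1) := h1.le
      _ ≤ _ := Nat.le_mul_of_pos_left _ hUposN
  · have h1 : ((Nat.log 2 x : ℕ) : ℝ) ≤ Real.logb 2 X := Real.natLog_le_logb x 2
    have h2 : Real.logb 2 X ≤ 2 * Real.log X := by
      unfold Real.logb
      rw [div_le_iff₀ (Real.log_pos (by norm_num))]
      have h3 := Real.log_two_gt_d9
      have h4 : 0 ≤ Real.log X := Real.log_nonneg hX1
      nlinarith
    have h5 := hE.hl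
    rw [Real.log_pow] at h5
    push_cast at h5 ⊢
    have h4 : 0 ≤ Real.log X := Real.log_nonneg hX1
    linarith

end Pool.Agent.R503.T
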