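import Mathlib
import Pool.Agent.R503.T.ParB

/-! The main estimate for the von Mangoldt function (helper503). -/

open Finset Filter

namespace Pool.Agent.R503.T

open Pool.Agent.Y826.Z Pool.Agent.Y826.Z.OB Pool.Agent.R503.N

/-- a tree of moduli `t` with classes, at height `x` -/
structure TS (x q0 : ℕ) (θ ρ η σ : ℝ) (par : ℕ → ℕ) (A : ℕ → ℤ) (D : Set ℕ) : Prop where
  q0p : 0 < q0
  sf : ∀ t ∈ D, Squarefree (q0 * t)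
  cc : ∀ t ∈ D, IsCoprime (A t) ((q0 * t : ℕ) : ℤ)
  pr : ∀ t ∈ D, ∀ p : ℕ, p.Prime → p ∣ t → (x : ℝ) ^ ρ ≤ p ∧ (p : ℝ) ≤ (x : ℝ) ^ η
  bd : ∀ t ∈ D, (q0 : ℝ) * t ≤ (x : ℝ) ^ θ
  tr : ∀ t ∈ D, t ≠ 1 → par t ∈ D ∧ ∃ p : ℕ, p.Prime ∧ par t * p = t
  an : ∀ s t, Ch par D s t → s ≠ 1 → ∀ p p' : ℕ, par s * p = s → par t * p' = t →
    (x : ℝ) ^ ρ * p ≤ (p' : ℝ) ^ 2
  co : ∀ s t, Ch par D s t → (q0 : ℝ) * s ≤ (x : ℝ) ^ (1 / 2 - σ) → ((q0 * s : ℕ) : ℤ) ∣ A t - A s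

lemma TS.pos {x q0 : ℕ} {θ ρ η σ : ℝ} {par : ℕ → ℕ} {A : ℕ → ℤ} {D : Set ℕ} (S : TS x q0 θ ρ η σ par A D)
    {t : ℕ} (ht : t ∈ D) : 0 < t := by
  refine Nat.pos_of_ne_zero fun h0 => ?_
  have := (S.sf t ht).ne_zero
  rw [h0, mul_zero] at this
  exact this rfl

/-- the main estimate -/
theorem main_psiT (θ η ρ σ κ : ℝ) (hθ1 : 1 / 2 ≤ θ) (hη : 0 < η) (hσ : 0 ≤ σ)
    (hC3 : 28 * (θ - 1 / 2) + 20 * η + 15 * σ < 1 / 3)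
    (hHG : 2 * (θ - 1 / 2) + σ < ρ) (hκ0 : 0 ≤ κ) (hκ : κ + σ < 1 / 3) :
    ∃ ε : ℝ, 0 < ε ∧ ∀ᶠ x : ℕ in atTop, ∀ q0 : ℕ, (q0 : ℝ) ≤ (x : ℝ) ^ κ →
      ∀ (par : ℕ → ℕ) (A : ℕ → ℤ) (D : Set ℕ), TS x q0 θ ρ η σ par A D → ∀ T : Finset ℕ, (∀ t ∈ T, t ∈ D) →
      ∑ t ∈ T, |∑ n ∈ Icc 1 x, ArithmeticFunction.vonMangoldt n * ww q0 (A t) t n| ≤ (x : ℝ) ^ (1 - ε) / q0 := by
  set δ : ℝ := min (1 / 1000) (min ((1 / 3 - 28 * (θ - 1 / 2) - 20 * η - 15 * σ) / 40)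
    (min ((ρ - 2 * (θ - 1 / 2) - σ) / 2) ((1 / 3 - κ - σ) / 3))) with hδdef
  have hδ : 0 < δ := by
    rw [hδdef]
    refine lt_min (by norm_num) (lt_min ?_ (lt_min ?_ ?_))
    · apply div_pos _ (by norm_num)
      linarith
    · apply div_pos _ (by norm_num)
      linarith
    · apply div_pos _ (by norm_num)
      linarith
  have hδ1 : δ ≤ 1 / 1000 := min_le_left _ _
  have hδ2 := (min_le_right _ _ : δ ≤ _)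
  have hδθ : 28 * (θ - 1 / 2) + 20 * η + 15 * σ + 40 * δ ≤ 1 / 3 := by
    have : δ ≤ (1 / 3 - 28 * (θ - 1 / 2) - 20 * η - 15 * σ) / 40 := hδ2.trans (min_le_left _ _)
    linarith
  have hδρ : 2 * (θ - 1 / 2) + σ + 2 * δ ≤ ρ := by
    have : δ ≤ (ρ - 2 * (θ - 1 / 2) - σ) / 2 := hδ2.trans ((min_le_right _ _).trans (min_le_left _ _))
    linarith
  have hδκ : κ + σ + 3 * δ ≤ 1 / 3 := by
    have : δ ≤ (1 / 3 - κ - σ) / 3 := hδ2.trans ((min_le_right _ _).trans (min_le_right _ _))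
    linarith
  have hρ0 : 0 < ρ := by linarith
  set lam : ℝ := δ / 10000 with hlam
  have hlam0 : 0 < lam := by rw [hlam]; positivity
  set l' : ℝ := lam / (8 * (8 / ρ + 10)) with hl'
  have hden : 0 < 8 * (8 / ρ + 10) := by positivity
  have hl0 : 0 < l' := by rw [hl']; positivity
  have hl : l' ≤ lam := by
    rw [hl']
    apply div_le_self hlam0.le
    have : 0 < 8 / ρ := by positivity
    linarith
  obtain ⟨C, R, k, hR, hk, hev⟩ := env2T θ η ρ σ κ δ lam l' hθ1 hδ hδ1 hη hσ hδθ hδρ hκ0 hδκ hlam hl0 hl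
  refine ⟨lam / 8, by positivity, ?_⟩
  have hev2 : ∀ᶠ x : ℕ in atTop, 56 * (k : ℝ) * (R : ℝ) ^ 4 + 51 ≤ (x : ℝ) ^ l' :=
    tendsto_natCast_atTop_atTop.eventually (Pool.Agent.Y61.Z.ev_rpow _ hl0)
  filter_upwards [hev, hev2] with x hx hx2 q0 hqκ par A D TSS T hT
  have hq := TSS.q0p
  have hE := hx.E
  have hX := hE.hX
  set X : ℝ := (x : ℝ) with hXdef
  have hX0 : 0 < X := by linarith
  have hX1 : 1 ≤ X := by linarith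
  have rle : ∀ {a b : ℝ}, a ≤ b → X ^ a ≤ X ^ b := fun h => Real.rpow_le_rpow_of_exponent_le hX1 h
  have radd : ∀ a b : ℝ, X ^ a * X ^ b = X ^ (a + b) := fun a b => (Real.rpow_add hX0 a b).symm
  have rpos : ∀ a : ℝ, 0 < X ^ a := fun a => Real.rpow_pos_of_pos hX0 a
  have r1 : ∀ {a : ℝ}, 0 ≤ a → 1 ≤ X ^ a := fun h => Real.one_le_rpow hX1 h
  have hqr : (0 : ℝ) < q0 := by exact_mod_cast hq
  have S : Sys q0 ⌊X ^ (ρ / 2)⌋₊ (X ^ η) (X ^ θ) (X ^ ρ) (X ^ (1 / 2 - σ)) par A D := by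
    refine ⟨hq, TSS.sf, TSS.cc, fun t ht p hp hd => ⟨?_, (TSS.pr t ht p hp hd).2⟩, TSS.bd, TSS.tr, TSS.an, TSS.co⟩
    have h5 : (⌊X ^ (ρ / 2)⌋₊ : ℝ) < p := by
      calc (⌊X ^ (ρ / 2)⌋₊ : ℝ) ≤ X ^ (ρ / 2) := Nat.floor_le (rpos _).le
        _ < X ^ ρ := Real.rpow_lt_rpow_of_exponent_lt (by linarith) (by linarith)
        _ ≤ p := (TSS.pr t ht p hp hd).1
    exact_mod_cast h5
  have hmain := vauS hx S hqκ T hT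
  refine hmain.trans ?_
  set ℓ : ℝ := X ^ l' with hℓdef
  set Λ : ℝ := X ^ lam with hΛdef
  set Wd : ℝ := X ^ (1 - lam / 4) with hWd
  set R0 : ℕ := ⌈X ^ (lam / 4)⌉₊ with hR0def
  set U : ℕ := ⌊X ^ (1 / 3 - δ)⌋₊ with hUdef
  set L : ℕ := Nat.log 2 x + 1 with hLdef
  have hℓ1 : 1 ≤ ℓ := hE.l1
  have hℓ0 : 0 < ℓ := by linarith
  have hΛ0 : 0 < Λ := rpos _
  have hΛ1 : 1 ≤ Λ := by linarith [hE.hΛ]
  have hWd0 : 0 < Wd := rpos _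
  have hLℓ := hx.hL2
  have hL0 : (0 : ℝ) ≤ L := Nat.cast_nonneg _
  have hL2 : (L : ℝ) ^ 2 ≤ ℓ ^ 2 := pow_le_pow_left₀ hL0 hLℓ 2
  -- elementary sizes
  have hqW : (q0 : ℝ) ≤ Wd := hqκ.trans (rle (by rw [hlam]; linarith))
  have hP : X ^ θ ≤ Wd := rle (by rw [hlam]; linarith)
  have hUP : (U : ℝ) * X ^ θ ≤ Wd := by
    calc (U : ℝ) * X ^ θ ≤ X ^ (1 / 3 - δ) * X ^ θ :=
          mul_le_mul_of_nonneg_right (Nat.floor_le (rpos _).le) (rpos _).le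
      _ = X ^ (1 / 3 - δ + θ) := radd _ _
      _ ≤ Wd := rle (by rw [hlam]; linarith)
  have hWq : 2 * Wd / q0 + 1 ≤ 3 * (Wd / q0) := by
    have h1 : 1 ≤ Wd / q0 := (one_le_div hqr).2 hqW
    have h2 : 2 * Wd / q0 = 2 * (Wd / q0) := by ring
    linarith
  have hPq : X ^ θ / q0 ≤ Wd / q0 := div_le_div_of_nonneg_right hP hqr.le
  -- the constant
  have hKK : KT Λ ℓ R ≤ (R : ℝ) ^ 4 * (7 * ℓ ^ 5 * X ^ (-(lam / 2))) := by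
    unfold KT
    have h1 : 44 * ℓ ^ 7 * Λ⁻¹ ≤ (7 * ℓ ^ 4 * X ^ (-(lam / 2))) ^ 2 := by
      have e1 : (7 * ℓ ^ 4 * X ^ (-(lam / 2))) ^ 2 = 49 * ℓ ^ 8 * Λ⁻¹ := by
        rw [mul_pow, mul_pow, pw hX0 (-(lam / 2)) 2]
        have : X ^ (-(lam / 2) * ((2 : ℕ) : ℝ)) = Λ⁻¹ := by
          rw [hΛdef, ← Real.rpow_neg hX0.le]
          congr 1
          push_cast
          ring
        rw [this]
        ring
      rw [e1]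
      have h3 : ℓ ^ 7 ≤ ℓ ^ 8 := pow_le_pow_right₀ hℓ1 (by norm_num)
      gcongr
      norm_num
    have h6 : Real.sqrt (44 * ℓ ^ 7 * Λ⁻¹) ≤ 7 * ℓ ^ 4 * X ^ (-(lam / 2)) := by
      have := Real.sqrt_le_sqrt h1
      rwa [Real.sqrt_sq (by have := (rpos (-(lam / 2))).le; positivity)] at this
    apply mul_le_mul_of_nonneg_left _ (by positivity)
    calc ℓ * Real.sqrt (44 * ℓ ^ 7 * Λ⁻¹) ≤ ℓ * (7 * ℓ ^ 4 * X ^ (-(lam / 2))) :=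
          mul_le_mul_of_nonneg_left h6 hℓ0.le
      _ = _ := by ring
  have hKK0 : 0 ≤ KT Λ ℓ R := KT_nonneg hx
  have hR0le : (R0 : ℝ) ≤ 2 * X ^ (lam / 4) := by
    have h1 : (R0 : ℝ) < X ^ (lam / 4) + 1 := Nat.ceil_lt_add_one (rpos _).le
    have h2 : 1 ≤ X ^ (lam / 4) := r1 (by positivity)
    linarith
  have hBB : BT x Λ ℓ (X ^ θ) (2 * Wd) R R0 k q0 ≤
      14 * k * (R : ℝ) ^ 4 * ℓ ^ (2 * k + 5) * (Wd / q0) + 7 * ℓ ^ 5 * (Wd / q0) := by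
    unfold BT
    have h1 : (R0 : ℝ) * (k * (ℓ ^ 2) ^ k * KT Λ ℓ R * (X / q0)) ≤
        14 * k * (R : ℝ) ^ 4 * ℓ ^ (2 * k + 5) * (Wd / q0) := by
      have e1 : X ^ (lam / 4) * X ^ (-(lam / 2)) * X = Wd := by
        calc X ^ (lam / 4) * X ^ (-(lam / 2)) * X = X ^ (lam / 4) * X ^ (-(lam / 2)) * X ^ (1 : ℝ) := by
              rw [Real.rpow_one]
          _ = Wd := by rw [radd, radd]; congr 1; ring
      calc (R0 : ℝ) * (k * (ℓ ^ 2) ^ k * KT Λ ℓ R * (X / q0))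
          ≤ (2 * X ^ (lam / 4)) * (k * (ℓ ^ 2) ^ k * ((R : ℝ) ^ 4 * (7 * ℓ ^ 5 * X ^ (-(lam / 2)))) * (X / q0)) := by
            gcongr
        _ = 14 * k * (R : ℝ) ^ 4 * ((ℓ ^ 2) ^ k * ℓ ^ 5) * ((X ^ (lam / 4) * X ^ (-(lam / 2)) * X) / q0) := by ring
        _ = _ := by rw [e1, ← pow_mul, ← pow_add]
    have h2 : ℓ ^ 3 * (2 * ℓ ^ 2 * (2 * Wd / q0 + 1) + X ^ θ / q0) ≤ 7 * ℓ ^ 5 * (Wd / q0) := by
      have h3 : 1 ≤ ℓ ^ 2 := one_le_pow₀ hℓ1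
      have h4 : 0 ≤ Wd / q0 := by positivity
      calc ℓ ^ 3 * (2 * ℓ ^ 2 * (2 * Wd / q0 + 1) + X ^ θ / q0)
          ≤ ℓ ^ 3 * (2 * ℓ ^ 2 * (3 * (Wd / q0)) + 1 * (Wd / q0)) := by rw [one_mul]; gcongr
        _ ≤ ℓ ^ 3 * (2 * ℓ ^ 2 * (3 * (Wd / q0)) + ℓ ^ 2 * (Wd / q0)) := by gcongr
        _ = _ := by ring
    exact add_le_add h1 h2
  have hlk : ∀ j : ℕ, j ≤ 2 * k + 7 → ℓ ^ j ≤ ℓ ^ (2 * k + 7) := fun j hj => pow_le_pow_right₀ hℓ1 hj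
  have hZ : 0 ≤ Wd / q0 := by positivity
  have hBB0 : 0 ≤ 14 * k * (R : ℝ) ^ 4 * ℓ ^ (2 * k + 5) * (Wd / q0) + 7 * ℓ ^ 5 * (Wd / q0) := by positivity
  have t1 : 4 * ((L : ℝ) ^ 2 * BT x Λ ℓ (X ^ θ) (2 * Wd) R R0 k q0) ≤
      (56 * k * (R : ℝ) ^ 4 + 28) * ℓ ^ (2 * k + 7) * (Wd / q0) := by
    calc 4 * ((L : ℝ) ^ 2 * BT x Λ ℓ (X ^ θ) (2 * Wd) R R0 k q0)
        ≤ 4 * (ℓ ^ 2 * (14 * k * (R : ℝ) ^ 4 * ℓ ^ (2 * k + 5) * (Wd / q0) + 7 * ℓ ^ 5 * (Wd / q0))) := by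
          apply mul_le_mul_of_nonneg_left _ (by norm_num)
          exact (mul_le_mul_of_nonneg_left hBB (by positivity)).trans (mul_le_mul_of_nonneg_right hL2 hBB0)
      _ = 56 * k * (R : ℝ) ^ 4 * ℓ ^ (2 * k + 7) * (Wd / q0) + 28 * ℓ ^ 7 * (Wd / q0) := by ring
      _ ≤ 56 * k * (R : ℝ) ^ 4 * ℓ ^ (2 * k + 7) * (Wd / q0) + 28 * ℓ ^ (2 * k + 7) * (Wd / q0) := by
          have := hlk 7 (by omega)
          gcongr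
      _ = _ := by ring
  have t2 : 16 * ℓ ^ 2 * U * (X ^ θ / q0) ≤ 16 * ℓ ^ (2 * k + 7) * (Wd / q0) := by
    calc 16 * ℓ ^ 2 * U * (X ^ θ / q0) = 16 * ℓ ^ 2 * ((U * X ^ θ) / q0) := by ring
      _ ≤ 16 * ℓ ^ 2 * (Wd / q0) := by gcongr
      _ ≤ _ := by
          have := hlk 2 (by omega)
          gcongr
  have t3 : ℓ * (2 * ℓ ^ 2 * (2 * Wd / q0 + 1) + X ^ θ / q0) ≤ 7 * ℓ ^ (2 * k + 7) * (Wd / q0) := by
    have h3 : 1 ≤ ℓ ^ 2 := one_le_pow₀ hℓ1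
    calc ℓ * (2 * ℓ ^ 2 * (2 * Wd / q0 + 1) + X ^ θ / q0)
        ≤ ℓ * (2 * ℓ ^ 2 * (3 * (Wd / q0)) + 1 * (Wd / q0)) := by rw [one_mul]; gcongr
      _ ≤ ℓ * (2 * ℓ ^ 2 * (3 * (Wd / q0)) + ℓ ^ 2 * (Wd / q0)) := by gcongr
      _ = 7 * ℓ ^ 3 * (Wd / q0) := by ring
      _ ≤ _ := by
          have := hlk 3 (by omega)
          gcongr
  have hfin : ℓ ^ (2 * k + 8) ≤ X ^ (lam / 8) := by
    rw [hℓdef, pw hX0]
    apply rle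
    push_cast
    have h1 : 2 * (k : ℝ) + 8 ≤ 8 / ρ + 10 := by
      have : 2 * (4 / ρ) = 8 / ρ := by ring
      linarith
    calc l' * (2 * (k : ℝ) + 8) ≤ l' * (8 / ρ + 10) := mul_le_mul_of_nonneg_left h1 hl0.le
      _ = lam / 8 := by rw [hl']; field_simp
  calc _ ≤ (56 * k * (R : ℝ) ^ 4 + 28) * ℓ ^ (2 * k + 7) * (Wd / q0) + 16 * ℓ ^ (2 * k + 7) * (Wd / q0) +
        7 * ℓ ^ (2 * k + 7) * (Wd / q0) := add_le_add (add_le_add t1 t2) t3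
    _ = (56 * k * (R : ℝ) ^ 4 + 51) * (ℓ ^ (2 * k + 7) * (Wd / q0)) := by ring
    _ ≤ ℓ * (ℓ ^ (2 * k + 7) * (Wd / q0)) := mul_le_mul_of_nonneg_right hx2 (by positivity)
    _ = ℓ ^ (2 * k + 8) * (Wd / q0) := by ring
    _ ≤ X ^ (lam / 8) * (Wd / q0) := by gcongr
    _ = X ^ (1 - lam / 8) / q0 := by
        rw [mul_div_assoc', hWd, radd]
        congr 2
        ring

end Pool.Agent.R503.T
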