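import Mathlib
import Pool.Agent.R503.T.ParC

/-! All heights (helper503). -/

open Finset Filter

namespace Pool.Agent.R503.T

open Pool.Agent.Y826.Z Pool.Agent.Y826.Z.OB Pool.Agent.R503.N

lemma card_TS {x q0 : ℕ} {θ ρ η σ : ℝ} {par : ℕ → ℕ} {A : ℕ → ℤ} {D : Set ℕ} (hx : 0 < x)
    (S : TS x q0 θ ρ η σ par A D) (T : Finset ℕ) (hT : ∀ t ∈ T, t ∈ D) : (T.card : ℝ) ≤ (x : ℝ) ^ θ / q0 := by
  have hq := S.q0p
  have hqr : (0 : ℝ) < q0 := by exact_mod_cast hq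
  have hxr : (0 : ℝ) < x := by exact_mod_cast hx
  have h1 : T ⊆ Icc 1 ⌊(x : ℝ) ^ θ / q0⌋₊ := by
    intro t ht
    rw [mem_Icc]
    refine ⟨S.pos (hT t ht), Nat.le_floor ?_⟩
    rw [le_div_iff₀ hqr, mul_comm]
    exact S.bd t (hT t ht)
  have h2 := card_le_card h1
  rw [Nat.card_Icc, Nat.add_sub_cancel] at h2
  calc (T.card : ℝ) ≤ (⌊(x : ℝ) ^ θ / q0⌋₊ : ℝ) := by exact_mod_cast h2
    _ ≤ _ := Nat.floor_le (by have := Real.rpow_nonneg hxr.le θ; positivity)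

/-- the main estimate at all heights -/
theorem psi_allT (θ η ρ σ κ : ℝ) (hθ1 : 1 / 2 ≤ θ) (hη : 0 < η) (hσ : 0 ≤ σ)
    (hC3 : 28 * (θ - 1 / 2) + 20 * η + 15 * σ < 1 / 3)
    (hHG : 2 * (θ - 1 / 2) + σ < ρ) (hκ0 : 0 ≤ κ) (hκ : κ + σ < 1 / 3) :
    ∃ ε : ℝ, 0 < ε ∧ ∀ᶠ x : ℕ in atTop, ∀ q0 : ℕ, (q0 : ℝ) ≤ (x : ℝ) ^ κ →
      ∀ (par : ℕ → ℕ) (A : ℕ → ℤ) (D : Set ℕ), TS x q0 θ ρ η σ par A D → ∀ T : Finset ℕ, (∀ t ∈ T, t ∈ D) →
      ∀ y : ℕ, y ≤ x →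
      ∑ t ∈ T, |∑ n ∈ Icc 1 y, ArithmeticFunction.vonMangoldt n * ww q0 (A t) t n| ≤ (x : ℝ) ^ (1 - ε) / q0 := by
  set s : ℝ := min ((1 / 3 - 28 * (θ - 1 / 2) - 20 * η - 15 * σ) / 96) (min ((ρ - 2 * (θ - 1 / 2) - σ) / 4)
    ((1 / 3 - κ - σ) / 2)) with hsdef
  have hs : 0 < s := by
    rw [hsdef]
    refine lt_min ?_ (lt_min ?_ ?_)
    · apply div_pos _ (by norm_num)
      linarith
    · apply div_pos _ (by norm_num)
      linarith
    · apply div_pos _ (by norm_num)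
      linarith
  have hs1 : s ≤ (1 / 3 - 28 * (θ - 1 / 2) - 20 * η - 15 * σ) / 96 := min_le_left _ _
  have hs2 : s ≤ (ρ - 2 * (θ - 1 / 2) - σ) / 4 := (min_le_right _ _).trans (min_le_left _ _)
  have hs3 : s ≤ (1 / 3 - κ - σ) / 2 := (min_le_right _ _).trans (min_le_right _ _)
  have hρ0 : 0 < ρ := by linarith
  set θ' : ℝ := θ + s with hθ'
  set η' : ℝ := η + s with hη'
  set κ' : ℝ := κ + s with hκ'
  obtain ⟨ε', hε', hev⟩ := main_psiT θ' η' ρ σ κ' (by linarith) (by linarith) hσ (by linarith) (by linarith)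
    (by linarith) (by linarith)
  have hθ'0 : 0 < θ' := by linarith
  have hκ'0 : 0 < κ' := by linarith
  have hη'0 : 0 < η' := by linarith
  set τ : ℝ := s / 2 with hτ
  have hτ0 : 0 < τ := by positivity
  have hτ1 : τ ≤ 1 / 2 := by linarith
  have hτθ : θ ≤ (1 - τ) * θ' := by nlinarith
  have hτκ : κ ≤ (1 - τ) * κ' := by nlinarith
  have hτη : η ≤ (1 - τ) * η' := by nlinarith
  refine ⟨min ε' (τ / 4), lt_min hε' (by positivity), ?_⟩
  obtain ⟨x0, hx0⟩ := eventually_atTop.1 hev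
  have hbig : ∀ᶠ x : ℕ in atTop, (x0 : ℝ) ≤ (x : ℝ) ^ (1 - τ) :=
    tendsto_natCast_atTop_atTop.eventually (Pool.Agent.Y61.Z.ev_rpow _ (by linarith))
  have h5 : ∀ᶠ x : ℕ in atTop, (5 : ℝ) ≤ (x : ℝ) ^ (τ / 8) :=
    tendsto_natCast_atTop_atTop.eventually (Pool.Agent.Y61.Z.ev_rpow _ (by positivity))
  filter_upwards [hbig, ev_basic (τ / 16) (by positivity), h5] with x hx1 hx2 hx5 q0 hqκ par A D S T hT y hy
  have hq := S.q0p
  obtain ⟨htau, hlog, hlog1, hx256⟩ := hx2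
  have hX : (256 : ℝ) ≤ x := by exact_mod_cast hx256
  set X : ℝ := (x : ℝ) with hXdef
  have hX0 : 0 < X := by linarith
  have hX1 : 1 ≤ X := by linarith
  have rle : ∀ {a b : ℝ}, a ≤ b → X ^ a ≤ X ^ b := fun h => Real.rpow_le_rpow_of_exponent_le hX1 h
  have radd : ∀ a b : ℝ, X ^ a * X ^ b = X ^ (a + b) := fun a b => (Real.rpow_add hX0 a b).symm
  have rpos : ∀ a : ℝ, 0 < X ^ a := fun a => Real.rpow_pos_of_pos hX0 a
  have hqr : (0 : ℝ) < q0 := by exact_mod_cast hq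
  by_cases hyb : X ^ (1 - τ) ≤ y
  · -- large heights
    have hy0 : x0 ≤ y := by exact_mod_cast hx1.trans hyb
    have hyr : (1 : ℝ) ≤ y := (Real.one_le_rpow hX1 (by linarith)).trans hyb
    have hy0' : (0 : ℝ) < y := by linarith
    have hpow : ∀ {a b : ℝ}, 0 ≤ b → a ≤ (1 - τ) * b → X ^ a ≤ (y : ℝ) ^ b := by
      intro a b hb hab
      calc X ^ a ≤ X ^ ((1 - τ) * b) := rle hab
        _ = (X ^ (1 - τ)) ^ b := by rw [Real.rpow_mul hX0.le]
        _ ≤ (y : ℝ) ^ b := Real.rpow_le_rpow (rpos _).le hyb hb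
    have hyx : (y : ℝ) ≤ X := (Nat.cast_le (α := ℝ)).2 hy
    have h1 := hx0 y hy0 q0 (hqκ.trans (hpow hκ'0.le hτκ)) par A D
      ⟨hq, S.sf, S.cc, fun t ht p hp hd =>
        ⟨(Real.rpow_le_rpow hy0'.le hyx hρ0.le).trans (S.pr t ht p hp hd).1,
          (S.pr t ht p hp hd).2.trans (hpow hη'0.le hτη)⟩,
        fun t ht => (S.bd t ht).trans (hpow hθ'0.le hτθ), S.tr,
        fun s1 t1 hc hne p p' e1 e2 => (mul_le_mul_of_nonneg_right (Real.rpow_le_rpow hy0'.le hyx hρ0.le)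
          (Nat.cast_nonneg _)).trans (S.an s1 t1 hc hne p p' e1 e2),
        fun s1 t1 hc hle => S.co s1 t1 hc (hle.trans (Real.rpow_le_rpow hy0'.le hyx (by linarith)))⟩ T hT
    refine h1.trans ?_
    apply div_le_div_of_nonneg_right _ hqr.le
    by_cases he : 0 ≤ 1 - ε'
    · calc (y : ℝ) ^ (1 - ε') ≤ X ^ (1 - ε') := Real.rpow_le_rpow hy0'.le hyx he
        _ ≤ X ^ (1 - min ε' (τ / 4)) := rle (by linarith [min_le_left ε' (τ / 4)])
    · calc (y : ℝ) ^ (1 - ε') ≤ 1 := Real.rpow_le_one_of_one_le_of_nonpos hyr (by linarith)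
        _ ≤ X ^ (1 - min ε' (τ / 4)) := Real.one_le_rpow hX1 (by linarith [min_le_right ε' (τ / 4)])
  · -- small heights
    rw [not_le] at hyb
    set ℓ : ℝ := X ^ (τ / 16) with hℓ
    have hℓ1 : 1 ≤ ℓ := Real.one_le_rpow hX1 (by positivity)
    have hθ2 : X ^ θ ≤ X := by
      calc X ^ θ ≤ X ^ (1 : ℝ) := rle (by linarith)
        _ = X := Real.rpow_one X
    have htb := tbT q0 A ℓ x T 0 y hq hℓ1 (fun t ht => ⟨S.pos (hT t ht), by
        have h1 := S.bd t (hT t ht)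
        have h2 : (t : ℝ) ≤ X := by
          have h3 : (t : ℝ) ≤ q0 * t := le_mul_of_one_le_left (Nat.cast_nonneg t) (by exact_mod_cast hq)
          linarith
        exact (Nat.cast_le (α := ℝ)).1 h2, (Nat.squarefree_mul_iff.1 (S.sf t (hT t ht))).1⟩) htau hlog
    have hΛ : ∀ n ∈ Ioc 0 y, ArithmeticFunction.vonMangoldt n ≤ ℓ := by
      intro n hn
      rw [mem_Ioc] at hn
      have h1 : Real.log n ≤ Real.log X := Real.log_le_log (by exact_mod_cast hn.1)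
        ((Nat.cast_le (α := ℝ)).2 (hn.2.trans hy))
      exact (ArithmeticFunction.vonMangoldt_le_log.trans h1).trans (by linarith)
    have e1 : Icc 1 y = Ioc 0 y := by ext n; simp only [mem_Icc, mem_Ioc]; omega
    have h1 : ∑ t ∈ T, |∑ n ∈ Icc 1 y, ArithmeticFunction.vonMangoldt n * ww q0 (A t) t n| ≤
        ℓ * ∑ t ∈ T, ∑ n ∈ Ioc 0 y, |ww q0 (A t) t n| := by
      rw [mul_sum, e1]
      refine sum_le_sum fun t _ => ?_
      refine (abs_sum_le_sum_abs _ _).trans ?_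
      rw [mul_sum]
      refine sum_le_sum fun n hn => ?_
      rw [abs_mul, abs_of_nonneg ArithmeticFunction.vonMangoldt_nonneg]
      exact mul_le_mul_of_nonneg_right (hΛ n hn) (abs_nonneg _)
    refine h1.trans ?_
    have hcard := card_TS (by omega : 0 < x) S T hT
    rw [Nat.sub_zero] at htb
    have hq1 : 1 ≤ X ^ (1 - τ) / q0 := by
      rw [one_le_div hqr]
      exact hqκ.trans (rle (by linarith))
    have hθ3 : X ^ θ / q0 ≤ X ^ (1 - τ / 4 * 3) / q0 := by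
      apply div_le_div_of_nonneg_right _ hqr.le
      apply rle
      linarith
    have hτ3 : X ^ (1 - τ) / q0 ≤ X ^ (1 - τ / 4 * 3) / q0 := by
      apply div_le_div_of_nonneg_right _ hqr.le
      apply rle
      linarith
    have hyq : (y : ℝ) / q0 ≤ X ^ (1 - τ) / q0 := div_le_div_of_nonneg_right hyb.le hqr.le
    set Z : ℝ := X ^ (1 - τ / 4 * 3) / q0 with hZ
    have hZ0 : 0 ≤ Z := by have := (rpos (1 - τ / 4 * 3)).le; positivity
    calc ℓ * ∑ t ∈ T, ∑ n ∈ Ioc 0 y, |ww q0 (A t) t n| ≤ ℓ * (2 * ℓ ^ 2 * ((y : ℝ) / q0 + 1) + T.card) :=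
          mul_le_mul_of_nonneg_left htb (by linarith)
      _ ≤ ℓ * (2 * ℓ ^ 2 * (Z + Z) + Z) := by
          have hc2 : (T.card : ℝ) ≤ Z := hcard.trans hθ3
          have hy2 : (y : ℝ) / q0 ≤ Z := hyq.trans hτ3
          have h12 : 1 ≤ Z := hq1.trans hτ3
          gcongr
      _ ≤ ℓ * (2 * ℓ ^ 2 * (Z + Z) + ℓ ^ 2 * Z) := by
          have : 1 ≤ ℓ ^ 2 := one_le_pow₀ hℓ1
          have h6 : Z ≤ ℓ ^ 2 * Z := le_mul_of_one_le_left hZ0 this
          gcongr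
      _ = 5 * (ℓ ^ 3 * Z) := by ring
      _ ≤ X ^ (τ / 8) * (ℓ ^ 3 * Z) := mul_le_mul_of_nonneg_right hx5 (by positivity)
      _ = X ^ (1 - τ / 16 * 7) / q0 := by
          rw [hℓ, hZ, pw hX0, mul_div_assoc', mul_div_assoc', radd, radd]
          congr 2
          push_cast
          ring
      _ ≤ X ^ (1 - min ε' (τ / 4)) / q0 := by
          apply div_le_div_of_nonneg_right _ hqr.le
          apply rle
          linarith [min_le_right ε' (τ / 4)]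

end Pool.Agent.R503.T
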