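import Mathlib
import Pool.Agent.R503.T.PiD

/-! Ordered sequences of primes (helper503). -/

open Finset Filter

namespace Pool.Agent.R503.T

open Pool.Agent.Y826.Z Pool.Agent.Y826.Z.OB Pool.Agent.R503.N

/-- the relative order of the entries -/
def HasCode (c : ℕ → ℕ) : List ℕ → Prop
  | [] => True
  | p :: l => l.countP (fun y => decide (y < p)) = c l.length ∧ HasCode c l

lemma HasCode.congr {c c' : ℕ → ℕ} : ∀ l : List ℕ, (∀ j, j < l.length → c j = c' j) → HasCode c l → HasCode c' l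
  | [], _, _ => trivial
  | p :: l, h, h1 => by
    refine ⟨?_, HasCode.congr l (fun j hj => h j (by simp; omega)) h1.2⟩
    rw [← h l.length (by simp)]
    exact h1.1

lemma HasCode.ex : ∀ l : List ℕ, ∃ c : ℕ → ℕ, HasCode c l ∧ ∀ j, c j ≤ j
  | [] => ⟨fun _ => 0, trivial, fun j => Nat.zero_le j⟩
  | p :: l => by
    obtain ⟨c, h1, h2⟩ := HasCode.ex l
    refine ⟨fun j => if j = l.length then l.countP (fun y => decide (y < p)) else c j, ⟨by simp, ?_⟩, ?_⟩
    · apply HasCode.congr l _ h1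
      intro j hj
      rw [if_neg (by omega)]
    · intro j
      by_cases hj : j = l.length
      · simp only [hj, if_true]
        exact List.countP_le_length
      · simp only [hj, if_false]
        exact h2 j

lemma HasCode.perm {c : ℕ → ℕ} : ∀ l l' : List ℕ, HasCode c l → HasCode c l' → l.Perm l' → l = l'
  | [], l', _, _, hp => (List.nil_perm.1 hp).symm
  | p :: m, [], _, _, hp => absurd hp (by simp)
  | p :: m, p' :: m', h, h', hp => by
    have hlen : m.length = m'.length := by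
      have := hp.length_eq
      simpa using this
    have key : ∀ (p p' : ℕ) (m m' : List ℕ), m.countP (fun y => decide (y < p)) = c m.length →
        m'.countP (fun y => decide (y < p')) = c m'.length → (p :: m).Perm (p' :: m') → m.length = m'.length →
        ¬ p < p' := by
      intro p p' m m' a1 a2 hp hlen hlt
      have h1 : (p' :: m').countP (fun y => decide (y < p')) = m'.countP (fun y => decide (y < p')) := by
        rw [List.countP_cons_of_neg]
        simp
      have h2 : (p :: m).countP (fun y => decide (y < p')) = m.countP (fun y => decide (y < p')) + 1 := by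
        rw [List.countP_cons_of_pos]
        simpa using hlt
      have h3 := hp.countP_eq (fun y => decide (y < p'))
      have h4 : m.countP (fun y => decide (y < p)) ≤ m.countP (fun y => decide (y < p')) := by
        apply List.countP_mono_left
        intro y _ hy
        simp only [decide_eq_true_eq] at hy ⊢
        omega
      rw [hlen] at a1
      omega
    have e : p = p' := by
      have k1 := key p p' m m' h.1 h'.1 hp hlen
      have k2 := key p' p m' m h'.1 h.1 hp.symm hlen.symm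
      omega
    subst e
    have hp2 : m.Perm m' := hp.cons_inv
    rw [HasCode.perm m m' h.2 h'.2 hp2]

/-- an ordered system of primes with classes, at height `x`; the last prime is the head of the list -/
structure LS (x q0 : ℕ) (θ ρ η σ : ℝ) (A : List ℕ → ℤ) (D : Finset (List ℕ)) : Prop where
  q0p : 0 < q0
  sf : ∀ l ∈ D, Squarefree (q0 * l.prod)
  pm : ∀ l ∈ D, ∀ p ∈ l, p.Prime ∧ (x : ℝ) ^ ρ ≤ p ∧ (p : ℝ) ≤ (x : ℝ) ^ η
  bd : ∀ l ∈ D, (q0 : ℝ) * (l.prod : ℕ) ≤ (x : ℝ) ^ θ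
  cc : ∀ l ∈ D, IsCoprime (A l) ((q0 * l.prod : ℕ) : ℤ)
  sc : ∀ p l, p :: l ∈ D → l ∈ D
  pw : ∀ l ∈ D, l.Pairwise (fun p' p : ℕ => (x : ℝ) ^ ρ * (p : ℝ) ≤ (p' : ℝ) ^ 2)
  co : ∀ l ∈ D, ∀ l', l' <:+ l → (q0 : ℝ) * (l'.prod : ℕ) ≤ (x : ℝ) ^ (1 / 2 - σ) →
    ((q0 * l'.prod : ℕ) : ℤ) ∣ A l - A l'

section
variable {x q0 : ℕ} {θ ρ η σ : ℝ} {A : List ℕ → ℤ} {D : Finset (List ℕ)}

lemma prod_inj (hpm : ∀ l ∈ D, ∀ p ∈ l, p.Prime) (c : ℕ → ℕ) {l l' : List ℕ} (hl : l ∈ D) (hl' : l' ∈ D)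
    (h : HasCode c l) (h' : HasCode c l') (e : l.prod = l'.prod) : l = l' := by
  apply HasCode.perm l l' h h'
  have h1 := Nat.primeFactorsList_unique rfl (hpm l hl)
  have h2 := Nat.primeFactorsList_unique rfl (hpm l' hl')
  rw [← e] at h2
  exact h1.trans h2.symm

open Classical in
/-- the list with a given product -/
noncomputable def lof (D : Finset (List ℕ)) (c : ℕ → ℕ) (t : ℕ) : List ℕ :=
  if h : ∃ l, l ∈ D ∧ HasCode c l ∧ l.prod = t then h.choose else []

lemma lof_spec (c : ℕ → ℕ) {t : ℕ} (h : ∃ l, l ∈ D ∧ HasCode c l ∧ l.prod = t) :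
    lof D c t ∈ D ∧ HasCode c (lof D c t) ∧ (lof D c t).prod = t := by
  unfold lof
  rw [dif_pos h]
  exact h.choose_spec

lemma lof_eq (hpm : ∀ l ∈ D, ∀ p ∈ l, p.Prime) (c : ℕ → ℕ) {l : List ℕ} (hl : l ∈ D) (h : HasCode c l) :
    lof D c l.prod = l := by
  have h1 := lof_spec (D := D) c ⟨l, hl, h, rfl⟩
  exact prod_inj hpm c h1.1 hl h1.2.1 h h1.2.2

lemma suffix_mem (hsc : ∀ p l, p :: l ∈ D → l ∈ D) {l l' : List ℕ} (hl : l ∈ D) (h : l' <:+ l) : l' ∈ D := by
  obtain ⟨t, rfl⟩ := h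
  induction t with
  | nil => simpa using hl
  | cons a t ih => exact ih (hsc a _ hl)

/-- the tree of the products -/
lemma LS.toTS (S : LS x q0 θ ρ η σ A D) (c : ℕ → ℕ) :
    TS x q0 θ ρ η σ (fun t => (lof D c t).tail.prod) (fun t => A (lof D c t))
      {t | ∃ l, l ∈ D ∧ HasCode c l ∧ l.prod = t} := by
  have hpm : ∀ l ∈ D, ∀ p ∈ l, p.Prime := fun l hl p hp => (S.pm l hl p hp).1
  have hpos : ∀ l ∈ D, 0 < l.prod := by
    intro l hl
    refine Nat.pos_of_ne_zero fun h0 => ?_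
    have := (S.sf l hl).ne_zero
    rw [h0, mul_zero] at this
    exact this rfl
  have hpar : ∀ t, (∃ l, l ∈ D ∧ HasCode c l ∧ l.prod = t) → t ≠ 1 → ∃ p m, lof D c t = p :: m ∧ p :: m ∈ D ∧
      HasCode c (p :: m) ∧ m.prod * p = t := by
    intro t ht ht1
    obtain ⟨h1, h2, h3⟩ := lof_spec (D := D) c ht
    rcases hl : lof D c t with _ | ⟨p, m⟩
    · rw [hl] at h3
      simp at h3
      exact absurd h3.symm ht1
    · rw [hl] at h1 h2 h3
      refine ⟨p, m, rfl, h1, h2, ?_⟩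
      rw [← h3, List.prod_cons, mul_comm]
  have hch : ∀ s t, Ch (fun t => (lof D c t).tail.prod) {t | ∃ l, l ∈ D ∧ HasCode c l ∧ l.prod = t} s t →
      lof D c s <:+ lof D c t := by
    intro s t h
    induction h with
    | refl h => exact List.suffix_refl _
    | step t h h1 hs ih =>
      obtain ⟨p, m, e1, e2, e3, e4⟩ := hpar t h h1
      have e5 : lof D c ((lof D c t).tail.prod) = m := by
        rw [e1, List.tail_cons]
        exact lof_eq hpm c (S.sc p m e2) e3.2
      rw [e5] at ih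
      rw [e1]
      exact ih.trans (List.suffix_cons p m)
  refine ⟨S.q0p, ?_, ?_, ?_, ?_, ?_, ?_, ?_⟩
  · rintro t ⟨l, hl, -, rfl⟩
    exact S.sf l hl
  · rintro t ⟨l, hl, h, rfl⟩
    rw [lof_eq hpm c hl h]
    exact S.cc l hl
  · rintro t ⟨l, hl, h, rfl⟩ p hp hd
    obtain ⟨a, ha, hpa⟩ := (Prime.dvd_prod_iff hp.prime).1 hd
    have h1 := S.pm l hl a ha
    have h2 : p = a := (Nat.prime_dvd_prime_iff_eq hp h1.1).1 hpa
    rw [h2]
    exact h1.2
  · rintro t ⟨l, hl, h, rfl⟩
    exact S.bd l hl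
  · intro t ht ht1
    obtain ⟨p, m, e1, e2, e3, e4⟩ := hpar t ht ht1
    rw [e1, List.tail_cons]
    exact ⟨⟨m, S.sc p m e2, e3.2, rfl⟩, p, (S.pm _ e2 p (by simp)).1, e4⟩
  · intro s t hc hs1 p p' hp hp'
    have hsuf := hch s t hc
    have hst : ∀ s t, Ch (fun t => (lof D c t).tail.prod) {t | ∃ l, l ∈ D ∧ HasCode c l ∧ l.prod = t} s t →
        (∃ l, l ∈ D ∧ HasCode c l ∧ l.prod = s) ∧ (∃ l, l ∈ D ∧ HasCode c l ∧ l.prod = t) := by
      intro s t h
      induction h with
      | refl h => exact ⟨h, h⟩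
      | step t h h1 hs ih => exact ⟨ih.1, h⟩
    obtain ⟨hs, ht⟩ := hst s t hc
    obtain ⟨p1, m1, e1, e2, e3, e4⟩ := hpar s hs hs1
    have ht1 : t ≠ 1 := by
      rintro rfl
      obtain ⟨h1, h2, h3⟩ := lof_spec (D := D) c ht
      have h4 : p1 ∈ lof D c 1 := by
        apply hsuf.subset
        rw [e1]
        simp
      have h5 := List.dvd_prod h4
      rw [h3] at h5
      have h6 := (S.pm _ e2 p1 (by simp)).1
      exact absurd (Nat.dvd_one.1 h5) h6.one_lt.ne'
    obtain ⟨p2, m2, f1, f2, f3, f4⟩ := hpar t ht ht1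
    have hpe : p = p1 := by
      rw [e1, List.tail_cons] at hp
      apply Nat.eq_of_mul_eq_mul_left (hpos m1 (S.sc p1 m1 e2))
      rw [hp, e4]
    have hpe' : p' = p2 := by
      rw [f1, List.tail_cons] at hp'
      apply Nat.eq_of_mul_eq_mul_left (hpos m2 (S.sc p2 m2 f2))
      rw [hp', f4]
    rw [hpe, hpe']
    rw [e1, f1] at hsuf
    have hmem : p1 ∈ p2 :: m2 := hsuf.subset (by simp)
    have hpw := S.pw _ f2
    rw [List.pairwise_cons] at hpw
    rcases List.mem_cons.1 hmem with h | h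
    · rw [h]
      have := (S.pm _ f2 p2 (by simp)).2.1
      calc (x : ℝ) ^ ρ * p2 ≤ (p2 : ℝ) * p2 := mul_le_mul_of_nonneg_right this (Nat.cast_nonneg _)
        _ = (p2 : ℝ) ^ 2 := by ring
    · exact hpw.1 p1 h
  · intro s t hc hle
    have hsuf := hch s t hc
    have hst : ∀ s t, Ch (fun t => (lof D c t).tail.prod) {t | ∃ l, l ∈ D ∧ HasCode c l ∧ l.prod = t} s t →
        (∃ l, l ∈ D ∧ HasCode c l ∧ l.prod = s) ∧ (∃ l, l ∈ D ∧ HasCode c l ∧ l.prod = t) := by
      intro s t h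
      induction h with
      | refl h => exact ⟨h, h⟩
      | step t h h1 hs ih => exact ⟨ih.1, h⟩
    obtain ⟨hs, ht⟩ := hst s t hc
    obtain ⟨a1, a2, a3⟩ := lof_spec (D := D) c hs
    obtain ⟨b1, b2, b3⟩ := lof_spec (D := D) c ht
    have h1 := S.co _ b1 _ hsuf (by rw [a3]; exact hle)
    rw [a3] at h1
    exact h1

end

end Pool.Agent.R503.T
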