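import Mathlib
import Pool.Agent.R503.T.Seq

/-! The main theorem for ordered sequences of primes (helper503). -/

open Finset Filter

namespace Pool.Agent.R503.T

open Pool.Agent.Y826.Z Pool.Agent.Y826.Z.OB Pool.Agent.R503.N

/-- extension of codes -/
def ext (K : ℕ) (c : Fin K → Fin K) (j : ℕ) : ℕ := if h : j < K then (c ⟨j, h⟩ : ℕ) else 0

lemma code_ex (K : ℕ) (l : List ℕ) (hl : l.length ≤ K) : ∃ c : Fin K → Fin K, HasCode (ext K c) l := by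
  obtain ⟨c, h1, h2⟩ := HasCode.ex l
  refine ⟨fun j => ⟨c j, lt_of_le_of_lt (h2 j) j.2⟩, ?_⟩
  apply HasCode.congr l _ h1
  intro j hj
  unfold ext
  rw [dif_pos (by omega)]

lemma length_le {x q0 : ℕ} {θ ρ η σ : ℝ} {A : List ℕ → ℤ} {D : Finset (List ℕ)} (S : LS x q0 θ ρ η σ A D)
    (hx : (1 : ℝ) < x) (hρ : 0 < ρ) (hθ : θ ≤ 1) {l : List ℕ} (hl : l ∈ D) : (l.length : ℝ) ≤ 1 / ρ := by
  have h1 : ∀ l : List ℕ, (∀ p ∈ l, (x : ℝ) ^ ρ ≤ (p : ℕ)) → ((x : ℝ) ^ ρ) ^ l.length ≤ (l.prod : ℕ) := by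
    intro l
    induction l with
    | nil => intro _; simp
    | cons p m ih =>
      intro h
      have h2 := ih (fun p hp => h p (List.mem_cons_of_mem _ hp))
      have h3 := h p (by simp)
      rw [List.length_cons, pow_succ, List.prod_cons, Nat.cast_mul, mul_comm]
      have h0 : 0 ≤ (x : ℝ) ^ ρ := Real.rpow_nonneg (by linarith) _
      exact mul_le_mul h3 h2 (by positivity) (Nat.cast_nonneg _)
  have h2 := h1 l (fun p hp => (S.pm l hl p hp).2.1)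
  have h3 := S.bd l hl
  have hq : (1 : ℝ) ≤ q0 := by exact_mod_cast S.q0p
  have h4 : ((x : ℝ) ^ ρ) ^ l.length ≤ (x : ℝ) ^ (1 : ℝ) := by
    calc ((x : ℝ) ^ ρ) ^ l.length ≤ (l.prod : ℕ) := h2
      _ ≤ (q0 : ℝ) * (l.prod : ℕ) := le_mul_of_one_le_left (Nat.cast_nonneg _) hq
      _ ≤ (x : ℝ) ^ θ := h3
      _ ≤ (x : ℝ) ^ (1 : ℝ) := Real.rpow_le_rpow_of_exponent_le hx.le hθ
  rw [pw (by linarith), Real.rpow_le_rpow_left_iff hx] at h4
  rw [le_div_iff₀ hρ]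
  linarith

/-- one code -/
lemma one_code {x q0 : ℕ} {θ ρ η σ : ℝ} {A : List ℕ → ℤ} {D : Finset (List ℕ)} (S : LS x q0 θ ρ η σ A D)
    (B : ℝ) (y : List ℕ → ℕ)
    (hB : ∀ (par : ℕ → ℕ) (A' : ℕ → ℤ) (D' : Set ℕ), TS x q0 θ ρ η σ par A' D' → ∀ T : Finset ℕ, (∀ t ∈ T, t ∈ D') →
      ∀ y' : ℕ → ℕ, (∀ t, y' t ≤ x) →
      ∑ t ∈ T, |pn (y' t) (q0 * t) (A' t) - pn (y' t) q0 (A' t) / (Nat.totient t : ℝ)| ≤ B)
    (hy : ∀ l, y l ≤ x) (c : ℕ → ℕ) (Dc : Finset (List ℕ)) (hDc : ∀ l ∈ Dc, l ∈ D ∧ HasCode c l) :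
    ∑ l ∈ Dc, |pn (y l) (q0 * l.prod) (A l) - pn (y l) q0 (A l) / (Nat.totient l.prod : ℝ)| ≤ B := by
  classical
  have hpm : ∀ l ∈ D, ∀ p ∈ l, p.Prime := fun l hl p hp => (S.pm l hl p hp).1
  have h1 := hB _ _ _ (S.toTS c) (Dc.image List.prod) (by
    intro t ht
    rw [mem_image] at ht
    obtain ⟨l, hl, rfl⟩ := ht
    exact ⟨l, (hDc l hl).1, (hDc l hl).2, rfl⟩) (fun t => y (lof D c t)) (fun t => hy _)
  rw [sum_image] at h1
  · refine le_trans (le_of_eq ?_) h1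
    refine sum_congr rfl fun l hl => ?_
    rw [lof_eq hpm c (hDc l hl).1 (hDc l hl).2]
  · intro a ha b hb hab
    exact prod_inj hpm c (hDc a ha).1 (hDc b hb).1 (hDc a ha).2 (hDc b hb).2 hab

/-- **the main theorem for ordered sequences of primes** -/
theorem seq_max (θ η ρ σ κ : ℝ) (hθ1 : 1 / 2 ≤ θ) (hη : 0 < η) (hσ : 0 ≤ σ)
    (hC3 : 28 * (θ - 1 / 2) + 20 * η + 15 * σ < 1 / 3)
    (hHG : 2 * (θ - 1 / 2) + σ < ρ) (hκ0 : 0 ≤ κ) (hκ : κ + σ < 1 / 3) :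
    ∃ ε : ℝ, 0 < ε ∧ ∀ᶠ x : ℕ in atTop, ∀ q0 : ℕ, (q0 : ℝ) ≤ (x : ℝ) ^ κ →
      ∀ (A : List ℕ → ℤ) (D : Finset (List ℕ)), LS x q0 θ ρ η σ A D → ∀ y : List ℕ → ℕ, (∀ l, y l ≤ x) →
      ∑ l ∈ D, |pn (y l) (q0 * l.prod) (A l) - pn (y l) q0 (A l) / (Nat.totient l.prod : ℝ)| ≤
        (x : ℝ) ^ (1 - ε) / q0 := by
  classical
  obtain ⟨ε', hε', hev⟩ := pi_maxT θ η ρ σ κ hθ1 hη hσ hC3 hHG hκ0 hκ
  have hρ : 0 < ρ := by linarith
  set K : ℕ := ⌈1 / ρ⌉₊ with hK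
  refine ⟨ε' / 2, by positivity, ?_⟩
  have h11 : ∀ᶠ x : ℕ in atTop, ((Fintype.card (Fin K → Fin K) : ℕ) : ℝ) ≤ (x : ℝ) ^ (ε' / 2) :=
    tendsto_natCast_atTop_atTop.eventually (Pool.Agent.Y61.Z.ev_rpow _ (by positivity))
  filter_upwards [hev, h11, eventually_ge_atTop 2] with x hx hx11 hx2 q0 hqκ A D S y hy
  have hX : (2 : ℝ) ≤ x := by exact_mod_cast hx2
  have hX0 : (0 : ℝ) < x := by linarith
  have hqr : (0 : ℝ) < q0 := by exact_mod_cast S.q0p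
  set f : List ℕ → ℝ := fun l => |pn (y l) (q0 * l.prod) (A l) - pn (y l) q0 (A l) / (Nat.totient l.prod : ℝ)| with hf
  have hf0 : ∀ l, 0 ≤ f l := fun l => abs_nonneg _
  set B : ℝ := (x : ℝ) ^ (1 - ε') / q0 with hB
  have hB0 : 0 ≤ B := by have := Real.rpow_nonneg hX0.le (1 - ε'); positivity
  have h1 : ∑ l ∈ D, f l ≤ ∑ c : Fin K → Fin K, ∑ l ∈ D.filter (fun l => HasCode (ext K c) l), f l := by
    simp only [sum_filter]
    rw [sum_comm]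
    refine sum_le_sum fun l hl => ?_
    obtain ⟨c, hc⟩ := code_ex K l (by
      have h2 := length_le S (by linarith) hρ (by linarith) hl
      have h3 := Nat.le_ceil (1 / ρ)
      exact_mod_cast h2.trans h3)
    have h3 := single_le_sum (f := fun c : Fin K → Fin K => if HasCode (ext K c) l then f l else 0)
      (fun c _ => by
        by_cases h : HasCode (ext K c) l
        · simp only [h, if_true]; exact hf0 l
        · simp only [h, if_false]; exact le_rfl) (mem_univ c)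
    simp only [hc, if_true] at h3
    exact h3
  have h2 : ∀ c : Fin K → Fin K, ∑ l ∈ D.filter (fun l => HasCode (ext K c) l), f l ≤ B := by
    intro c
    apply one_code S B y _ hy (ext K c)
    · intro l hl
      rw [mem_filter] at hl
      exact hl
    · intro par A' D' TSS T hT y' hy'
      exact hx q0 hqκ par A' D' TSS T hT y' hy'
  calc ∑ l ∈ D, f l ≤ ∑ c : Fin K → Fin K, B := h1.trans (sum_le_sum fun c _ => h2 c)
    _ = (Fintype.card (Fin K → Fin K) : ℝ) * B := by rw [sum_const, nsmul_eq_mul]; rfl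
    _ ≤ (x : ℝ) ^ (ε' / 2) * B := mul_le_mul_of_nonneg_right hx11 hB0
    _ = (x : ℝ) ^ (1 - ε' / 2) / q0 := by
        rw [hB, mul_div_assoc', ← Real.rpow_add hX0]
        congr 2
        ring

end Pool.Agent.R503.T
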