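import Mathlib
import Pool.Agent.R503.T.SeqB
import Pool.Agent.R503.N.FinB

/-! Together with the theorem of Bombieri and Vinogradov and the prime number theorem (helper503). -/

open Finset Filter

namespace Pool.Agent.R503.T

open Pool.Agent.Y826.Z Pool.Agent.Y826.Z.OB Pool.Agent.R503.N
open Pool.Agent.H442R2.KF

lemma pn_congr (y q : ℕ) (c c' : ℤ) (h : (q : ℤ) ∣ c - c') : pn y q c = pn y q c' := by
  unfold pn
  congr 2
  apply filter_congr
  intro p _
  rw [dvd_sub_trans h]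

/-- one modulus `q0` -/
lemma one_qT (x q0 : ℕ) (A : ℕ → ℤ) (c : ℤ) (T : Finset ℕ) (hx : 3 ≤ x) (hq : 0 < q0) (hT : T ⊆ Icc 1 x)
    (hcop : ∀ t ∈ T, q0.Coprime t) (hc : IsCoprime c (q0 : ℤ)) (hA : ∀ t ∈ T, (q0 : ℤ) ∣ A t - c) :
    ∑ t ∈ T, |pn x (q0 * t) (A t) - lin x / (Nat.totient (q0 * t) : ℝ)| ≤
      ∑ t ∈ T, |pn x (q0 * t) (A t) - pn x q0 (A t) / (Nat.totient t : ℝ)| +
      4 * Real.log x ^ 2 * (|Er x q0 (rep q0 c)| + |(piN x : ℝ) - lin x| / (Nat.totient q0 : ℝ)) := by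
  have h1 : ∀ t ∈ T, |pn x (q0 * t) (A t) - lin x / (Nat.totient (q0 * t) : ℝ)| ≤
      |pn x (q0 * t) (A t) - pn x q0 (A t) / (Nat.totient t : ℝ)| +
      1 / (Nat.totient t : ℝ) * (|Er x q0 (rep q0 c)| + |(piN x : ℝ) - lin x| / (Nat.totient q0 : ℝ)) := by
    intro t ht
    have e : pn x (q0 * t) (A t) - lin x / (Nat.totient (q0 * t) : ℝ) =
        (pn x (q0 * t) (A t) - pn x q0 (A t) / (Nat.totient t : ℝ)) +
        1 / (Nat.totient t : ℝ) * (Er x q0 (rep q0 c) + ((piN x : ℝ) - lin x) / (Nat.totient q0 : ℝ)) := by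
      have e1 : Er x q0 (rep q0 c) = pn x q0 (A t) - (piN x : ℝ) / (Nat.totient q0 : ℝ) := by
        unfold Er
        rw [pn_congr x q0 (A t) c (hA t ht), pn_rep x q0 c hq hc]
      rw [e1, Nat.totient_mul (hcop t ht)]
      push_cast
      have a1 : (0 : ℝ) < Nat.totient q0 := by exact_mod_cast Nat.totient_pos.2 hq
      have a2 : (0 : ℝ) < Nat.totient t := by exact_mod_cast Nat.totient_pos.2 (mem_Icc.1 (hT ht)).1
      field_simp
      ring
    rw [e]
    refine (abs_add_le _ _).trans (add_le_add le_rfl ?_)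
    rw [abs_mul, abs_of_nonneg (by positivity : (0 : ℝ) ≤ 1 / (Nat.totient t : ℝ))]
    apply mul_le_mul_of_nonneg_left _ (by positivity)
    refine (abs_add_le _ _).trans (add_le_add le_rfl ?_)
    rw [abs_div, Nat.abs_cast]
  refine (sum_le_sum h1).trans ?_
  rw [sum_add_distrib, ← sum_mul]
  apply add_le_add le_rfl
  exact mul_le_mul_of_nonneg_right (sum_inv_phi x hx T hT) (by positivity)

/-- large `x` -/
lemma fin_largeT (x : ℕ) (hx : 3 ≤ x) (U : ℕ) (κ C1 C2 B : ℝ) (S : Finset ℕ) (T : ℕ → Finset ℕ) (a : ℕ → ℤ)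
    (A : ℕ → ℕ → ℤ)
    (hS : ∀ q ∈ S, 0 < q ∧ q ≤ x ∧ (q : ℝ) ≤ (x : ℝ) ^ κ ∧ IsCoprime (a q) (q : ℤ))
    (hT : ∀ q ∈ S, T q ⊆ Icc 1 x) (hco : ∀ q ∈ S, ∀ t ∈ T q, q.Coprime t)
    (hA : ∀ q ∈ S, ∀ t ∈ T q, (q : ℤ) ∣ A q t - a q)
    (hmain : ∀ q ∈ S, ∑ t ∈ T q, |pn x (q * t) (A q t) - pn x q (A q t) / (Nat.totient t : ℝ)| ≤ B / q) (hB0 : 0 ≤ B)
    (hB : B * (1 + Real.log x) ≤ x / Real.log x ^ U)
    (hbv : ∀ b : ℕ → ℕ, (∀ d, 1 ≤ d → Nat.Coprime (b d) d) →
      ∑ d ∈ Icc 1 ⌊(x : ℝ) ^ κ⌋₊, |Er x d (b d)| ≤ C1 * (x / Real.log x ^ (U + 2)))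
    (hpnt : |(piN x : ℝ) - lin x| ≤ C2 * (x / Real.log x ^ (U + 4))) :
    ∑ q ∈ S, ∑ t ∈ T q, |pn x (q * t) (A q t) - lin x / (Nat.totient (q * t) : ℝ)| ≤
      (1 + 4 * C1 + 16 * C2) * (x / Real.log x ^ U) := by
  classical
  have hl := log_ge1 hx
  have hl0 : 0 < Real.log x := by linarith
  have hxr : (0 : ℝ) < x := by exact_mod_cast (by omega : 0 < x)
  refine (sum_le_sum fun q hq => one_qT x q (A q) (a q) (T q) hx (hS q hq).1 (hT q hq) (hco q hq) (hS q hq).2.2.2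
    (hA q hq)).trans ?_
  rw [sum_add_distrib, ← mul_sum, sum_add_distrib]
  have h1 : ∑ q ∈ S, ∑ t ∈ T q, |pn x (q * t) (A q t) - pn x q (A q t) / (Nat.totient t : ℝ)| ≤
      x / Real.log x ^ U := by
    refine (sum_le_sum hmain).trans ?_
    have e : ∑ q ∈ S, B / (q : ℝ) = B * ∑ q ∈ S, (1 / (q : ℝ)) := by
      rw [mul_sum]
      exact sum_congr rfl fun q _ => by ring
    rw [e]
    have h2 := sum_mult 1 x one_pos S (fun q hq => ⟨(hS q hq).1, (hS q hq).2.1, one_dvd _⟩)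
    rw [Nat.cast_one, div_one] at h2
    exact (mul_le_mul_of_nonneg_left h2 hB0).trans hB
  have h2 : ∑ q ∈ S, |Er x q (rep q (a q))| ≤ C1 * (x / Real.log x ^ (U + 2)) := by
    refine le_trans ?_ (hbv (fun q => rep q (a q)) (fun d hd => rep_coprime d (a d) hd))
    apply sum_le_sum_of_subset_of_nonneg
    · intro q hq
      rw [mem_Icc]
      exact ⟨(hS q hq).1, Nat.le_floor (hS q hq).2.2.1⟩
    · intro i _ _
      exact abs_nonneg _
  have h3 : ∑ q ∈ S, |(piN x : ℝ) - lin x| / (Nat.totient q : ℝ) ≤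
      C2 * (x / Real.log x ^ (U + 4)) * (4 * Real.log x ^ 2) := by
    have e : ∑ q ∈ S, |(piN x : ℝ) - lin x| / (Nat.totient q : ℝ) =
        |(piN x : ℝ) - lin x| * ∑ q ∈ S, (1 / (Nat.totient q : ℝ)) := by
      rw [mul_sum]
      exact sum_congr rfl fun q _ => by ring
    rw [e]
    have h4 := sum_inv_phi x hx S (fun q hq => mem_Icc.2 ⟨(hS q hq).1, (hS q hq).2.1⟩)
    exact mul_le_mul hpnt h4 (sum_nonneg fun q _ => by positivity) ((abs_nonneg _).trans hpnt)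
  have h4 : 4 * Real.log x ^ 2 * (∑ q ∈ S, |Er x q (rep q (a q))| +
      ∑ q ∈ S, |(piN x : ℝ) - lin x| / (Nat.totient q : ℝ)) ≤
      4 * Real.log x ^ 2 * (C1 * (x / Real.log x ^ (U + 2)) + C2 * (x / Real.log x ^ (U + 4)) * (4 * Real.log x ^ 2)) :=
    mul_le_mul_of_nonneg_left (add_le_add h2 h3) (by positivity)
  refine (add_le_add h1 h4).trans (le_of_eq ?_)
  rw [pow_add, pow_add]
  field_simp
  ring

/-- **the final form for ordered sequences of primes** -/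
theorem fin_seq (θ η ρ σ κ : ℝ) (hθ1 : 1 / 2 ≤ θ) (hη : 0 < η) (hσ : 0 ≤ σ)
    (hC3 : 28 * (θ - 1 / 2) + 20 * η + 15 * σ < 1 / 3)
    (hHG : 2 * (θ - 1 / 2) + σ < ρ) (hκ0 : 0 ≤ κ) (hκ : κ + σ < 1 / 3) (U : ℕ) :
    ∀ᶠ x : ℕ in atTop, ∀ (S : Finset ℕ) (A : ℕ → List ℕ → ℤ) (D : ℕ → Finset (List ℕ)),
      (∀ q ∈ S, (q : ℝ) ≤ (x : ℝ) ^ κ) → (∀ q ∈ S, LS x q θ ρ η σ (A q) (D q)) →
      ∑ q ∈ S, ∑ l ∈ D q, |pn x (q * l.prod) (A q l) - lin x / (Nat.totient (q * l.prod) : ℝ)| ≤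
        x / Real.log x ^ U := by
  classical
  obtain ⟨ε, hε, hev⟩ := pi_allT θ η ρ σ κ hθ1 hη hσ hC3 hHG hκ0 hκ
  have hρ : 0 < ρ := by linarith
  set K : ℕ := ⌈1 / ρ⌉₊ with hK
  obtain ⟨C1, hC1, hbv⟩ := bv κ (by linarith) (U + 1 + 2)
  obtain ⟨C2, hC2, hpnt⟩ := pnt_lin (U + 1 + 4)
  set C : ℝ := (Fintype.card (Fin K → Fin K) : ℝ) * (1 + 4 * C1 + 16 * C2) with hC
  have hlog : ∀ᶠ x : ℕ in atTop, 2 * Real.log x ^ (U + 1 + 1) ≤ (x : ℝ) ^ ε :=
    tendsto_natCast_atTop_atTop.eventually (Pool.Agent.Y61.Z.ev_log_rpow 2 (U + 1 + 1) hε)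
  have hlogC : ∀ᶠ x : ℕ in atTop, C ≤ Real.log x :=
    tendsto_natCast_atTop_atTop.eventually (Pool.Agent.Y61.Z.ev_log C)
  filter_upwards [hev, hlog, hlogC, eventually_ge_atTop 3] with x hx hx2 hxC hx3 S A D hSκ hLS
  have hl := log_ge1 hx3
  have hl0 : 0 < Real.log x := by linarith
  have hx1 : (1 : ℝ) ≤ x := by exact_mod_cast (by omega : 1 ≤ x)
  have hx1' : (1 : ℝ) < x := by exact_mod_cast (by omega : 1 < x)
  have hxr : (0 : ℝ) < x := by linarith
  have hSx : ∀ q ∈ S, q ≤ x := by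
    intro q hq
    have h1 : (q : ℝ) ≤ x := by
      refine (hSκ q hq).trans ?_
      calc (x : ℝ) ^ κ ≤ (x : ℝ) ^ (1 : ℝ) := Real.rpow_le_rpow_of_exponent_le hx1 (by linarith)
        _ = x := Real.rpow_one _
    exact_mod_cast h1
  have hpos : ∀ q ∈ S, ∀ l ∈ D q, 0 < l.prod := by
    intro q hq l hl
    refine Nat.pos_of_ne_zero fun h0 => ?_
    have := ((hLS q hq).sf l hl).ne_zero
    rw [h0, mul_zero] at this
    exact this rfl
  -- one code
  have hcode : ∀ c : Fin K → Fin K, ∑ q ∈ S, ∑ l ∈ (D q).filter (fun l => HasCode (ext K c) l),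
      |pn x (q * l.prod) (A q l) - lin x / (Nat.totient (q * l.prod) : ℝ)| ≤
      (1 + 4 * C1 + 16 * C2) * (x / Real.log x ^ (U + 1)) := by
    intro c
    set T : ℕ → Finset ℕ := fun q => ((D q).filter (fun l => HasCode (ext K c) l)).image List.prod with hTdef
    set S' : Finset ℕ := S.filter (fun q => (T q).Nonempty) with hS'
    have hpm : ∀ q ∈ S, ∀ l ∈ D q, ∀ p ∈ l, p.Prime := fun q hq l hl p hp => ((hLS q hq).pm l hl p hp).1
    have hTm : ∀ q, ∀ t ∈ T q, ∃ l, l ∈ D q ∧ HasCode (ext K c) l ∧ l.prod = t := by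
      intro q t ht
      rw [hTdef] at ht
      simp only [mem_image, mem_filter] at ht
      obtain ⟨l, ⟨h1, h2⟩, h3⟩ := ht
      exact ⟨l, h1, h2, h3⟩
    -- the root
    have hroot : ∀ q ∈ S, ∀ l ∈ D q, [] ∈ D q ∧ (q : ℤ) ∣ A q l - A q [] := by
      intro q hq l hl
      have h1 : ([] : List ℕ) <:+ l := List.nil_suffix
      refine ⟨suffix_mem (hLS q hq).sc hl h1, ?_⟩
      have h2 := (hLS q hq).co l hl [] h1 (by
        rw [List.prod_nil, Nat.cast_one, mul_one]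
        exact (hSκ q hq).trans (Real.rpow_le_rpow_of_exponent_le hx1 (by linarith)))
      simpa using h2
    have e1 : ∑ q ∈ S, ∑ l ∈ (D q).filter (fun l => HasCode (ext K c) l),
        |pn x (q * l.prod) (A q l) - lin x / (Nat.totient (q * l.prod) : ℝ)| =
        ∑ q ∈ S', ∑ t ∈ T q, |pn x (q * t) (A q (lof (D q) (ext K c) t)) - lin x / (Nat.totient (q * t) : ℝ)| := by
      have e2 : ∀ q ∈ S, ∑ l ∈ (D q).filter (fun l => HasCode (ext K c) l),
          |pn x (q * l.prod) (A q l) - lin x / (Nat.totient (q * l.prod) : ℝ)| =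
          ∑ t ∈ T q, |pn x (q * t) (A q (lof (D q) (ext K c) t)) - lin x / (Nat.totient (q * t) : ℝ)| := by
        intro q hq
        rw [hTdef]
        simp only
        rw [sum_image]
        · refine sum_congr rfl fun l hl => ?_
          rw [mem_filter] at hl
          rw [lof_eq (hpm q hq) (ext K c) hl.1 hl.2]
        · intro a ha b hb hab
          rw [mem_coe, mem_filter] at ha hb
          exact prod_inj (hpm q hq) (ext K c) ha.1 hb.1 ha.2 hb.2 hab
      rw [sum_congr rfl e2, hS', sum_filter]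
      refine sum_congr rfl fun q _ => ?_
      by_cases h : (T q).Nonempty
      · rw [if_pos h]
      · rw [if_neg h]
        rw [not_nonempty_iff_eq_empty] at h
        rw [h, sum_empty]
    rw [e1]
    have hS'm : ∀ q ∈ S', q ∈ S ∧ ∃ l, l ∈ D q := by
      intro q hq
      rw [hS', mem_filter] at hq
      obtain ⟨t, ht⟩ := hq.2
      obtain ⟨l, hl, -, -⟩ := hTm q t ht
      exact ⟨hq.1, l, hl⟩
    apply fin_largeT x hx3 (U + 1) κ C1 C2 ((x : ℝ) ^ (1 - ε)) S' T (fun q => A q [])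
      (fun q t => A q (lof (D q) (ext K c) t))
    · intro q hq
      obtain ⟨h1, l, hl⟩ := hS'm q hq
      refine ⟨(hLS q h1).q0p, hSx q h1, hSκ q h1, ?_⟩
      have h2 := (hLS q h1).cc [] (hroot q h1 l hl).1
      simpa using h2
    · intro q hq t ht
      obtain ⟨h1, -⟩ := hS'm q hq
      obtain ⟨l, hl, -, rfl⟩ := hTm q t ht
      rw [mem_Icc]
      refine ⟨hpos q h1 l hl, ?_⟩
      have h2 : ((l.prod : ℕ) : ℝ) ≤ x := by
        have h3 : ((l.prod : ℕ) : ℝ) ≤ q * (l.prod : ℕ) :=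
          le_mul_of_one_le_left (Nat.cast_nonneg _) (by exact_mod_cast (hLS q h1).q0p)
        refine h3.trans (((hLS q h1).bd l hl).trans ?_)
        calc (x : ℝ) ^ θ ≤ (x : ℝ) ^ (1 : ℝ) := Real.rpow_le_rpow_of_exponent_le hx1 (by linarith)
          _ = x := Real.rpow_one _
      exact_mod_cast h2
    · intro q hq t ht
      obtain ⟨h1, -⟩ := hS'm q hq
      obtain ⟨l, hl, -, rfl⟩ := hTm q t ht
      exact (Nat.squarefree_mul_iff.1 ((hLS q h1).sf l hl)).1
    · intro q hq t ht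
      obtain ⟨h1, -⟩ := hS'm q hq
      obtain ⟨l, hl, hc, rfl⟩ := hTm q t ht
      rw [lof_eq (hpm q h1) (ext K c) hl hc]
      exact (hroot q h1 l hl).2
    · intro q hq
      obtain ⟨h1, -⟩ := hS'm q hq
      exact hx q (hSκ q h1) _ _ _ ((hLS q h1).toTS (ext K c)) (T q) (hTm q) x le_rfl
    · exact Real.rpow_nonneg hxr.le _
    · rw [le_div_iff₀ (by positivity)]
      have e : (x : ℝ) = (x : ℝ) ^ (1 - ε) * (x : ℝ) ^ ε := by
        rw [← Real.rpow_add hxr]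
        have : 1 - ε + ε = 1 := by ring
        rw [this, Real.rpow_one]
      have h4 : (1 + Real.log x) * Real.log x ^ (U + 1) ≤ (x : ℝ) ^ ε := by
        calc (1 + Real.log x) * Real.log x ^ (U + 1) ≤ (2 * Real.log x) * Real.log x ^ (U + 1) := by
              apply mul_le_mul_of_nonneg_right _ (by positivity)
              linarith
          _ = 2 * Real.log x ^ (U + 1 + 1) := by ring
          _ ≤ _ := hx2
      calc (x : ℝ) ^ (1 - ε) * (1 + Real.log x) * Real.log x ^ (U + 1)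
          = (x : ℝ) ^ (1 - ε) * ((1 + Real.log x) * Real.log x ^ (U + 1)) := by ring
        _ ≤ (x : ℝ) ^ (1 - ε) * (x : ℝ) ^ ε :=
            mul_le_mul_of_nonneg_left h4 (Real.rpow_nonneg hxr.le _)
        _ = x := e.symm
    · exact fun b hb => hbv x hx3 b hb
    · exact hpnt x hx3
  -- all codes
  set f : ℕ → List ℕ → ℝ := fun q l => |pn x (q * l.prod) (A q l) - lin x / (Nat.totient (q * l.prod) : ℝ)| with hf
  have hf0 : ∀ q l, 0 ≤ f q l := fun q l => abs_nonneg _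
  have h1 : ∑ q ∈ S, ∑ l ∈ D q, f q l ≤
      ∑ c : Fin K → Fin K, ∑ q ∈ S, ∑ l ∈ (D q).filter (fun l => HasCode (ext K c) l), f q l := by
    rw [sum_comm]
    refine sum_le_sum fun q hq => ?_
    simp only [sum_filter]
    rw [sum_comm]
    refine sum_le_sum fun l hl => ?_
    obtain ⟨c, hc⟩ := code_ex K l (by
      have h2 := length_le (hLS q hq) hx1' hρ (by linarith) hl
      have h3 := Nat.le_ceil (1 / ρ)
      exact_mod_cast h2.trans h3)
    have h3 := single_le_sum (f := fun c : Fin K → Fin K => if HasCode (ext K c) l then f q l else 0)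
      (fun c _ => by
        by_cases h : HasCode (ext K c) l
        · simp only [h, if_true]; exact hf0 q l
        · simp only [h, if_false]; exact le_rfl) (mem_univ c)
    simp only [hc, if_true] at h3
    exact h3
  refine h1.trans ((sum_le_sum fun c _ => hcode c).trans ?_)
  rw [sum_const, nsmul_eq_mul, ← mul_assoc]
  have h5 : ((univ : Finset (Fin K → Fin K)).card : ℝ) * (1 + 4 * C1 + 16 * C2) = C := rfl
  rw [h5]
  calc C * (x / Real.log x ^ (U + 1)) ≤ Real.log x * (x / Real.log x ^ (U + 1)) :=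
        mul_le_mul_of_nonneg_right hxC (by positivity)
    _ = x / Real.log x ^ U := by
        rw [pow_succ]
        field_simp

end Pool.Agent.R503.T
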